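import Pool.Agent.Lib_helper66.CYL.Base
import Pool.Agent.Lib_helper58.MBS.L.BCMP
import Pool.Agent.Lib_helper58.MBS.L.BMIN
import Pool.Agent.Lib_helper58.MBS.L.BSEQ
import Pool.Agent.Lib_helper58.MBS.L.BLIM
import Pool.Agent.Lib_helper58.MBS.L.BCHT
import Pool.Agent.Lib_helper58.MBS.L.BJET
import Pool.Agent.Lib_helper58.MBS.L.BNC
import Pool.Agent.Lib_helper58.MBS.L.BSMP
import Pool.Agent.Lib_helper58.MBS.L.ALIM
import Pool.Agent.Lib_helper58.MBS.L.AINV
import Pool.Agent.Lib_helper58.MBS.L.CPIM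
import Pool.Agent.Lib_helper58.MBS.L.DLST
import Pool.Agent.Lib_helper58.MBS.L.EUEX
import Pool.Agent.Lib_helper58.MBS.L.ETF
import Pool.Agent.Lib_helper58.MBS.L.FLAT
import Pool.Agent.Lib_helper66.CYL.P.BVIS
import Pool.Agent.Lib_helper66.CYL.P.BBAI
import Pool.Agent.Lib_helper66.CYL.P.BSMC
import Pool.Agent.Lib_helper66.CYL.P.CASM
import Pool.Agent.Lib_helper66.CYL.P.DHH
import Pool.Agent.Lib_helper66.CYL.P.EENT
import Pool.Agent.Lib_helper66.CYL.P.ELIM
import Pool.Agent.Lib_helper66.CYL.P.EPAR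
import Pool.Agent.Lib_helper66.CYL.P.FSTA
import Pool.Agent.Lib_helper66.CYL.P.FCOV

/-! # The cylinder theorem (MP_45e720_ag), block P4: small functions vanishing at `0` and `2 π i` -/

set_option autoImplicit false
set_option linter.unusedSectionVars false
set_option linter.unusedVariables false

open Filter Topology Metric Set

namespace Pool.Agent.CYL

open Pool.Agent.BR Pool.Agent.MBS

section pure

variable {V : Type} [NormedAddCommGroup V] [NormedSpace ℂ V]
  {E : Type} [NormedAddCommGroup E] [NormedSpace ℂ E] [FiniteDimensional ℂ E]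

/-- Cauchy estimate on a disc inside a larger disc -/
theorem p4_cauchy {F : ℂ → E} {r s C : ℝ} (hs : 0 < s) (hF : ∀ w ∈ ball (0 : ℂ) (r + s),
    AnalyticAt ℂ F w) (hb : ∀ w ∈ ball (0 : ℂ) (r + s), ‖F w‖ ≤ C) :
    ∀ w ∈ ball (0 : ℂ) r, ‖deriv F w‖ ≤ C / s := by
  intro w hw
  rw [mem_ball_zero_iff] at hw
  have hsub : ∀ z ∈ closedBall w s, z ∈ ball (0 : ℂ) (r + s) := by
    intro z hz
    rw [mem_closedBall, dist_eq_norm] at hz
    rw [mem_ball_zero_iff]
    have h1 : ‖z‖ ≤ ‖w‖ + ‖z - w‖ := by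
      have := norm_add_le w (z - w)
      rwa [add_sub_cancel] at this
    linarith
  apply Complex.norm_deriv_le_of_forall_mem_sphere_norm_le hs
  · apply DifferentiableOn.diffContOnCl
    rw [closure_ball w hs.ne']
    exact fun z hz => (hF z (hsub z hz)).differentiableAt.differentiableWithinAt
  · intro z hz
    exact hb z (hsub z (sphere_subset_closedBall hz))

/-- block P4: a function of linear growth with `F 0 = F (2 π i) = 0` is small -/
theorem dec_pure_pr {F : ℂ → E} {n K : ℝ} (hn : 16 ≤ n) (hK : 0 ≤ K)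
    (hF : ∀ w ∈ ball (0 : ℂ) n, AnalyticAt ℂ F w) (hb : ∀ w ∈ ball (0 : ℂ) n, ‖F w‖ ≤ K * (‖w‖ + 1))
    (h0 : F 0 = 0) (h1 : F tpi = 0) : ∀ w : ℂ, ‖w‖ ≤ 1 → ‖F w‖ ≤ 240 * K / n := by
  have hcomp : CompleteSpace E := FiniteDimensional.complete ℂ E
  have hnpos : 0 < n := by linarith
  have e1 : 3 * n / 4 + n / 4 = n := by ring
  have e2 : n / 2 + n / 4 = 3 * n / 4 := by ring
  -- first Cauchy estimate
  have c1 : ∀ w ∈ ball (0 : ℂ) (3 * n / 4), ‖deriv F w‖ ≤ (17 / 4) * K := by
    intro w hw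
    have h := p4_cauchy (F := F) (r := 3 * n / 4) (s := n / 4) (C := K * (n + 1)) (by linarith)
      (by rw [e1]; exact hF) (by
        rw [e1]
        intro z hz
        refine (hb z hz).trans ?_
        rw [mem_ball_zero_iff] at hz
        gcongr) w hw
    refine h.trans ?_
    rw [div_le_iff₀ (by linarith)]
    nlinarith
  -- second Cauchy estimate
  have c2 : ∀ w ∈ ball (0 : ℂ) (n / 2), ‖deriv (deriv F) w‖ ≤ 17 * K / n := by
    intro w hw
    have h := p4_cauchy (F := deriv F) (r := n / 2) (s := n / 4) (C := (17 / 4) * K) (by linarith)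
      (by
        rw [e2]
        intro z hz
        apply AnalyticAt.deriv
        apply hF
        rw [mem_ball_zero_iff] at hz ⊢
        linarith) (by rw [e2]; exact c1) w hw
    refine h.trans (le_of_eq ?_)
    field_simp
  have hd1 : ∀ w ∈ ball (0 : ℂ) (n / 2), AnalyticAt ℂ F w := by
    intro w hw
    apply hF
    rw [mem_ball_zero_iff] at hw ⊢
    linarith
  have c3 : ∀ w ∈ ball (0 : ℂ) (n / 2), ‖deriv F w - deriv F 0‖ ≤ 17 * K / n * ‖w‖ := by
    intro w hw
    have h := Convex.norm_image_sub_le_of_norm_deriv_le (𝕜 := ℂ) (f := deriv F)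
      (s := ball (0 : ℂ) (n / 2)) (x := 0) (y := w)
      (fun z hz => (hd1 z hz).deriv.differentiableAt) c2 (convex_ball _ _)
      (mem_ball_self (by linarith)) hw
    rwa [sub_zero] at h
  have c4 : ∀ w ∈ ball (0 : ℂ) (n / 2), ‖F w - w • deriv F 0‖ ≤ 17 * K / n * ‖w‖ * ‖w‖ := by
    intro w hw
    rw [mem_ball_zero_iff] at hw
    have hmem : ∀ z ∈ closedBall (0 : ℂ) ‖w‖, z ∈ ball (0 : ℂ) (n / 2) := by
      intro z hz
      rw [mem_closedBall_zero_iff] at hz
      rw [mem_ball_zero_iff]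
      linarith
    have hder : ∀ z ∈ closedBall (0 : ℂ) ‖w‖,
        HasDerivAt (fun z => F z - z • deriv F 0) (deriv F z - deriv F 0) z := by
      intro z hz
      have h := (hd1 z (hmem z hz)).differentiableAt.hasDerivAt
      have h' := (hasDerivAt_id z).smul_const (deriv F 0)
      rw [one_smul] at h'
      exact h.sub h'
    have h := Convex.norm_image_sub_le_of_norm_deriv_le (𝕜 := ℂ)
      (f := fun z => F z - z • deriv F 0) (C := 17 * K / n * ‖w‖)
      (s := closedBall (0 : ℂ) ‖w‖) (x := 0) (y := w)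
      (fun z hz => (hder z hz).differentiableAt) (fun z hz => by
        rw [(hder z hz).deriv]
        refine (c3 z (hmem z hz)).trans ?_
        rw [mem_closedBall_zero_iff] at hz
        have : 0 ≤ 17 * K / n := by positivity
        gcongr) (convex_closedBall _ _)
      (mem_closedBall_self (norm_nonneg _)) (by rw [mem_closedBall_zero_iff])
    simpa [h0] using h
  have hA : 0 ≤ K / n := by positivity
  have e3 : 17 * K / n = 17 * (K / n) := by ring
  have e4 : 240 * K / n = 240 * (K / n) := by ring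
  have htn : ‖tpi‖ = 2 * Real.pi := by
    unfold tpi
    simp [abs_of_pos Real.pi_pos]
  have hpi3 := Real.pi_gt_three
  have hpi4 := Real.pi_lt_d2
  have c5 : ‖deriv F 0‖ ≤ 108 * (K / n) := by
    have h := c4 tpi (by rw [mem_ball_zero_iff, htn]; linarith)
    rw [h1, zero_sub, norm_neg, norm_smul, htn, e3] at h
    have h2 : 2 * Real.pi * ‖deriv F 0‖ ≤ 2 * Real.pi * (17 * (K / n) * (2 * Real.pi)) := by
      nlinarith
    have h3 := le_of_mul_le_mul_left h2 (by linarith)
    refine h3.trans ?_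
    nlinarith
  intro w hw
  have h := c4 w (by rw [mem_ball_zero_iff]; linarith)
  have h2 : ‖F w‖ ≤ ‖F w - w • deriv F 0‖ + ‖w • deriv F 0‖ := by
    have := norm_add_le (F w - w • deriv F 0) (w • deriv F 0)
    rwa [sub_add_cancel] at this
  rw [norm_smul] at h2
  have h3 : ‖w‖ * ‖deriv F 0‖ ≤ 1 * (108 * (K / n)) := by gcongr
  have h4 : 17 * K / n * ‖w‖ * ‖w‖ ≤ 17 * (K / n) := by
    rw [e3]
    have h5 : ‖w‖ * ‖w‖ ≤ 1 := by nlinarith [norm_nonneg w]
    nlinarith
  rw [e4]
  linarith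

end pure

end Pool.Agent.CYL

namespace Pool.Agent.CYL
alias dec_pure := dec_pure_pr
end Pool.Agent.CYL
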