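import Pool.Agent.Lib_helper66.CYL.Base
import Pool.Agent.Lib_helper58.MBS.L.BCMP
import Pool.Agent.Lib_helper58.MBS.L.BMIN
import Pool.Agent.Lib_helper58.MBS.L.BSEQ
import Pool.Agent.Lib_helper58.MBS.L.BLIM
import Pool.Agent.Lib_helper58.MBS.L.BCHT
import Pool.Agent.Lib_helper58.MBS.L.BJET
import Pool.Agent.Lib_helper58.MBS.L.BNC
import Pool.Agent.Lib_helper58.MBS.L.BSMP
import Pool.Agent.Lib_helper58.MBS.L.ALIM
import Pool.Agent.Lib_helper58.MBS.L.AINV
import Pool.Agent.Lib_helper58.MBS.L.CPIM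
import Pool.Agent.Lib_helper58.MBS.L.DLST
import Pool.Agent.Lib_helper58.MBS.L.EUEX
import Pool.Agent.Lib_helper58.MBS.L.ETF
import Pool.Agent.Lib_helper58.MBS.L.FLAT
import Pool.Agent.Lib_helper66.CYL.P.BVIS
import Pool.Agent.Lib_helper66.CYL.P.BBAI
import Pool.Agent.Lib_helper66.CYL.P.BSMC
import Pool.Agent.Lib_helper66.CYL.P.CASM
import Pool.Agent.Lib_helper66.CYL.P.DHH
import Pool.Agent.Lib_helper66.CYL.P.EENT
import Pool.Agent.Lib_helper66.CYL.P.ELIM
import Pool.Agent.Lib_helper66.CYL.P.EPAR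
import Pool.Agent.Lib_helper66.CYL.P.FSTA
import Pool.Agent.Lib_helper66.CYL.P.FCOV

/-! # The cylinder theorem (MP_45e720_ag), block B2: calm everywhere; calm strips -/

set_option autoImplicit false
set_option linter.unusedSectionVars false
set_option linter.unusedVariables false

open Filter Topology Metric Set

namespace Pool.Agent.CYL

open Pool.Agent.BR Pool.Agent.MBS

section fam

variable {E X : Type} [NormedAddCommGroup E] [NormedSpace ℂ E] [FiniteDimensional ℂ E]
  [MetricSpace X] [CompactSpace X] {A : Cha E X} {C lam L : ℝ} {M : Set (ℂ → X)}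

/-- unit steps along a segment -/
theorem b2_chain {g : ℂ → X} {δ : ℝ} (n : ℕ) : ∀ z z' : ℂ, ‖z' - z‖ ≤ n →
    (∀ t : ℝ, 0 ≤ t → t ≤ 1 → Calm δ g (z + t * (z' - z))) → dist (g z) (g z') ≤ n * δ := by
  induction n with
  | zero =>
    intro z z' h _
    have h1 : z' - z = 0 := norm_le_zero_iff.1 (by simpa using h)
    rw [sub_eq_zero.1 h1]
    simp
  | succ n ih =>
    intro z z' h hc
    have hn : (0 : ℝ) < (n : ℝ) + 1 := by positivity
    set s : ℝ := (n : ℝ) / (n + 1) with hs
    have hs0 : 0 ≤ s := by positivity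
    have hs1 : s ≤ 1 := by
      rw [hs, div_le_one hn]
      linarith
    set w : ℂ := z + s * (z' - z) with hw
    have h' : ‖z' - z‖ ≤ (n : ℝ) + 1 := by exact_mod_cast h
    have h1 : ‖w - z‖ ≤ n := by
      rw [hw, add_sub_cancel_left, norm_mul, Complex.norm_real, Real.norm_of_nonneg hs0]
      calc s * ‖z' - z‖ ≤ s * ((n : ℝ) + 1) := mul_le_mul_of_nonneg_left h' hs0
        _ = n := by rw [hs]; field_simp
    have h2 : ‖z' - w‖ ≤ 1 := by
      have h3 : z' - w = ((1 - s : ℝ) : ℂ) * (z' - z) := by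
        rw [hw]
        push_cast
        ring
      rw [h3, norm_mul, Complex.norm_real, Real.norm_of_nonneg (by linarith)]
      calc (1 - s) * ‖z' - z‖ ≤ (1 - s) * ((n : ℝ) + 1) :=
            mul_le_mul_of_nonneg_left h' (by linarith)
        _ = 1 := by rw [hs]; field_simp; ring
    have h4 := ih z w h1 fun t ht0 ht1 => by
      have h5 : z + (t : ℂ) * (w - z) = z + ((t * s : ℝ) : ℂ) * (z' - z) := by
        rw [hw]
        push_cast
        ring
      rw [h5]
      exact hc (t * s) (by positivity) (mul_le_one₀ ht1 hs0 hs1)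
    have h6 := hc s hs0 hs1 z' h2
    rw [dist_comm] at h6
    have h7 := dist_triangle (g z) (g w) (g z')
    have h8 : (((n + 1 : ℕ) : ℝ)) * δ = n * δ + δ := by
      push_cast
      ring
    rw [h8]
    linarith

theorem b2_half {η₀ : ℝ} (hη : 0 < η₀) (k : ℕ) : 0 < η₀ / 2 ^ k ∧ η₀ / 2 ^ k ≤ η₀ := by
  refine ⟨by positivity, div_le_self hη.le ?_⟩
  exact one_le_pow₀ (by norm_num)

theorem calm_const_pr {η₀ : ℝ} (hη : 0 < η₀) {ℓ : ℕ} (hD : Dec A C η₀ ℓ) {g : ℂ → X}
    (hg : g ∈ BF A C) (hp : Per g) (h : ∀ z, Calm η₀ g z) : ∀ z z', g z = g z' := by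
  have h1 : ∀ k : ℕ, ∀ z, Calm (η₀ / 2 ^ k) g z := by
    intro k
    induction k with
    | zero =>
      intro z
      simpa using h z
    | succ k ih =>
      intro z
      have h2 := hD g hg hp (η₀ / 2 ^ k) (b2_half hη k).1 (b2_half hη k).2 z fun z' _ => ih z'
      have h3 : η₀ / 2 ^ k / 2 = η₀ / 2 ^ (k + 1) := by
        rw [pow_succ, div_div]
      rw [h3] at h2
      exact h2
  have h2 : ∀ z w : ℂ, ‖w - z‖ ≤ 1 → g w = g z := by
    intro z w hw
    have h3 : ∀ k : ℕ, dist (g w) (g z) ≤ η₀ / 2 ^ k := fun k => h1 k z w hw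
    have h4 : Tendsto (fun k : ℕ => η₀ / 2 ^ k) atTop (𝓝 0) := by
      have h5 := (tendsto_pow_atTop_nhds_zero_of_lt_one (r := (1 / 2 : ℝ)) (by norm_num)
        (by norm_num)).const_mul η₀
      rw [mul_zero] at h5
      refine h5.congr fun k => ?_
      rw [one_div, inv_pow, div_eq_mul_inv]
    exact dist_le_zero.1 (ge_of_tendsto' h4 h3)
  have h3 : IsLocallyConstant g := by
    rw [IsLocallyConstant.iff_eventually_eq]
    intro z
    filter_upwards [closedBall_mem_nhds z one_pos] with w hw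
    rw [mem_closedBall, dist_eq_norm] at hw
    exact h2 z w hw
  exact fun z z' => h3.apply_eq_of_preconnectedSpace z z'

theorem b2_per {g : ℂ → X} (hp : Per g) (n : ℤ) (z : ℂ) : g (z + n * tpi) = g z := by
  induction n using Int.induction_on with
  | zero => simp
  | succ n ih =>
    have h1 : z + ((n : ℤ) + 1 : ℤ) * tpi = (z + ((n : ℤ) : ℂ) * tpi) + tpi := by
      push_cast
      ring
    rw [h1, hp, ih]
  | pred n ih =>
    have h1 : z + ((-(n : ℤ) : ℤ) : ℂ) * tpi = (z + ((-(n : ℤ) - 1 : ℤ) : ℂ) * tpi) + tpi := by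
      push_cast
      ring
    rw [h1, hp] at ih
    exact ih

/-- from a point to the middle of the strip -/
theorem b2_mid {η₀ : ℝ} (hη : 0 < η₀) {ℓ : ℕ} {g : ℂ → X} {m R : ℝ}
    (hc : ∀ (k : ℕ) (z : ℂ), |z.re - m| < R - k * ℓ → Calm (η₀ / 2 ^ k) g z) (n : ℕ) :
    ∀ (k : ℕ) (z : ℂ), |z.re - m| < R - k * ℓ → |z.re - m| ≤ n * ℓ →
      dist (g z) (g (m + z.im * Complex.I)) ≤ 2 * (ℓ * (η₀ / 2 ^ k)) := by
  induction n with
  | zero =>
    intro k z h1 h2
    have h3 : z.re = m := by
      have h4 : |z.re - m| ≤ 0 := by simpa using h2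
      have h5 := abs_nonpos_iff.1 h4
      linarith
    have h4 : (m : ℂ) + z.im * Complex.I = z := by
      rw [← h3]
      exact Complex.re_add_im z
    rw [h4, dist_self]
    have := (b2_half hη k).1
    positivity
  | succ n ih =>
    intro k z h1 h2
    have hη' := (b2_half hη k).1
    by_cases hx : |z.re - m| ≤ ℓ
    · -- one block
      have h3 : ‖((m : ℂ) + z.im * Complex.I) - z‖ ≤ ℓ := by
        have h4 : ((m : ℂ) + z.im * Complex.I) - z = ((-(z.re - m) : ℝ) : ℂ) := by
          apply Complex.ext <;> simp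
        rw [h4, Complex.norm_real, Real.norm_eq_abs, abs_neg]
        exact hx
      have h4 := b2_chain (g := g) (δ := η₀ / 2 ^ k) ℓ z (m + z.im * Complex.I) h3
        fun t ht0 ht1 => by
          refine hc k _ ?_
          have h5 : (z + t * (((m : ℂ) + z.im * Complex.I) - z)).re - m =
              (1 - t) * (z.re - m) := by
            simp
            ring
          rw [h5, abs_mul, abs_of_nonneg (by linarith : (0 : ℝ) ≤ 1 - t)]
          refine lt_of_le_of_lt ?_ h1
          exact mul_le_of_le_one_left (abs_nonneg _) (by linarith)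
      have h5 : 0 ≤ (ℓ : ℝ) * (η₀ / 2 ^ k) := by positivity
      linarith
    · push Not at hx
      have hx0 : 0 < |z.re - m| := lt_of_le_of_lt (Nat.cast_nonneg ℓ) hx
      set s : ℝ := ℓ / |z.re - m| with hs
      have hs0 : 0 ≤ s := by positivity
      have hs1 : s ≤ 1 := by
        rw [hs, div_le_one hx0]
        exact hx.le
      have hsx : s * |z.re - m| = ℓ := by
        rw [hs]
        field_simp
      set w : ℂ := z - ((s * (z.re - m) : ℝ) : ℂ) with hw
      have hwre : w.re - m = (1 - s) * (z.re - m) := by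
        rw [hw]
        simp
        ring
      have hwim : w.im = z.im := by
        rw [hw]
        simp
      have hwabs : |w.re - m| = |z.re - m| - ℓ := by
        rw [hwre, abs_mul, abs_of_nonneg (by linarith : (0 : ℝ) ≤ 1 - s)]
        rw [sub_mul, hsx, one_mul]
      have h3 : ‖w - z‖ ≤ ℓ := by
        have h4 : w - z = ((-(s * (z.re - m)) : ℝ) : ℂ) := by
          rw [hw]
          push_cast
          ring
        rw [h4, Complex.norm_real, Real.norm_eq_abs, abs_neg, abs_mul, abs_of_nonneg hs0, hsx]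
      have h4 := b2_chain (g := g) (δ := η₀ / 2 ^ k) ℓ z w h3 fun t ht0 ht1 => by
        refine hc k _ ?_
        have h5 : (z + t * (w - z)).re - m = (1 - t * s) * (z.re - m) := by
          rw [hw]
          simp
          ring
        have h6 : t * s ≤ 1 := mul_le_one₀ ht1 hs0 hs1
        have h7 : 0 ≤ t * s := by positivity
        rw [h5, abs_mul, abs_of_nonneg (by linarith : (0 : ℝ) ≤ 1 - t * s)]
        refine lt_of_le_of_lt ?_ h1
        exact mul_le_of_le_one_left (abs_nonneg _) (by linarith)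
      have h5 := ih (k + 1) w (by rw [hwabs]; push_cast; linarith) (by
        rw [hwabs]
        push_cast at h2
        linarith)
      rw [hwim] at h5
      have h6 := dist_triangle (g z) (g w) (g (m + z.im * Complex.I))
      have h7 : η₀ / 2 ^ (k + 1) = η₀ / 2 ^ k / 2 := by
        rw [pow_succ, div_div]
      rw [h7] at h5
      linarith

theorem exists_str_pr {η₀ : ℝ} (hη : 0 < η₀) {ℓ : ℕ} (hℓ : 1 ≤ ℓ) (hD : Dec A C η₀ ℓ) :
    ∃ C₀ > 0, Str A C η₀ ℓ C₀ := by
  have hℓ0 : (0 : ℝ) < ℓ := by exact_mod_cast hℓ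
  refine ⟨(4 * ℓ + 4) * η₀, by positivity, ?_⟩
  intro g hg hp a b k hcalm z z' hz1 hz2 hz'1 hz'2
  set m : ℝ := (a + b) / 2 with hm
  set R : ℝ := (b - a) / 2 with hR
  have hdeep : ∀ (x : ℝ) (j : ℕ), |x - m| < R - j * ℓ ↔ a + j * ℓ < x ∧ x < b - j * ℓ := by
    intro x j
    rw [abs_lt, hm, hR]
    constructor
    · rintro ⟨h1, h2⟩
      constructor <;> linarith
    · rintro ⟨h1, h2⟩
      constructor <;> linarith
  -- depth
  have hc : ∀ (j : ℕ) (w : ℂ), |w.re - m| < R - j * ℓ → Calm (η₀ / 2 ^ j) g w := by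
    intro j
    induction j with
    | zero =>
      intro w hw
      rw [hdeep] at hw
      simp only [Nat.cast_zero, zero_mul, add_zero, sub_zero] at hw
      simpa using hcalm w hw.1 hw.2
    | succ j ih =>
      intro w hw
      have h2 := hD g hg hp (η₀ / 2 ^ j) (b2_half hη j).1 (b2_half hη j).2 w fun w' hw' => by
        refine ih w' ?_
        have h3 : |w'.re - w.re| ≤ ℓ := by
          rw [← Complex.sub_re]
          exact (Complex.abs_re_le_norm _).trans hw'
        have h4 : |w'.re - m| ≤ |w'.re - w.re| + |w.re - m| := by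
          have := abs_add_le (w'.re - w.re) (w.re - m)
          rwa [show w'.re - w.re + (w.re - m) = w'.re - m by ring] at this
        push_cast at hw
        linarith
      have h3 : η₀ / 2 ^ j / 2 = η₀ / 2 ^ (j + 1) := by
        rw [pow_succ, div_div]
      rw [h3] at h2
      exact h2
  have hmid : ∀ w : ℂ, a + k * ℓ < w.re → w.re < b - k * ℓ →
      dist (g w) (g (m + w.im * Complex.I)) ≤ 2 * (ℓ * (η₀ / 2 ^ k)) := by
    intro w hw1 hw2
    refine b2_mid hη hc ⌈|w.re - m|⌉₊ k w ((hdeep _ _).2 ⟨hw1, hw2⟩) ?_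
    calc |w.re - m| ≤ (⌈|w.re - m|⌉₊ : ℝ) := Nat.le_ceil _
      _ ≤ (⌈|w.re - m|⌉₊ : ℝ) * ℓ := le_mul_of_one_le_right (by positivity) (by exact_mod_cast hℓ)
  -- the period
  set N : ℤ := round ((z.im - z'.im) / (2 * Real.pi)) with hN
  set z'' : ℂ := z' + N * tpi with hz''
  have hgz'' : g z'' = g z' := b2_per hp N z'
  have hpi : 0 < 2 * Real.pi := by positivity
  have hre : z''.re = z'.re := by
    rw [hz'']
    unfold tpi
    simp
  have him : z''.im = z'.im + N * (2 * Real.pi) := by
    rw [hz'']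
    unfold tpi
    simp
  have h1 : |z.im - z''.im| ≤ 4 := by
    have h2 := abs_sub_round ((z.im - z'.im) / (2 * Real.pi))
    have h3 : z.im - z''.im = ((z.im - z'.im) / (2 * Real.pi) - N) * (2 * Real.pi) := by
      rw [him]
      field_simp
      ring
    rw [h3, abs_mul, abs_of_pos hpi]
    have h4 := Real.pi_lt_four
    calc |(z.im - z'.im) / (2 * Real.pi) - N| * (2 * Real.pi) ≤ 1 / 2 * (2 * Real.pi) :=
          mul_le_mul_of_nonneg_right h2 hpi.le
      _ ≤ 4 := by linarith
  have h2 := hmid z hz1 hz2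
  have h3 := hmid z'' (by rw [hre]; exact hz'1) (by rw [hre]; exact hz'2)
  have h4 : dist (g (m + z.im * Complex.I)) (g (m + z''.im * Complex.I)) ≤
      (4 : ℕ) * (η₀ / 2 ^ k) := by
    refine b2_chain 4 _ _ ?_ fun t ht0 ht1 => ?_
    · have h5 : ((m : ℂ) + z''.im * Complex.I) - (m + z.im * Complex.I) =
          ((z''.im - z.im : ℝ) : ℂ) * Complex.I := by
        push_cast
        ring
      rw [h5, norm_mul, Complex.norm_I, mul_one, Complex.norm_real, Real.norm_eq_abs, abs_sub_comm]
      exact_mod_cast h1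
    · refine hc k _ ?_
      have h5 : (((m : ℂ) + z.im * Complex.I) + t * (((m : ℂ) + z''.im * Complex.I) -
          (m + z.im * Complex.I))).re - m = 0 := by
        simp
      rw [h5, abs_zero]
      have h6 := (hdeep z.re k).2 ⟨hz1, hz2⟩
      exact lt_of_le_of_lt (abs_nonneg _) h6
  rw [← hgz'']
  have h5 := dist_triangle (g z) (g (m + z.im * Complex.I)) (g z'')
  have h6 := dist_triangle (g (m + z.im * Complex.I)) (g (m + z''.im * Complex.I)) (g z'')
  rw [dist_comm] at h3
  have h7 : (4 * ℓ + 4) * η₀ / 2 ^ k = 4 * (ℓ * (η₀ / 2 ^ k)) + 4 * (η₀ / 2 ^ k) := by ring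
  rw [h7]
  push_cast at h4
  linarith

end fam

end Pool.Agent.CYL

namespace Pool.Agent.CYL
alias calm_const := calm_const_pr
alias exists_str := exists_str_pr
end Pool.Agent.CYL
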