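import Pool.Agent.Lib_helper66.CYL.Base
import Pool.Agent.Lib_helper58.MBS.L.BCMP
import Pool.Agent.Lib_helper58.MBS.L.BMIN
import Pool.Agent.Lib_helper58.MBS.L.BSEQ
import Pool.Agent.Lib_helper58.MBS.L.BLIM
import Pool.Agent.Lib_helper58.MBS.L.BCHT
import Pool.Agent.Lib_helper58.MBS.L.BJET
import Pool.Agent.Lib_helper58.MBS.L.BNC
import Pool.Agent.Lib_helper58.MBS.L.BSMP
import Pool.Agent.Lib_helper58.MBS.L.ALIM
import Pool.Agent.Lib_helper58.MBS.L.AINV
import Pool.Agent.Lib_helper58.MBS.L.CPIM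
import Pool.Agent.Lib_helper58.MBS.L.DLST
import Pool.Agent.Lib_helper58.MBS.L.EUEX
import Pool.Agent.Lib_helper58.MBS.L.ETF
import Pool.Agent.Lib_helper58.MBS.L.FLAT
import Pool.Agent.Lib_helper66.CYL.P.BVIS
import Pool.Agent.Lib_helper66.CYL.P.BBAI
import Pool.Agent.Lib_helper66.CYL.P.BSMC
import Pool.Agent.Lib_helper66.CYL.P.CASM
import Pool.Agent.Lib_helper66.CYL.P.DHH
import Pool.Agent.Lib_helper66.CYL.P.EENT
import Pool.Agent.Lib_helper66.CYL.P.ELIM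
import Pool.Agent.Lib_helper66.CYL.P.EPAR
import Pool.Agent.Lib_helper66.CYL.P.FSTA
import Pool.Agent.Lib_helper66.CYL.P.FCOV

/-! # Cylinder theorem, block B4 (helper37) -/

set_option autoImplicit false
set_option linter.unusedSectionVars false
set_option linter.unusedVariables false

open Filter Topology Metric Set

namespace Pool.Agent.CYL

open Pool.Agent.BR Pool.Agent.MBS

section fam

variable {E X : Type} [NormedAddCommGroup E] [NormedSpace ℂ E] [FiniteDimensional ℂ E]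
  [MetricSpace X] [CompactSpace X] {A : Cha E X} {C lam L : ℝ} {M : Set (ℂ → X)}

/-- block B4 -/
theorem calm_closed_pr (η : ℝ) (z : ℂ) : IsClosed {g : ℂ → X | Calm η g z} := by
  have h : {g : ℂ → X | Calm η g z} =
      ⋂ (w : ℂ) (_ : ‖w - z‖ ≤ 1), {g : ℂ → X | dist (g w) (g z) ≤ η} := by
    ext g
    simp only [Calm, mem_ofPred_eq, mem_iInter]
  rw [h]
  exact isClosed_iInter fun w => isClosed_iInter fun _ =>
    isClosed_le ((continuous_apply w).dist (continuous_apply z)) continuous_const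

/-- block B4 -/
theorem act_of_not_calm_pr {η : ℝ} {g : ℂ → X} {z : ℂ} (h : ¬ Calm η g z) : Act η g z := by
  unfold Calm at h
  push Not at h
  obtain ⟨w, hw, h1⟩ := h
  exact ⟨w, hw, h1.le⟩

/-- limits of active points -/
theorem b4_act_lim {κ : Type} {U : Ultrafilter κ} {g : κ → ℂ → X} {f : ℂ → X}
    (hg : ∀ᶠ n in (U : Filter κ), g n ∈ BF A C) (hf : f ∈ BF A C)
    (hlim : Tendsto g (U : Filter κ) (𝓝 f)) {z : κ → ℂ} {z₀ : ℂ}
    (hz : Tendsto z (U : Filter κ) (𝓝 z₀)) {η : ℝ}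
    (h : ∀ᶠ n in (U : Filter κ), Act η (g n) (z n)) : Act η f z₀ := by
  have hw : ∀ n : κ, ∃ w : ℂ, Act η (g n) (z n) →
      ‖w - z n‖ ≤ 1 ∧ η ≤ dist (g n w) (g n (z n)) := by
    intro n
    by_cases hn : Act η (g n) (z n)
    · obtain ⟨w, h1, h2⟩ := hn
      exact ⟨w, fun _ => ⟨h1, h2⟩⟩
    · exact ⟨0, fun h1 => absurd h1 hn⟩
  choose w hw using hw
  have h1 : ∀ᶠ n in (U : Filter κ), ‖w n - z n‖ ≤ 1 ∧ η ≤ dist (g n (w n)) (g n (z n)) :=
    h.mono fun n hn => hw n hn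
  have h2 : closedBall (0 : ℂ) 1 ∈ U.map (fun n => w n - z n) := by
    rw [Ultrafilter.mem_map]
    exact Filter.mem_of_superset h1 fun n hn => by
      simpa [mem_closedBall_zero_iff] using hn.1
  obtain ⟨u₀, hu₀, h3⟩ := (isCompact_closedBall (0 : ℂ) 1).ultrafilter_le_nhds'
    (U.map (fun n => w n - z n)) h2
  have h4 : Tendsto (fun n => w n - z n) (U : Filter κ) (𝓝 u₀) := h3
  have h5 : Tendsto w (U : Filter κ) (𝓝 (z₀ + u₀)) := by
    have h6 := hz.add h4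
    refine h6.congr fun n => ?_
    ring
  have h6 := bf_eval hg hf hlim h5
  have h7 := bf_eval hg hf hlim hz
  refine ⟨z₀ + u₀, ?_, ?_⟩
  · rw [add_sub_cancel_left]
    simpa [mem_closedBall_zero_iff] using hu₀
  · exact le_of_tendsto_of_tendsto tendsto_const_nhds (h6.dist h7) (h1.mono fun n hn => hn.2)

/-- block B4: the active curves form a compact set -/
theorem ka_compact_pr (hM : IsClosed M) (hsub : M ⊆ BF A C) (η ρ : ℝ) :
    IsCompact (KA M η ρ) := by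
  refine IsClosed.isCompact ?_
  rw [isClosed_iff_ultrafilter]
  intro g U hU hS
  have hz : ∀ h : ℂ → X, ∃ z : ℂ, h ∈ KA M η ρ → ‖z‖ ≤ ρ ∧ Act η h z := by
    intro h
    by_cases hh : h ∈ KA M η ρ
    · obtain ⟨_, z, h1, h2⟩ := hh
      exact ⟨z, fun _ => ⟨h1, h2⟩⟩
    · exact ⟨0, fun h1 => absurd h1 hh⟩
  choose z hz using hz
  have h1 : ∀ᶠ h : ℂ → X in (U : Filter (ℂ → X)), h ∈ KA M η ρ := hS
  have hgM : g ∈ M := (isClosed_iff_ultrafilter.1 hM) g U hU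
    (Filter.mem_of_superset hS fun h hh => hh.1)
  have h2 : closedBall (0 : ℂ) ρ ∈ U.map z := by
    rw [Ultrafilter.mem_map]
    exact Filter.mem_of_superset hS fun h hh => by
      simpa [mem_closedBall_zero_iff] using (hz h hh).1
  obtain ⟨z₀, hz₀, h3⟩ := (isCompact_closedBall (0 : ℂ) ρ).ultrafilter_le_nhds' (U.map z) h2
  have h4 : Tendsto z (U : Filter (ℂ → X)) (𝓝 z₀) := h3
  refine ⟨hgM, z₀, by simpa [mem_closedBall_zero_iff] using hz₀, ?_⟩
  exact b4_act_lim (g := fun h => h) (h1.mono fun h hh => hsub hh.1) (hsub hgM) hU h4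
    (h1.mono fun h hh => (hz h hh).2)

/-- block B4 -/
theorem ka_ncst_pr {η ρ : ℝ} (hη : 0 < η) {g : ℂ → X} (hg : g ∈ KA M η ρ) : NCst g := by
  obtain ⟨_, z, _, w, _, h⟩ := hg
  refine ⟨w, z, fun h1 => ?_⟩
  rw [h1, dist_self] at h
  linarith

theorem b4_closed {g : ℂ → X} (hg : g ∈ BF A C) (η : ℝ) : IsClosed {z : ℂ | Act η g z} := by
  rw [isClosed_iff_ultrafilter]
  intro z U hU hS
  exact b4_act_lim (g := fun _ : ℂ => g) (Eventually.of_forall fun _ => hg) hg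
    tendsto_const_nhds (z := fun w => w) hU hS

theorem b4_per {g : ℂ → X} (hp : Per g) (k : ℤ) (z : ℂ) : g (z + k * tpi) = g z := by
  have h : Function.Periodic g tpi := hp
  exact (h.int_mul k) z

theorem b4_act_per {g : ℂ → X} (hp : Per g) (k : ℤ) {η : ℝ} {z : ℂ} (h : Act η g z) :
    Act η g (z + k * tpi) := by
  obtain ⟨w, h1, h2⟩ := h
  refine ⟨w + k * tpi, ?_, ?_⟩
  · rw [show w + k * tpi - (z + k * tpi) = w - z by ring]
    exact h1
  · rw [b4_per hp, b4_per hp]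
    exact h2

theorem b4_re (k : ℤ) (z : ℂ) : (z + k * tpi).re = z.re := by
  simp [tpi]

theorem b4_im (z : ℂ) : ∃ k : ℤ, 0 ≤ (z + k * tpi).im ∧ (z + k * tpi).im ≤ 2 * Real.pi := by
  have hπ : 0 < 2 * Real.pi := by positivity
  have him : ∀ k : ℤ, (z + k * tpi).im = z.im + k * (2 * Real.pi) := by
    intro k
    simp [tpi]
  refine ⟨-⌊z.im / (2 * Real.pi)⌋, ?_⟩
  rw [him]
  have h1 := Int.floor_le (z.im / (2 * Real.pi))
  have h2 := Int.lt_floor_add_one (z.im / (2 * Real.pi))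
  rw [le_div_iff₀ hπ] at h1
  rw [div_lt_iff₀ hπ] at h2
  push_cast
  constructor <;> nlinarith

/-- block B4: the first active point to the right -/
theorem first_act_pr {g : ℂ → X} (hg : g ∈ BF A C) (hp : Per g) {η a a' : ℝ} (haa : a ≤ a')
    (hc : ∀ w : ℂ, a < w.re → w.re < a' → Calm η g w)
    (hn : ∃ w : ℂ, a < w.re ∧ ¬ Calm η g w) :
    ∃ w₀ : ℂ, a' ≤ w₀.re ∧ Act η g w₀ ∧ ∀ w : ℂ, a < w.re → w.re < w₀.re → Calm η g w := by
  obtain ⟨w₁, hw₁, hn₁⟩ := hn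
  have ha₁ : a' ≤ w₁.re := by
    by_contra h
    exact hn₁ (hc w₁ hw₁ (not_le.1 h))
  -- the compact set of the active points
  set K : Set ℂ := {z : ℂ | Act η g z} ∩ (Icc a' w₁.re ×ℂ Icc 0 (2 * Real.pi)) with hK
  have hKc : IsCompact K := by
    rw [hK]
    exact (isCompact_Icc.reProdIm isCompact_Icc).inter_left (b4_closed hg η)
  have hmem : ∀ w : ℂ, a < w.re → w.re ≤ w₁.re → ¬ Calm η g w → ∃ v ∈ K, v.re = w.re := by
    intro w hw hw' hnc
    obtain ⟨k, hk1, hk2⟩ := b4_im w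
    refine ⟨w + k * tpi, ⟨b4_act_per hp k (act_of_not_calm_pr hnc), ?_⟩, b4_re k w⟩
    rw [Complex.mem_reProdIm, b4_re]
    refine ⟨⟨?_, hw'⟩, hk1, hk2⟩
    by_contra h
    exact hnc (hc w hw (not_le.1 h))
  obtain ⟨v₁, hv₁, -⟩ := hmem w₁ hw₁ le_rfl hn₁
  obtain ⟨w₀, hw₀, hmin⟩ := hKc.exists_isMinOn ⟨v₁, hv₁⟩ Complex.continuous_re.continuousOn
  have hw₀' : w₀ ∈ Icc a' w₁.re ×ℂ Icc 0 (2 * Real.pi) := hw₀.2
  rw [Complex.mem_reProdIm] at hw₀'
  refine ⟨w₀, hw₀'.1.1, hw₀.1, ?_⟩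
  intro w hw hlt
  by_contra hnc
  obtain ⟨v, hv, hvre⟩ := hmem w hw (hlt.le.trans hw₀'.1.2) hnc
  have h1 : w₀.re ≤ v.re := hmin hv
  linarith

end fam

end Pool.Agent.CYL

namespace Pool.Agent.CYL
alias calm_closed := calm_closed_pr
alias act_of_not_calm := act_of_not_calm_pr
alias ka_compact := ka_compact_pr
alias ka_ncst := ka_ncst_pr
alias first_act := first_act_pr
end Pool.Agent.CYL
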