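import Pool.Agent.Lib_helper66.CYL.Base
import Pool.Agent.Lib_helper58.MBS.L.BCMP
import Pool.Agent.Lib_helper58.MBS.L.BMIN
import Pool.Agent.Lib_helper58.MBS.L.BSEQ
import Pool.Agent.Lib_helper58.MBS.L.BLIM
import Pool.Agent.Lib_helper58.MBS.L.BCHT
import Pool.Agent.Lib_helper58.MBS.L.BJET
import Pool.Agent.Lib_helper58.MBS.L.BNC
import Pool.Agent.Lib_helper58.MBS.L.BSMP
import Pool.Agent.Lib_helper58.MBS.L.ALIM
import Pool.Agent.Lib_helper58.MBS.L.AINV
import Pool.Agent.Lib_helper58.MBS.L.CPIM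
import Pool.Agent.Lib_helper58.MBS.L.DLST
import Pool.Agent.Lib_helper58.MBS.L.EUEX
import Pool.Agent.Lib_helper58.MBS.L.ETF
import Pool.Agent.Lib_helper58.MBS.L.FLAT
import Pool.Agent.Lib_helper66.CYL.P.BVIS
import Pool.Agent.Lib_helper66.CYL.P.BBAI
import Pool.Agent.Lib_helper66.CYL.P.BSMC
import Pool.Agent.Lib_helper66.CYL.P.CASM
import Pool.Agent.Lib_helper66.CYL.P.DHH
import Pool.Agent.Lib_helper66.CYL.P.EENT
import Pool.Agent.Lib_helper66.CYL.P.ELIM
import Pool.Agent.Lib_helper66.CYL.P.EPAR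
import Pool.Agent.Lib_helper66.CYL.P.FSTA
import Pool.Agent.Lib_helper66.CYL.P.FCOV
import Pool.Agent.Lib_helper66.CYL.N.B2
import Pool.Agent.Lib_helper66.CYL.N.B4

/-! # CYL block B5: existence of quasi-minimal sets -/

set_option autoImplicit false
set_option linter.unusedSectionVars false
set_option linter.unusedVariables false

open Filter Topology Metric Set

namespace Pool.Agent.CYL

open Pool.Agent.BR Pool.Agent.MBS

section fam

variable {E X : Type} [NormedAddCommGroup E] [NormedSpace ℂ E] [FiniteDimensional ℂ E]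
  [MetricSpace X] [CompactSpace X] {A : Cha E X} {C lam L : ℝ} {M : Set (ℂ → X)}

/-- periodicity is a closed condition -/
theorem b5_per_closed : IsClosed {g : ℂ → X | Per g} := by
  have : {g : ℂ → X | Per g} = ⋂ z : ℂ, {g : ℂ → X | g (z + tpi) = g z} := by
    ext g; simp [Per]
  rw [this]
  exact isClosed_iInter fun z => isClosed_eq (continuous_apply _) (continuous_apply _)

/-- translates of periodic curves are periodic -/
theorem b5_per_tr {g : ℂ → X} (hp : Per g) (w : ℂ) : Per (tr w g) := by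
  intro z
  simp only [tr]
  rw [show z + tpi + w = (z + w) + tpi by ring]
  exact hp _

/-- the orbit closure of a periodic curve consists of periodic curves -/
theorem b5_per {f : ℂ → X} (hp : Per f) :
    closure (range fun w => tr w f) ⊆ {g : ℂ → X | Per g} := by
  refine closure_minimal ?_ b5_per_closed
  rintro _ ⟨w, rfl⟩
  exact b5_per_tr hp w

/-- a nonconstant member of an invariant set can be translated to an active one -/
theorem b5_act {η₀ : ℝ} (hη : 0 < η₀) {ℓ : ℕ} (hD : Dec A C η₀ ℓ) {N : Set (ℂ → X)}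
    (hsub : N ⊆ BF A C) (hper : ∀ g ∈ N, Per g) (hinv : ∀ g ∈ N, ∀ w, tr w g ∈ N)
    (h : ∃ g ∈ N, NCst g) : (KA N η₀ 0).Nonempty := by
  obtain ⟨g, hg, z₁, z₂, hne⟩ := h
  have h1 : ∃ z, ¬ Calm η₀ g z := by
    by_contra hcon
    push Not at hcon
    exact hne (calm_const hη hD (hsub hg) (hper g hg) hcon z₁ z₂)
  obtain ⟨z, hz⟩ := h1
  obtain ⟨w, hw, hd⟩ := act_of_not_calm hz
  refine ⟨tr z g, hinv g hg z, 0, by simp, w - z, by simpa using hw, ?_⟩
  simpa [tr] using hd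

/-- B5: existence of quasi-minimal sets -/
theorem exists_qm_pr {η₀ : ℝ} (hη : 0 < η₀) {ℓ : ℕ} (hD : Dec A C η₀ ℓ) {f : ℂ → X}
    (hf : f ∈ BF A C) (hp : Per f) (hn : NCst f) :
    ∃ M, QM A C M ∧ M ⊆ closure (range fun w => tr w f) := by
  set K : Set (ℂ → X) := closure (range fun w => tr w f) with hK
  have hKB : K ⊆ BF A C := bmin_sub hf
  have hKp : ∀ g ∈ K, Per g := fun g hg => b5_per hp hg
  have hKi : ∀ g ∈ K, ∀ w, tr w g ∈ K := fun g hg w => bmin_inv hg w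
  let S : Set (Set (ℂ → X)) :=
    {N | IsClosed N ∧ (KA N η₀ 0).Nonempty ∧ N ⊆ K ∧ ∀ g ∈ N, ∀ w, tr w g ∈ N}
  have hf0 : f ∈ K := subset_closure ⟨0, by funext z; simp [tr]⟩
  have hKS : K ∈ S :=
    ⟨isClosed_closure, b5_act hη hD hKB hKp hKi ⟨f, hf0, hn⟩, Subset.rfl, hKi⟩
  have hKA : ∀ N ∈ S, IsCompact (KA N η₀ 0) := fun N hN =>
    ka_compact hN.1 (hN.2.2.1.trans hKB) η₀ 0
  obtain ⟨M, hMK, hM⟩ := zorn_superset_nonempty S (by
    intro c hc hchain hne
    refine ⟨⋂₀ c, ⟨isClosed_sInter fun s hs => (hc hs).1, ?_, ?_, ?_⟩, fun s hs =>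
      sInter_subset_of_mem hs⟩
    · haveI : Nonempty c := hne.to_subtype
      have h1 : (⋂ s : c, KA (s : Set (ℂ → X)) η₀ 0).Nonempty := by
        refine IsCompact.nonempty_iInter_of_directed_nonempty_isCompact_isClosed _ ?_
          (fun U => (hc U.2).2.1) (fun U => hKA _ (hc U.2)) (fun U => (hKA _ (hc U.2)).isClosed)
        intro a b
        rcases hchain.total a.2 b.2 with h | h
        · exact ⟨a, fun g hg => hg, fun g hg => ⟨h hg.1, hg.2⟩⟩
        · exact ⟨b, fun g hg => ⟨h hg.1, hg.2⟩, fun g hg => hg⟩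
      obtain ⟨g, hg⟩ := h1
      rw [mem_iInter] at hg
      obtain ⟨s₀, hs₀⟩ := hne
      refine ⟨g, ?_, (hg ⟨s₀, hs₀⟩).2⟩
      rw [mem_sInter]
      exact fun s hs => (hg ⟨s, hs⟩).1
    · obtain ⟨s, hs⟩ := hne
      exact (sInter_subset_of_mem hs).trans (hc hs).2.2.1
    · intro g hg w
      rw [mem_sInter] at hg ⊢
      exact fun s hs => (hc hs).2.2.2 g (hg s hs) w) K hKS
  have hMS : M ∈ S := hM.prop
  refine ⟨M, ⟨hMS.2.2.1.trans hKB, hMS.1, hMS.2.2.2, fun g hg => hKp g (hMS.2.2.1 hg), ?_, ?_⟩,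
    hMS.2.2.1⟩
  · obtain ⟨g, hg⟩ := hMS.2.1
    exact ⟨g, hg.1, ka_ncst hη hg⟩
  · intro N hN hNc hNe hNi
    have hNK : N ⊆ K := hN.trans hMS.2.2.1
    have hNS : N ∈ S :=
      ⟨hNc, b5_act hη hD (hNK.trans hKB) (fun g hg => hKp g (hNK hg)) hNi hNe, hNK, hNi⟩
    exact Subset.antisymm hN (hM.le_of_le hNS hN)

end fam

end Pool.Agent.CYL

namespace Pool.Agent.CYL
alias exists_qm := exists_qm_pr
end Pool.Agent.CYL
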