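import Pool.Agent.Lib_helper66.CYL.Base
import Pool.Agent.Lib_helper58.MBS.L.BCMP
import Pool.Agent.Lib_helper58.MBS.L.BMIN
import Pool.Agent.Lib_helper58.MBS.L.BSEQ
import Pool.Agent.Lib_helper58.MBS.L.BLIM
import Pool.Agent.Lib_helper58.MBS.L.BCHT
import Pool.Agent.Lib_helper58.MBS.L.BJET
import Pool.Agent.Lib_helper58.MBS.L.BNC
import Pool.Agent.Lib_helper58.MBS.L.BSMP
import Pool.Agent.Lib_helper58.MBS.L.ALIM
import Pool.Agent.Lib_helper58.MBS.L.AINV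
import Pool.Agent.Lib_helper58.MBS.L.CPIM
import Pool.Agent.Lib_helper58.MBS.L.DLST
import Pool.Agent.Lib_helper58.MBS.L.EUEX
import Pool.Agent.Lib_helper58.MBS.L.ETF
import Pool.Agent.Lib_helper58.MBS.L.FLAT
import Pool.Agent.Lib_helper66.CYL.P.BVIS
import Pool.Agent.Lib_helper66.CYL.P.BBAI
import Pool.Agent.Lib_helper66.CYL.P.BSMC
import Pool.Agent.Lib_helper66.CYL.P.CASM
import Pool.Agent.Lib_helper66.CYL.P.DHH
import Pool.Agent.Lib_helper66.CYL.P.EENT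
import Pool.Agent.Lib_helper66.CYL.P.ELIM
import Pool.Agent.Lib_helper66.CYL.P.EPAR
import Pool.Agent.Lib_helper66.CYL.P.FSTA
import Pool.Agent.Lib_helper66.CYL.P.FCOV

/-! CYL, block E2: the displacement near any point -/

set_option autoImplicit false
set_option linter.unusedSectionVars false
set_option linter.unusedVariables false

open Filter Topology Metric Set

namespace Pool.Agent.CYL

open Pool.Agent.BR Pool.Agent.MBS

section sec

variable {E X : Type} [NormedAddCommGroup E] [NormedSpace ℂ E] [FiniteDimensional ℂ E]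
  [MetricSpace X] [CompactSpace X] {A : Cha E X} {C lam L : ℝ} {M : Set (ℂ → X)} {k N : ℕ}

theorem e2_closed {f : ℂ → X} (hf : f ∈ BF A C) (θ ε : ℝ) : IsClosed {ζ : ℂ | Smp θ ε f ζ} := by
  rw [← closure_subset_iff_isClosed]
  intro z₀ hz₀
  have : (𝓝[{ζ : ℂ | Smp θ ε f ζ}] z₀).NeBot := mem_closure_iff_nhdsWithin_neBot.1 hz₀
  exact smp_lim (F := 𝓝[{ζ : ℂ | Smp θ ε f ζ}] z₀) (g := fun _ => f) (f := f) (z := id)
    (Eventually.of_forall fun _ => hf) hf tendsto_const_nhds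
    (tendsto_id.mono_right nhdsWithin_le_nhds) self_mem_nhdsWithin

/-- block E2: the displacement near any point is bounded by a multiple of `m n` -/
theorem mle_event_pr (hB : BLip A lam L) (hM : QM A C M) {θ ε : ℝ} (hθ : 0 < θ) (hε : 0 < ε)
    {κ : Type} {U : Ultrafilter κ} {f : ℂ → X} {h : κ → ℂ → X} {m : κ → ℝ}
    (hS : Sit A M U f h m) (z : ℂ) :
    ∃ B : ℝ, ∀ᶠ n in (U : Filter κ), Mle θ ε f (h n) z (B * m n) := by
  have hfB : f ∈ BF A C := hM.sub hS.f_mem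
  have hK : IsCompact (closedBall z 2 ∩ {ζ : ℂ | Smp θ ε f ζ}) :=
    (isCompact_closedBall z 2).inter_right (e2_closed hfB θ ε)
  have key : ∃ B : ℝ, ∀ᶠ n in (U : Filter κ), ∀ ζ ∈ closedBall z 2 ∩ {ζ : ℂ | Smp θ ε f ζ},
      ∃ u, ‖u - ζ‖ ≤ ε ∧ dist (f ζ) (h n u) ≤ B * m n := by
    refine hK.induction_on (p := fun S => ∃ B : ℝ, ∀ᶠ n in (U : Filter κ), ∀ ζ ∈ S,
      ∃ u, ‖u - ζ‖ ≤ ε ∧ dist (f ζ) (h n u) ≤ B * m n) ?_ ?_ ?_ ?_
    · exact ⟨0, Eventually.of_forall fun n ζ hζ => absurd hζ (notMem_empty ζ)⟩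
    · rintro s t hst ⟨B, hB'⟩
      exact ⟨B, hB'.mono fun n hn ζ hζ => hn ζ (hst hζ)⟩
    · rintro s t ⟨B, hs⟩ ⟨B', ht⟩
      refine ⟨max B B', (hs.and ht).mono fun n hn ζ hζ => ?_⟩
      have hm := hS.m_nonneg n
      rcases hζ with hζ | hζ
      · obtain ⟨u, hu, hd⟩ := hn.1 ζ hζ
        exact ⟨u, hu, hd.trans (mul_le_mul_of_nonneg_right (le_max_left _ _) hm)⟩
      · obtain ⟨u, hu, hd⟩ := hn.2 ζ hζ
        exact ⟨u, hu, hd.trans (mul_le_mul_of_nonneg_right (le_max_right _ _) hm)⟩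
    · rintro x ⟨hx, hxs⟩
      have hnc : NC A f x := smp_nc hB hθ hε hfB.1 hxs
      obtain ⟨ρ, hρ, B, hN⟩ := hS.nn x hnc
      exact ⟨ball x ρ, mem_nhdsWithin_of_mem_nhds (ball_mem_nhds x hρ), B, hN ε hε⟩
  obtain ⟨B, hB'⟩ := key
  refine ⟨B, hB'.mono fun n hn ζ hζ hs => hn ζ ⟨?_, hs⟩⟩
  rw [mem_closedBall, dist_eq_norm]
  exact hζ

end sec

end Pool.Agent.CYL

namespace Pool.Agent.CYL
alias mle_event := mle_event_pr
end Pool.Agent.CYL
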