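import Pool.Agent.Lib_helper66.CYL.Base
import Pool.Agent.Lib_helper58.MBS.L.BCMP
import Pool.Agent.Lib_helper58.MBS.L.BMIN
import Pool.Agent.Lib_helper58.MBS.L.BSEQ
import Pool.Agent.Lib_helper58.MBS.L.BLIM
import Pool.Agent.Lib_helper58.MBS.L.BCHT
import Pool.Agent.Lib_helper58.MBS.L.BJET
import Pool.Agent.Lib_helper58.MBS.L.BNC
import Pool.Agent.Lib_helper58.MBS.L.BSMP
import Pool.Agent.Lib_helper58.MBS.L.ALIM
import Pool.Agent.Lib_helper58.MBS.L.AINV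
import Pool.Agent.Lib_helper58.MBS.L.CPIM
import Pool.Agent.Lib_helper58.MBS.L.DLST
import Pool.Agent.Lib_helper58.MBS.L.EUEX
import Pool.Agent.Lib_helper58.MBS.L.ETF
import Pool.Agent.Lib_helper58.MBS.L.FLAT
import Pool.Agent.Lib_helper66.CYL.P.BVIS
import Pool.Agent.Lib_helper66.CYL.P.BBAI
import Pool.Agent.Lib_helper66.CYL.P.BSMC
import Pool.Agent.Lib_helper66.CYL.P.CASM
import Pool.Agent.Lib_helper66.CYL.P.DHH
import Pool.Agent.Lib_helper66.CYL.P.EENT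
import Pool.Agent.Lib_helper66.CYL.P.ELIM
import Pool.Agent.Lib_helper66.CYL.P.EPAR
import Pool.Agent.Lib_helper66.CYL.P.FSTA
import Pool.Agent.Lib_helper66.CYL.P.FCOV
import Pool.Agent.Lib_helper66.CYL.P.ENZE
import Pool.Agent.Lib_helper66.CYL.N.E2

/-! # The cylinder theorem (MP_45e720_ag): block E3, Harnack inequality for the section -/

set_option autoImplicit false
set_option linter.unusedSectionVars false
set_option linter.unusedVariables false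

open Filter Topology Metric Set

namespace Pool.Agent.CYL

open Pool.Agent.BR Pool.Agent.MBS

section sec

variable {E X : Type} [NormedAddCommGroup E] [NormedSpace ℂ E] [FiniteDimensional ℂ E]
  [MetricSpace X] [CompactSpace X] {A : Cha E X} {C lam L : ℝ} {M : Set (ℂ → X)} {k N : ℕ}

/-- the least displacement near the point `z` -/
theorem e3_least (hM : QM A C M) {θ ε : ℝ} (hε : 0 < ε) {f h : ℂ → X} (hf : f ∈ M) (hh : h ∈ M)
    (z : ℂ) : ∃ K : ℝ, 0 ≤ K ∧ Mle θ ε f h z K ∧ (K = 0 ∨ ∃ ζ, ‖ζ - z‖ ≤ 2 ∧ Smp θ ε f ζ ∧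
      ∀ u, ‖u - ζ‖ ≤ ε → K ≤ dist (f ζ) (h u)) := by
  obtain ⟨K, hK0, hK1, hK2⟩ := mle_least (θ := θ) hε (hM.sub (hM.inv f hf z))
    (hM.sub (hM.inv h hh z))
  refine ⟨K, hK0, ?_, ?_⟩
  · intro ζ hζ hs
    have hs' : Smp θ ε (tr z f) (ζ - z) := by
      rw [smp_tr, sub_add_cancel]
      exact hs
    obtain ⟨u, hu1, hu2⟩ := hK1 (ζ - z) (by rwa [sub_zero]) hs'
    refine ⟨u + z, ?_, ?_⟩
    · have e : u + z - ζ = u - (ζ - z) := by ring
      rw [e]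
      exact hu1
    · have e : tr z f (ζ - z) = f ζ := by
        show f (ζ - z + z) = f ζ
        rw [sub_add_cancel]
      rw [e] at hu2
      exact hu2
  · rcases hK2 with hK2 | ⟨ζ, hζ1, hζ2, hζ3⟩
    · exact Or.inl hK2
    · refine Or.inr ⟨ζ + z, by rwa [add_sub_cancel_right], smp_tr.mp hζ2, fun u hu => ?_⟩
      have h1 := hζ3 (u - z) (by
        have e : u - z - ζ = u - (ζ + z) := by ring
        rw [e]
        exact hu)
      have e : tr z h (u - z) = h u := by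
        show h (u - z + z) = h u
        rw [sub_add_cancel]
      rw [e] at h1
      exact h1

theorem e3_mono {θ ε K K' : ℝ} {f h : ℂ → X} {z : ℂ} (hK : K ≤ K') (h1 : Mle θ ε f h z K) :
    Mle θ ε f h z K' := fun ζ hζ hs => by
  obtain ⟨u, hu, hu'⟩ := h1 ζ hζ hs
  exact ⟨u, hu, hu'.trans hK⟩

/-- block E3: Harnack inequality for the section -/
theorem sec_harnack_pr (hE : Module.finrank ℂ E = 2) (hB : BLip A lam L) (hM : QM A C M)
    (F : A.Frm N k) (hk : 0 < k) {K : Set (ℂ → X)} (hKM : K ⊆ M) {θ ε R₁ C₀ R δ : ℝ}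
    (hSm : SmpK M K θ ε) (hC₀ : 1 ≤ C₀) (hδ : 0 < δ) (hH : HHK M K θ ε R₁ C₀ R δ) :
    ∃ C₁ > 0, ∀ (κ : Type) (U : Ultrafilter κ) (f : ℂ → X) (h : κ → ℂ → X) (m : κ → ℝ),
      Sit A M U f h m → ∀ σ : ℂ → EuclideanSpace ℂ (Fin N), Differentiable ℂ σ →
        (∀ z, NC A f z → IsSig A F (U : Filter κ) f h m z (σ z)) →
        ∀ z z', tr z f ∈ K → tr z' f ∈ K → ‖z' - z‖ ≤ R₁ →
          ∀ w, ‖w - z'‖ ≤ 1 → ∃ w', ‖w' - z‖ ≤ 2 ∧ ‖σ w‖ ≤ C₁ * ‖σ w'‖ := by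
  obtain ⟨B, hB0, hbd⟩ := sig_bound (θ := θ) (ε := ε) hB hM F hSm.θ_pos
  obtain ⟨c, hc0, hlow⟩ := sig_low hE hB hM F (θ := θ) (ε := ε) hSm.θ_pos hSm.ε_pos
  have hC₀0 : 0 < C₀ := by linarith
  refine ⟨B * (4 * C₀) ^ k / c, by positivity, ?_⟩
  intro κ U f h m hS σ hσ hsig z z' hz hz' hzz
  have hfBF := hM.sub hS.f_mem
  have hsg : ∀ ζ, Smp θ ε f ζ → IsSig A F (U : Filter κ) f h m ζ (σ ζ) := fun ζ hζ =>
    hsig ζ (smp_nc hB hSm.θ_pos hSm.ε_pos hfBF.1 hζ)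
  -- the upper bound
  have hclose : ∀ᶠ n in (U : Filter κ), ∀ w, ‖w - z‖ ≤ R → dist (f w) (h n w) ≤ δ := by
    have h1 := bf_unif (hS.h_mem.mono fun n hn => hM.sub hn) hfBF hS.lim (‖z‖ + |R|) δ hδ
    filter_upwards [h1] with n hn w hw
    rw [dist_comm]
    refine (hn w ?_).le
    have h2 : ‖w‖ ≤ ‖w - z‖ + ‖z‖ := by
      have := norm_add_le (w - z) z
      rwa [sub_add_cancel] at this
    have := le_abs_self R
    linarith
  have hup : ∀ e : ℝ, 0 < e → (∀ᶠ n in (U : Filter κ), Mle θ ε f (h n) z (e * m n)) →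
      ∀ w, ‖w - z'‖ ≤ 1 → ‖σ w‖ ≤ B * (C₀ * e) ^ k := by
    intro e he hev w hw
    have hev' : ∀ᶠ n in (U : Filter κ), Mle θ ε f (h n) z' (C₀ * e * m n) := by
      filter_upwards [hev, hclose, hS.h_mem] with n h1 h2 h3
      have h4 := hH f hS.f_mem (h n) h3 z (e * m n) hz
        (mul_nonneg he.le (hS.m_nonneg n)) h2 h1 z' hzz
      rw [mul_assoc]
      exact h4
    obtain ⟨s, hs1, hs2, η, hη, hcirc⟩ := hSm.circ (tr z' f) hz'
    have hself := hcirc.self_of_nhdsWithin (hKM hz')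
    have hs0 : 0 < s := by linarith
    have hfr : ∀ v ∈ frontier (ball z' s), ‖σ v‖ ≤ B * (C₀ * e) ^ k := by
      intro v hv
      rw [frontier_ball z' hs0.ne'] at hv
      have hv1 : ‖v - z'‖ = s := by rwa [mem_sphere, dist_eq_norm] at hv
      have hsmp : Smp θ ε f v := by
        have h2 := hself (v - z') (by rw [hv1]; linarith) (by rw [hv1]; linarith)
        rw [smp_tr, sub_add_cancel] at h2
        exact h2
      refine hbd κ U f h m hS v (C₀ * e) (by positivity) hsmp ?_ _ (hsg v hsmp)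
      filter_upwards [hev'] with n hn
      exact hn v (by rw [hv1]; linarith) hsmp
    refine Complex.norm_le_of_forall_mem_frontier_norm_le isBounded_ball hσ.diffContOnCl hfr
      (subset_closure ?_)
    rw [mem_ball, dist_eq_norm]
    linarith
  -- the least displacement
  have hK : ∀ n : κ, ∃ (q : ℝ) (ζ : ℂ), 0 ≤ q ∧ (h n ∈ M → Mle θ ε f (h n) z q ∧
      (q = 0 ∨ ‖ζ - z‖ ≤ 2 ∧ Smp θ ε f ζ ∧ ∀ u, ‖u - ζ‖ ≤ ε → q ≤ dist (f ζ) (h n u))) := by
    intro n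
    by_cases hh : h n ∈ M
    · obtain ⟨q, hq0, hq1, hq2⟩ := e3_least (θ := θ) hM hSm.ε_pos hS.f_mem hh z
      rcases hq2 with hq2 | ⟨ζ, hζ⟩
      · exact ⟨q, 0, hq0, fun _ => ⟨hq1, Or.inl hq2⟩⟩
      · exact ⟨q, ζ, hq0, fun _ => ⟨hq1, Or.inr hζ⟩⟩
    · exact ⟨0, 0, le_rfl, fun h1 => absurd h1 hh⟩
  choose q ζ hq hqζ using hK
  obtain ⟨B₁, hB₁⟩ := mle_event hB hM hSm.θ_pos hSm.ε_pos hS z
  have hqB : ∀ᶠ n in (U : Filter κ), q n / m n ∈ Icc (0 : ℝ) |B₁| := by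
    filter_upwards [hB₁, hS.h_mem, hS.m_pos] with n h1 h2 h3
    refine ⟨div_nonneg (hq n) h3.le, ?_⟩
    rw [div_le_iff₀ h3]
    rcases (hqζ n h2).2 with h4 | ⟨h4, h5, h6⟩
    · rw [h4]
      positivity
    · obtain ⟨u, hu, hu'⟩ := h1 (ζ n) h4 h5
      exact (h6 u hu).trans (hu'.trans (mul_le_mul_of_nonneg_right (le_abs_self _) h3.le))
  obtain ⟨q₀, hq₀, hlim⟩ : ∃ q₀ ∈ Icc (0 : ℝ) |B₁|,
      Tendsto (fun n => q n / m n) (U : Filter κ) (𝓝 q₀) := by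
    have h1 : ((U.map fun n => q n / m n : Ultrafilter ℝ) : Filter ℝ) ≤ 𝓟 (Icc (0 : ℝ) |B₁|) := by
      rw [Filter.le_principal_iff]
      exact hqB
    obtain ⟨q₀, hq₀, h2⟩ := isCompact_Icc.ultrafilter_le_nhds _ h1
    exact ⟨q₀, hq₀, h2⟩
  intro w hw
  rcases eq_or_lt_of_le hq₀.1 with h0 | h0
  · -- the section vanishes
    have h1 : ∀ e : ℝ, 0 < e → ‖σ w‖ ≤ B * (C₀ * e) ^ k := by
      intro e he
      refine hup e he ?_ w hw
      have h2 : ∀ᶠ n in (U : Filter κ), q n / m n < e :=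
        hlim.eventually_lt_const (by rw [← h0]; exact he)
      filter_upwards [h2, hS.h_mem, hS.m_pos] with n h3 h4 h5
      rw [div_lt_iff₀ h5] at h3
      exact e3_mono h3.le (hqζ n h4).1
    have h2 : Tendsto (fun e : ℝ => B * (C₀ * e) ^ k) (𝓝[>] 0) (𝓝 (B * (C₀ * 0) ^ k)) := by
      refine Tendsto.mono_left ?_ nhdsWithin_le_nhds
      exact ((continuous_const.mul ((continuous_const.mul continuous_id).pow k)).tendsto 0)
    have h3 : ‖σ w‖ ≤ B * (C₀ * 0) ^ k :=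
      ge_of_tendsto h2 (by filter_upwards [self_mem_nhdsWithin] with e he using h1 e he)
    rw [mul_zero, zero_pow hk.ne', mul_zero] at h3
    refine ⟨z, by simp, h3.trans ?_⟩
    positivity
  · -- the displacement is attained
    have hev1 : ∀ᶠ n in (U : Filter κ), q₀ / 2 < q n / m n :=
      hlim.eventually_const_lt (by linarith)
    have hev2 : ∀ᶠ n in (U : Filter κ), q n / m n < 2 * q₀ :=
      hlim.eventually_lt_const (by linarith)
    have hatt : ∀ᶠ n in (U : Filter κ), ‖ζ n - z‖ ≤ 2 ∧ Smp θ ε f (ζ n) ∧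
        ∀ u, ‖u - ζ n‖ ≤ ε → q₀ / 2 * m n ≤ dist (f (ζ n)) (h n u) := by
      filter_upwards [hev1, hS.h_mem, hS.m_pos] with n h1 h2 h3
      rw [lt_div_iff₀ h3] at h1
      have h4 : 0 < q n := lt_of_le_of_lt (by positivity) h1
      rcases (hqζ n h2).2 with h5 | ⟨h5, h6, h7⟩
      · exact absurd h5 h4.ne'
      · exact ⟨h5, h6, fun u hu => h1.le.trans (h7 u hu)⟩
    obtain ⟨z₂, hz₂, hs₂, hl₂⟩ := hlow κ U f h m hS (q₀ / 2) (by positivity) z ζ hatt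
    have h1 := hl₂ _ (hsg z₂ hs₂)
    have h2 : ‖σ w‖ ≤ B * (C₀ * (2 * q₀)) ^ k := by
      refine hup (2 * q₀) (by positivity) ?_ w hw
      filter_upwards [hev2, hS.h_mem, hS.m_pos] with n h3 h4 h5
      rw [div_lt_iff₀ h5] at h3
      exact e3_mono h3.le (hqζ n h4).1
    refine ⟨z₂, hz₂, h2.trans ?_⟩
    have h3 : B * (C₀ * (2 * q₀)) ^ k = B * (4 * C₀) ^ k / c * (c * (q₀ / 2) ^ k) := by
      have h4 : C₀ * (2 * q₀) = (4 * C₀) * (q₀ / 2) := by ring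
      rw [h4, mul_pow]
      field_simp
    rw [h3]
    exact mul_le_mul_of_nonneg_left h1 (by positivity)

end sec

end Pool.Agent.CYL

namespace Pool.Agent.CYL
alias sec_harnack := sec_harnack_pr
end Pool.Agent.CYL
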