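import Pool.Agent.Lib_helper66.CYL.Base
import Pool.Agent.Lib_helper58.MBS.L.BCMP
import Pool.Agent.Lib_helper58.MBS.L.BMIN
import Pool.Agent.Lib_helper58.MBS.L.BSEQ
import Pool.Agent.Lib_helper58.MBS.L.BLIM
import Pool.Agent.Lib_helper58.MBS.L.BCHT
import Pool.Agent.Lib_helper58.MBS.L.BJET
import Pool.Agent.Lib_helper58.MBS.L.BNC
import Pool.Agent.Lib_helper58.MBS.L.BSMP
import Pool.Agent.Lib_helper58.MBS.L.ALIM
import Pool.Agent.Lib_helper58.MBS.L.AINV
import Pool.Agent.Lib_helper58.MBS.L.CPIM
import Pool.Agent.Lib_helper58.MBS.L.DLST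
import Pool.Agent.Lib_helper58.MBS.L.EUEX
import Pool.Agent.Lib_helper58.MBS.L.ETF
import Pool.Agent.Lib_helper58.MBS.L.FLAT
import Pool.Agent.Lib_helper66.CYL.P.BVIS
import Pool.Agent.Lib_helper66.CYL.P.BBAI
import Pool.Agent.Lib_helper66.CYL.P.BSMC
import Pool.Agent.Lib_helper66.CYL.P.CASM
import Pool.Agent.Lib_helper66.CYL.P.DHH
import Pool.Agent.Lib_helper66.CYL.P.EENT
import Pool.Agent.Lib_helper66.CYL.P.ELIM
import Pool.Agent.Lib_helper66.CYL.P.EPAR
import Pool.Agent.Lib_helper66.CYL.P.FSTA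
import Pool.Agent.Lib_helper66.CYL.P.FCOV

/-! # Cylinder theorem, block E4 (helper37) -/

set_option autoImplicit false
set_option linter.unusedSectionVars false
set_option linter.unusedVariables false

open Filter Topology Metric Set

namespace Pool.Agent.CYL

open Pool.Agent.BR Pool.Agent.MBS

section sec

variable {E X : Type} [NormedAddCommGroup E] [NormedSpace ℂ E] [FiniteDimensional ℂ E]
  [MetricSpace X] [CompactSpace X] {A : Cha E X} {C lam L : ℝ} {M : Set (ℂ → X)} {k N : ℕ}

/-- block E4: the section is periodic -/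
theorem sig_per_pr (hB : BLip A lam L) (hM : QM A C M) (F : A.Frm N k) {κ : Type}
    {U : Ultrafilter κ} {f : ℂ → X} {h : κ → ℂ → X} {m : κ → ℝ} (hS : Sit A M U f h m)
    (hfn : NCst f) {σ : ℂ → EuclideanSpace ℂ (Fin N)} (hσ : Differentiable ℂ σ)
    (hsig : ∀ z, NC A f z → IsSig A F (U : Filter κ) f h m z (σ z)) :
    ∀ z, σ (z + tpi) = σ z := by
  have hfp : Per f := hM.per f hS.f_mem
  have hBF : f ∈ BF A C := hM.sub hS.f_mem
  have hloc : ∀ i z, A.loc i f (z + tpi) = A.loc i f z := fun i z => by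
    change A.ch i (f (z + tpi)) = A.ch i (f z)
    rw [hfp z]
  have hder : ∀ i z, deriv (A.loc i f) (z + tpi) = deriv (A.loc i f) z := fun i z => by
    have h1 : (fun w => A.loc i f (w + tpi)) = A.loc i f := funext (hloc i)
    have h2 : deriv (fun w => A.loc i f (w + tpi)) z = deriv (A.loc i f) (z + tpi) :=
      deriv_comp_add_const (f := A.loc i f) tpi z
    rw [← h2, h1]
  have hNC : ∀ z, NC A f z → NC A f (z + tpi) := fun z hz i hi => by
    rw [hder]
    rw [hfp z] at hi
    exact hz i hi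
  have hkey : ∀ z, NC A f z → σ (z + tpi) = σ z := by
    intro z hz
    refine sig_unique hB F hS (hNC z hz) (hsig (z + tpi) (hNC z hz)) ?_
    intro i hi u hu hBu
    have hi' : f z ∈ (A.ch i).source := by rwa [hfp z] at hi
    have hu' : Tendsto (fun n => u n - tpi) (U : Filter κ) (𝓝 z) := by
      simpa using hu.sub_const tpi
    have hpt : ∀ᶠ n in (U : Filter κ), h n (u n) = h n (u n - tpi) := by
      filter_upwards [hS.h_mem] with n hn
      have h1 := hM.per _ hn (u n - tpi)
      rwa [sub_add_cancel] at h1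
    obtain ⟨B, hB'⟩ := hBu
    have h2 := hsig z hz i hi' (fun n => u n - tpi) hu' ⟨B, by
      filter_upwards [hpt, hB'] with n h3 h4
      rw [← h3, ← hfp z]
      exact h4⟩
    rw [hloc, hder]
    refine h2.congr' ?_
    filter_upwards [hpt] with n hn
    have h3 : A.loc i (h n) (u n - tpi) = A.loc i (h n) (u n) := by
      change A.ch i (h n (u n - tpi)) = A.ch i (h n (u n))
      rw [hn]
    rw [h3]
  have hdense : Dense {z | NC A f z} := by
    have h1 := (crit_countable hBF.1 hfn).2
    have h2 := h1.dense_compl ℂ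
    refine h2.mono fun z hz => ?_
    simpa using hz
  have hc1 : Continuous fun z => σ (z + tpi) := hσ.continuous.comp (by fun_prop)
  have := Continuous.ext_on hdense hc1 hσ.continuous hkey
  exact fun z => congrFun this z

end sec

end Pool.Agent.CYL

namespace Pool.Agent.CYL
alias sig_per := sig_per_pr
end Pool.Agent.CYL
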