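import Pool.Agent.Lib_helper66.CYL.Base
import Pool.Agent.Lib_helper58.MBS.L.BCMP
import Pool.Agent.Lib_helper58.MBS.L.BMIN
import Pool.Agent.Lib_helper58.MBS.L.BSEQ
import Pool.Agent.Lib_helper58.MBS.L.BLIM
import Pool.Agent.Lib_helper58.MBS.L.BCHT
import Pool.Agent.Lib_helper58.MBS.L.BJET
import Pool.Agent.Lib_helper58.MBS.L.BNC
import Pool.Agent.Lib_helper58.MBS.L.BSMP
import Pool.Agent.Lib_helper58.MBS.L.ALIM
import Pool.Agent.Lib_helper58.MBS.L.AINV
import Pool.Agent.Lib_helper58.MBS.L.CPIM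
import Pool.Agent.Lib_helper58.MBS.L.DLST
import Pool.Agent.Lib_helper58.MBS.L.EUEX
import Pool.Agent.Lib_helper58.MBS.L.ETF
import Pool.Agent.Lib_helper58.MBS.L.FLAT
import Pool.Agent.Lib_helper66.CYL.P.BVIS
import Pool.Agent.Lib_helper66.CYL.P.BBAI
import Pool.Agent.Lib_helper66.CYL.P.BSMC
import Pool.Agent.Lib_helper66.CYL.P.CASM
import Pool.Agent.Lib_helper66.CYL.P.DHH
import Pool.Agent.Lib_helper66.CYL.P.EENT
import Pool.Agent.Lib_helper66.CYL.P.ELIM
import Pool.Agent.Lib_helper66.CYL.P.EPAR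
import Pool.Agent.Lib_helper66.CYL.P.FSTA
import Pool.Agent.Lib_helper66.CYL.P.FCOV

/-! # The cylinder theorem (MP_45e720_ag), block P1: three lines for a periodic entire function -/

set_option autoImplicit false
set_option linter.unusedSectionVars false
set_option linter.unusedVariables false

open Filter Topology Metric Set

namespace Pool.Agent.CYL

open Pool.Agent.BR Pool.Agent.MBS

section pure

variable {V : Type} [NormedAddCommGroup V] [NormedSpace ℂ V]
  {E : Type} [NormedAddCommGroup E] [NormedSpace ℂ E] [FiniteDimensional ℂ E]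

/-- a real number is at distance at most `π` from a multiple of `2 π` -/
theorem p1_round (t : ℝ) : ∃ k : ℤ, |t - k * (2 * Real.pi)| ≤ Real.pi := by
  refine ⟨round (t / (2 * Real.pi)), ?_⟩
  have h1 := abs_sub_round (t / (2 * Real.pi))
  have hpi := Real.pi_pos
  have h2 : t - round (t / (2 * Real.pi)) * (2 * Real.pi) =
      (t / (2 * Real.pi) - round (t / (2 * Real.pi))) * (2 * Real.pi) := by
    field_simp
  rw [h2, abs_mul, abs_of_pos (by positivity : (0 : ℝ) < 2 * Real.pi)]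
  nlinarith

theorem p1_per {σ : ℂ → V} (hper : ∀ z, σ (z + tpi) = σ z) (k : ℤ) (z : ℂ) :
    σ (z + k * tpi) = σ z := by
  have h : Function.Periodic σ tpi := hper
  exact h.int_mul k z

theorem p1_re (k : ℤ) (z : ℂ) : (z + k * tpi).re = z.re := by
  unfold tpi
  simp

theorem p1_im (k : ℤ) (z : ℂ) : (z + k * tpi).im = z.im + k * (2 * Real.pi) := by
  unfold tpi
  simp

theorem three_lines_pr {σ : ℂ → V} (hσ : Differentiable ℂ σ) (hper : ∀ z, σ (z + tpi) = σ z)
    (hne : ∃ z, σ z ≠ 0) :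
    ∃ m : ℝ → ℝ, (∀ s, 0 < m s) ∧ (∀ z : ℂ, ‖σ z‖ ≤ m z.re) ∧
      (∀ s y : ℝ, ∃ z : ℂ, z.re = s ∧ |z.im - y| ≤ Real.pi ∧ ‖σ z‖ = m s) ∧
      ConvexOn ℝ univ fun s => Real.log (m s) := by
  have hc := hσ.continuous
  -- the maximum on a segment
  have hmax : ∀ s : ℝ, ∃ y0 ∈ Icc (-Real.pi) Real.pi, ∀ y ∈ Icc (-Real.pi) Real.pi,
      ‖σ ⟨s, y⟩‖ ≤ ‖σ ⟨s, y0⟩‖ := by
    intro s
    have h1 : ContinuousOn (fun y : ℝ => ‖σ ⟨s, y⟩‖) (Icc (-Real.pi) Real.pi) := by
      refine Continuous.continuousOn ?_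
      refine (hc.comp ?_).norm
      have h2 : Complex.mk s = fun y : ℝ => (s : ℂ) + y * Complex.I := by
        funext y
        apply Complex.ext <;> simp
      rw [h2]
      fun_prop
    obtain ⟨y0, hy0, hy1⟩ := isCompact_Icc.exists_isMaxOn
      (nonempty_Icc.mpr (by have := Real.pi_pos; linarith)) h1
    exact ⟨y0, hy0, fun y hy => hy1 hy⟩
  choose y0 hy0 hy1 using hmax
  have hle : ∀ z : ℂ, ‖σ z‖ ≤ ‖σ ⟨z.re, y0 z.re⟩‖ := by
    intro z
    obtain ⟨k, hk⟩ := p1_round z.im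
    have h1 := p1_per hper (-k) z
    have h2 : z + ((-k : ℤ) : ℂ) * tpi = ⟨z.re, z.im - k * (2 * Real.pi)⟩ := by
      apply Complex.ext
      · exact p1_re (-k) z
      · rw [p1_im]
        push_cast
        ring
    rw [← h1, h2]
    exact hy1 z.re _ (abs_le.mp hk)
  -- the three lines theorem
  have h3 : ∀ (l u : ℝ) (z : ℂ) (a b : ℝ), l < u → l ≤ z.re → z.re ≤ u →
      (∀ w : ℂ, w.re = l → ‖σ w‖ ≤ a) → (∀ w : ℂ, w.re = u → ‖σ w‖ ≤ b) →
      ‖σ z‖ ≤ a ^ (1 - (z.re - l) / (u - l)) * b ^ ((z.re - l) / (u - l)) := by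
    intro l u z a b hlu hz1 hz2 ha hb
    refine Complex.HadamardThreeLines.norm_le_interp_of_mem_verticalClosedStrip' hlu ⟨hz1, hz2⟩
      hσ.diffContOnCl ?_ (fun w hw => ha w hw) (fun w hw => hb w hw)
    -- bounded on the strip
    have h4 : IsCompact (Icc l u ×ˢ Icc (-Real.pi) Real.pi) := isCompact_Icc.prod isCompact_Icc
    have h5 : ContinuousOn (fun p : ℝ × ℝ => ‖σ ⟨p.1, p.2⟩‖)
        (Icc l u ×ˢ Icc (-Real.pi) Real.pi) := by
      refine Continuous.continuousOn ?_
      refine (hc.comp ?_).norm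
      have h2 : (fun p : ℝ × ℝ => (⟨p.1, p.2⟩ : ℂ)) =
          fun p : ℝ × ℝ => (p.1 : ℂ) + p.2 * Complex.I := by
        funext p
        apply Complex.ext <;> simp
      rw [h2]
      fun_prop
    obtain ⟨B, hB⟩ := h4.bddAbove_image h5
    refine ⟨B, ?_⟩
    rintro _ ⟨w, hw, rfl⟩
    refine (hle w).trans (hB ?_)
    exact ⟨(w.re, y0 w.re), ⟨hw, hy0 w.re⟩, rfl⟩
  -- positivity
  have hpos : ∀ s, 0 < ‖σ ⟨s, y0 s⟩‖ := by
    intro s
    rcases (norm_nonneg (σ ⟨s, y0 s⟩)).eq_or_lt with h0 | h0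
    · exfalso
      obtain ⟨z, hz⟩ := hne
      apply hz
      have hs : ∀ w : ℂ, w.re = s → ‖σ w‖ ≤ 0 := by
        intro w hw
        have := hle w
        rwa [hw, ← h0] at this
      rw [← norm_le_zero_iff]
      rcases lt_trichotomy z.re s with h | h | h
      · have h4 := h3 (z.re - 1) s z (‖σ ⟨z.re - 1, y0 (z.re - 1)⟩‖) 0 (by linarith)
          (by linarith) h.le (fun w hw => by have := hle w; rwa [hw] at this) hs
        rw [Real.zero_rpow, mul_zero] at h4
        · exact h4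
        · have h5 : 0 < (z.re - (z.re - 1)) / (s - (z.re - 1)) := by
            apply div_pos <;> linarith
          exact h5.ne'
      · exact hs z h
      · have h4 := h3 s (z.re + 1) z 0 (‖σ ⟨z.re + 1, y0 (z.re + 1)⟩‖) (by linarith)
          h.le (by linarith) hs (fun w hw => by have := hle w; rwa [hw] at this)
        rw [Real.zero_rpow, zero_mul] at h4
        · exact h4
        · have h5 : (z.re - s) / (z.re + 1 - s) < 1 := by
            rw [div_lt_one (by linarith)]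
            linarith
          linarith
    · exact h0
  refine ⟨fun s => ‖σ ⟨s, y0 s⟩‖, hpos, hle, ?_, ?_⟩
  · intro s y
    obtain ⟨k, hk⟩ := p1_round (y - y0 s)
    refine ⟨(⟨s, y0 s⟩ : ℂ) + k * tpi, p1_re k _, ?_, ?_⟩
    · rw [p1_im]
      have h1 : y0 s + k * (2 * Real.pi) - y = -(y - y0 s - k * (2 * Real.pi)) := by ring
      show |y0 s + k * (2 * Real.pi) - y| ≤ Real.pi
      rw [h1, abs_neg]
      exact hk
    · rw [p1_per hper]
  · refine LinearOrder.convexOn_of_lt convex_univ ?_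
    intro x _ y _ hxy a b ha hb hab
    simp only [smul_eq_mul]
    have e1 : a * x + b * y = x + b * (y - x) := by
      rw [show a = 1 - b by linarith]
      ring
    have e2 : a * x + b * y = y - a * (y - x) := by
      rw [show b = 1 - a by linarith]
      ring
    have h4 := h3 x y ⟨a * x + b * y, y0 (a * x + b * y)⟩ (‖σ ⟨x, y0 x⟩‖) (‖σ ⟨y, y0 y⟩‖) hxy
      (by show x ≤ a * x + b * y; rw [e1]; nlinarith [mul_pos hb (sub_pos.mpr hxy)])
      (by show a * x + b * y ≤ y; rw [e2]; nlinarith [mul_pos ha (sub_pos.mpr hxy)])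
      (fun w hw => by have := hle w; rwa [hw] at this)
      (fun w hw => by have := hle w; rwa [hw] at this)
    have h5 : ((a * x + b * y) - x) / (y - x) = b := by
      have h6 : y - x ≠ 0 := by linarith
      rw [div_eq_iff h6]
      have h7 : a = 1 - b := by linarith
      rw [h7]
      ring
    have h6 : 1 - b = a := by linarith
    have h4' : ‖σ ⟨a * x + b * y, y0 (a * x + b * y)⟩‖ ≤
        ‖σ ⟨x, y0 x⟩‖ ^ (1 - ((a * x + b * y) - x) / (y - x)) *
          ‖σ ⟨y, y0 y⟩‖ ^ (((a * x + b * y) - x) / (y - x)) := h4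
    rw [h5, h6] at h4'
    have h7 := Real.log_le_log (hpos _) h4'
    rw [Real.log_mul (Real.rpow_pos_of_pos (hpos x) a).ne' (Real.rpow_pos_of_pos (hpos y) b).ne',
      Real.log_rpow (hpos x), Real.log_rpow (hpos y)] at h7
    exact h7

end pure

end Pool.Agent.CYL

namespace Pool.Agent.CYL
alias three_lines := three_lines_pr
end Pool.Agent.CYL
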