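import Pool.Agent.Lib_helper66.CYL.Base
import Pool.Agent.Lib_helper58.MBS.L.BCMP
import Pool.Agent.Lib_helper58.MBS.L.BMIN
import Pool.Agent.Lib_helper58.MBS.L.BSEQ
import Pool.Agent.Lib_helper58.MBS.L.BLIM
import Pool.Agent.Lib_helper58.MBS.L.BCHT
import Pool.Agent.Lib_helper58.MBS.L.BJET
import Pool.Agent.Lib_helper58.MBS.L.BNC
import Pool.Agent.Lib_helper58.MBS.L.BSMP
import Pool.Agent.Lib_helper58.MBS.L.ALIM
import Pool.Agent.Lib_helper58.MBS.L.AINV
import Pool.Agent.Lib_helper58.MBS.L.CPIM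
import Pool.Agent.Lib_helper58.MBS.L.DLST
import Pool.Agent.Lib_helper58.MBS.L.EUEX
import Pool.Agent.Lib_helper58.MBS.L.ETF
import Pool.Agent.Lib_helper58.MBS.L.FLAT
import Pool.Agent.Lib_helper66.CYL.P.BVIS
import Pool.Agent.Lib_helper66.CYL.P.BBAI
import Pool.Agent.Lib_helper66.CYL.P.BSMC
import Pool.Agent.Lib_helper66.CYL.P.CASM
import Pool.Agent.Lib_helper66.CYL.P.DHH
import Pool.Agent.Lib_helper66.CYL.P.EENT
import Pool.Agent.Lib_helper66.CYL.P.ELIM
import Pool.Agent.Lib_helper66.CYL.P.EPAR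
import Pool.Agent.Lib_helper66.CYL.P.FSTA
import Pool.Agent.Lib_helper66.CYL.P.FCOV

/-! # The cylinder theorem (MP_45e720_ag), block P2: convex functions with bends -/

set_option autoImplicit false

open Filter Topology Metric Set

namespace Pool.Agent.CYL

theorem p2_inc {μ : ℝ → ℝ} (hμ : ConvexOn ℝ univ μ) {u v h : ℝ} (huv : u ≤ v) (hh : 0 < h) :
    μ (u + h) - μ u ≤ μ (v + h) - μ v := by
  have hd : 0 < v - u + h := by linarith
  have ha : 0 ≤ (v - u) / (v - u + h) := div_nonneg (by linarith) hd.le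
  have hb : 0 ≤ h / (v - u + h) := div_nonneg hh.le hd.le
  have hab : (v - u) / (v - u + h) + h / (v - u + h) = 1 := by
    rw [← add_div, div_self hd.ne']
  have h1 := hμ.2 (mem_univ u) (mem_univ (v + h)) ha hb hab
  have h2 := hμ.2 (mem_univ u) (mem_univ (v + h)) hb ha (by rw [add_comm]; exact hab)
  simp only [smul_eq_mul] at h1 h2
  have e1 : (v - u) / (v - u + h) * u + h / (v - u + h) * (v + h) = u + h := by
    field_simp
    ring
  have e2 : h / (v - u + h) * u + (v - u) / (v - u + h) * (v + h) = v := by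
    field_simp
    ring
  rw [e1] at h1
  rw [e2] at h2
  have e3 : ((v - u) / (v - u + h) * μ u + h / (v - u + h) * μ (v + h)) +
      (h / (v - u + h) * μ u + (v - u) / (v - u + h) * μ (v + h)) = μ u + μ (v + h) := by
    have : ((v - u) / (v - u + h) * μ u + h / (v - u + h) * μ (v + h)) +
      (h / (v - u + h) * μ u + (v - u) / (v - u + h) * μ (v + h)) =
      ((v - u) / (v - u + h) + h / (v - u + h)) * (μ u + μ (v + h)) := by ring
    rw [this, hab, one_mul]
  linarith

theorem bend_bdd_pr {μ : ℝ → ℝ} (hμ : ConvexOn ℝ univ μ) {c η : ℝ} (hc : 0 ≤ c) (hη : 0 < η)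
    {S : Set ℝ}
    (h1 : ∀ s ∈ S, ∀ t t' : ℝ, |t| ≤ 9 → |t'| ≤ 9 → |t - t'| ≤ 6 →
      μ (s + t') ≤ c + max (μ (s + t - 2)) (μ (s + t + 2)))
    (h2 : ∀ s ∈ S, η ≤ μ (s + 1) + μ (s - 1) - 2 * μ s) : ∃ B : ℝ, ∀ s ∈ S, |s| ≤ B := by
  have step : ∀ u v : ℝ, u ≤ v → μ (u + 1) - μ u ≤ μ (v + 1) - μ v :=
    fun u v huv => p2_inc hμ huv one_pos
  -- the slope to the right is bounded above
  have hbu : ∀ s ∈ S, μ (s + 1) - μ s ≤ c / 4 := by
    intro s hs
    by_contra hcon
    push Not at hcon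
    have hb : 0 < μ (s + 1) - μ s := lt_of_le_of_lt (by positivity) hcon
    have k1 := step s (s + 1) (by linarith)
    have k2 := step s (s + 2) (by linarith)
    have k3 := step s (s + 3) (by linarith)
    have k4 := step s (s + 4) (by linarith)
    have k5 := step s (s + 5) (by linarith)
    have k6 := step s (s + 6) (by linarith)
    have k7 := step s (s + 7) (by linarith)
    have k8 := step s (s + 8) (by linarith)
    rw [show s + 1 + 1 = s + 2 by ring] at k1
    rw [show s + 2 + 1 = s + 3 by ring] at k2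
    rw [show s + 3 + 1 = s + 4 by ring] at k3
    rw [show s + 4 + 1 = s + 5 by ring] at k4
    rw [show s + 5 + 1 = s + 6 by ring] at k5
    rw [show s + 6 + 1 = s + 7 by ring] at k6
    rw [show s + 7 + 1 = s + 8 by ring] at k7
    rw [show s + 8 + 1 = s + 9 by ring] at k8
    have h3 := h1 s hs 3 9 (by norm_num) (by norm_num) (by norm_num)
    rw [show s + 3 - 2 = s + 1 by ring, show s + 3 + 2 = s + 5 by ring,
      max_eq_right (by linarith)] at h3
    linarith
  -- the slope to the left is bounded below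
  have hal : ∀ s ∈ S, -(c / 4) ≤ μ s - μ (s - 1) := by
    intro s hs
    by_contra hcon
    push Not at hcon
    have hb : μ s - μ (s - 1) < 0 := lt_of_lt_of_le hcon (by linarith)
    have k1 := step (s - 2) (s - 1) (by linarith)
    have k2 := step (s - 3) (s - 1) (by linarith)
    have k3 := step (s - 4) (s - 1) (by linarith)
    have k4 := step (s - 5) (s - 1) (by linarith)
    have k5 := step (s - 6) (s - 1) (by linarith)
    have k6 := step (s - 7) (s - 1) (by linarith)
    have k7 := step (s - 8) (s - 1) (by linarith)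
    have k8 := step (s - 9) (s - 1) (by linarith)
    rw [show s - 2 + 1 = s - 1 by ring, show s - 1 + 1 = s by ring] at k1
    rw [show s - 3 + 1 = s - 2 by ring, show s - 1 + 1 = s by ring] at k2
    rw [show s - 4 + 1 = s - 3 by ring, show s - 1 + 1 = s by ring] at k3
    rw [show s - 5 + 1 = s - 4 by ring, show s - 1 + 1 = s by ring] at k4
    rw [show s - 6 + 1 = s - 5 by ring, show s - 1 + 1 = s by ring] at k5
    rw [show s - 7 + 1 = s - 6 by ring, show s - 1 + 1 = s by ring] at k6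
    rw [show s - 8 + 1 = s - 7 by ring, show s - 1 + 1 = s by ring] at k7
    rw [show s - 9 + 1 = s - 8 by ring, show s - 1 + 1 = s by ring] at k8
    have h3 := h1 s hs (-3) (-9) (by norm_num) (by norm_num) (by norm_num)
    rw [show s + -3 - 2 = s - 5 by ring, show s + -3 + 2 = s - 1 by ring,
      show s + -9 = s - 9 by ring, max_eq_left (by linarith)] at h3
    linarith
  -- bounded above
  have hA : BddAbove S := by
    by_contra hcon
    rw [not_bddAbove_iff] at hcon
    obtain ⟨s0, hs0, -⟩ := hcon 0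
    set T : Set ℝ := (fun s => μ (s + 1) - μ s) '' S with hT
    have hTb : BddAbove T := ⟨c / 4, by rintro _ ⟨s, hs, rfl⟩; exact hbu s hs⟩
    have hTn : T.Nonempty := ⟨_, s0, hs0, rfl⟩
    obtain ⟨_, ⟨s, hs, rfl⟩, hs1⟩ := exists_lt_of_lt_csSup hTn
      (show sSup T - η < sSup T by linarith)
    obtain ⟨s2, hs2, hs3⟩ := hcon (s + 2)
    have k1 := step s (s2 - 1) (by linarith)
    rw [show s2 - 1 + 1 = s2 by ring] at k1
    have k2 := h2 s2 hs2
    have k3 : μ (s2 + 1) - μ s2 ≤ sSup T := le_csSup hTb ⟨s2, hs2, rfl⟩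
    have k4 : sSup T - η < μ (s + 1) - μ s := hs1
    linarith
  have hB : BddBelow S := by
    by_contra hcon
    rw [not_bddBelow_iff] at hcon
    obtain ⟨s0, hs0, -⟩ := hcon 0
    set T : Set ℝ := (fun s => μ s - μ (s - 1)) '' S with hT
    have hTb : BddBelow T := ⟨-(c / 4), by rintro _ ⟨s, hs, rfl⟩; exact hal s hs⟩
    have hTn : T.Nonempty := ⟨_, s0, hs0, rfl⟩
    obtain ⟨_, ⟨s, hs, rfl⟩, hs1⟩ := exists_lt_of_csInf_lt hTn
      (show sInf T < sInf T + η by linarith)
    obtain ⟨s2, hs2, hs3⟩ := hcon (s - 2)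
    have k1 := step s2 (s - 1) (by linarith)
    rw [show s - 1 + 1 = s by ring] at k1
    have k2 := h2 s2 hs2
    have k3 : sInf T ≤ μ s2 - μ (s2 - 1) := csInf_le hTb ⟨s2, hs2, rfl⟩
    have k4 : μ s - μ (s - 1) < sInf T + η := hs1
    linarith
  obtain ⟨a, ha⟩ := hA
  obtain ⟨b, hb⟩ := hB
  refine ⟨max |a| |b|, fun s hs => ?_⟩
  have h3 := ha hs
  have h4 := hb hs
  rw [abs_le]
  constructor
  · have := neg_abs_le b
    have := le_max_right |a| |b|
    linarith
  · have := le_abs_self a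
    have := le_max_left |a| |b|
    linarith

end Pool.Agent.CYL

namespace Pool.Agent.CYL
alias bend_bdd := bend_bdd_pr
end Pool.Agent.CYL
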