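import Pool.Agent.Lib_helper66.CYL.Base
import Pool.Agent.Lib_helper58.MBS.L.BCMP
import Pool.Agent.Lib_helper58.MBS.L.BMIN
import Pool.Agent.Lib_helper58.MBS.L.BSEQ
import Pool.Agent.Lib_helper58.MBS.L.BLIM
import Pool.Agent.Lib_helper58.MBS.L.BCHT
import Pool.Agent.Lib_helper58.MBS.L.BJET
import Pool.Agent.Lib_helper58.MBS.L.BNC
import Pool.Agent.Lib_helper58.MBS.L.BSMP
import Pool.Agent.Lib_helper58.MBS.L.ALIM
import Pool.Agent.Lib_helper58.MBS.L.AINV
import Pool.Agent.Lib_helper58.MBS.L.CPIM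
import Pool.Agent.Lib_helper58.MBS.L.DLST
import Pool.Agent.Lib_helper58.MBS.L.EUEX
import Pool.Agent.Lib_helper58.MBS.L.ETF
import Pool.Agent.Lib_helper58.MBS.L.FLAT
import Pool.Agent.Lib_helper66.CYL.P.BVIS
import Pool.Agent.Lib_helper66.CYL.P.BBAI
import Pool.Agent.Lib_helper66.CYL.P.BSMC
import Pool.Agent.Lib_helper66.CYL.P.CASM
import Pool.Agent.Lib_helper66.CYL.P.DHH
import Pool.Agent.Lib_helper66.CYL.P.EENT
import Pool.Agent.Lib_helper66.CYL.P.ELIM
import Pool.Agent.Lib_helper66.CYL.P.EPAR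
import Pool.Agent.Lib_helper66.CYL.P.FSTA
import Pool.Agent.Lib_helper66.CYL.P.FCOV
import Pool.Agent.Lib_helper66.CYL.N.P1
import Pool.Agent.Lib_helper66.CYL.N.P2

set_option autoImplicit false
set_option linter.unusedSectionVars false
set_option linter.unusedVariables false

open Filter Topology Metric Set

namespace Pool.Agent.CYL

open Pool.Agent.BR Pool.Agent.MBS

section pure

variable {V : Type} [NormedAddCommGroup V] [NormedSpace ℂ V]
  {E : Type} [NormedAddCommGroup E] [NormedSpace ℂ E] [FiniteDimensional ℂ E]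

theorem p3_norm_le (z : ℂ) (a b : ℝ) (h1 : |z.re| ≤ a) (h2 : |z.im| ≤ b) : ‖z‖ ≤ a + b :=
  (Complex.norm_le_abs_re_add_abs_im z).trans (add_le_add h1 h2)

/-- block P3: the active points of a periodic section are in a vertical strip of finite width -/
theorem act_bdd_pr {σ : ℂ → V} (hσ : Differentiable ℂ σ) (hper : ∀ z, σ (z + tpi) = σ z)
    (hne : ∃ z, σ z ≠ 0) {Acts : Set ℂ} {C₁ η : ℝ} (hη : 0 < η)
    (h1 : ∀ a ∈ Acts, ∀ z z' : ℂ, ‖z - a‖ ≤ 13 → ‖z' - a‖ ≤ 13 → ‖z' - z‖ ≤ 10 →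
      ∀ w, ‖w - z'‖ ≤ 1 → ∃ w', ‖w' - z‖ ≤ 2 ∧ ‖σ w‖ ≤ C₁ * ‖σ w'‖)
    (h2 : ∀ a ∈ Acts, ∀ z₁, ‖z₁ - a‖ ≤ 13 → σ z₁ ≠ 0 → ∀ b : ℝ, ∃ z ∈ ball (0 : ℂ) 1,
      (1 + η) * ‖σ z₁‖ ≤ ‖Complex.exp (-(b * z)) • σ (z₁ + z)‖) :
    ∃ B : ℝ, ∀ a ∈ Acts, |a.re| ≤ B := by
  obtain ⟨m, hm0, hm1, hm2, hconv⟩ := three_lines hσ hper hne
  set μ : ℝ → ℝ := fun s => Real.log (m s) with hμ
  have hpi : Real.pi ≤ 3.15 := Real.pi_lt_d2.le
  have hpi0 : 0 < Real.pi := Real.pi_pos
  have hc : 0 ≤ Real.log (max C₁ 1) := Real.log_nonneg (le_max_right _ _)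
  have hη' : 0 < Real.log (1 + η) := Real.log_pos (by linarith)
  suffices h : ∃ B : ℝ, ∀ s ∈ Complex.re '' Acts, |s| ≤ B by
    obtain ⟨B, hB⟩ := h
    exact ⟨B, fun a ha => hB _ ⟨a, ha, rfl⟩⟩
  refine bend_bdd (μ := μ) hconv hc hη' ?_ ?_
  · rintro s ⟨a, ha, rfl⟩ t t' ht ht' htt
    obtain ⟨z', hz1, hz2, hz3⟩ := hm2 (a.re + t') a.im
    set z : ℂ := ⟨a.re + t, a.im⟩ with hz
    have d1 : ‖z - a‖ ≤ 13 := by
      refine (p3_norm_le _ 9 0 ?_ ?_).trans (by norm_num)
      · simpa [hz] using ht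
      · simp [hz]
    have d2 : ‖z' - a‖ ≤ 13 := by
      refine (p3_norm_le _ 9 3.15 ?_ ?_).trans (by norm_num)
      · rw [Complex.sub_re, hz1]; simpa using ht'
      · rw [Complex.sub_im]; exact hz2.trans hpi
    have d3 : ‖z' - z‖ ≤ 10 := by
      refine (p3_norm_le _ 6 3.15 ?_ ?_).trans (by norm_num)
      · rw [Complex.sub_re, hz1]
        have : a.re + t' - z.re = t' - t := by simp [hz]
        rw [this, abs_sub_comm]; exact htt
      · rw [Complex.sub_im]; exact hz2.trans hpi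
    obtain ⟨w', hw1, hw2⟩ := h1 a ha z z' d1 d2 d3 z' (by simp)
    have hre : |w'.re - z.re| ≤ 2 := by
      have := Complex.abs_re_le_norm (w' - z)
      rw [Complex.sub_re] at this
      exact this.trans hw1
    have hzre : z.re = a.re + t := rfl
    rw [hzre] at hre
    obtain ⟨hlo, hhi⟩ := abs_le.1 hre
    have hmax : μ w'.re ≤ max (μ (a.re + t - 2)) (μ (a.re + t + 2)) :=
      hconv.le_max_of_mem_Icc (mem_univ _) (mem_univ _) ⟨by linarith, by linarith⟩
    have h3 : m (a.re + t') ≤ max C₁ 1 * m w'.re := by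
      rw [← hz3]
      refine hw2.trans ?_
      refine (mul_le_mul_of_nonneg_right (le_max_left C₁ 1) (norm_nonneg _)).trans ?_
      exact mul_le_mul_of_nonneg_left (hm1 w') (le_trans zero_le_one (le_max_right _ _))
    have h4 : μ (a.re + t') ≤ Real.log (max C₁ 1) + μ w'.re := by
      have hpos : 0 < max C₁ 1 := lt_of_lt_of_le zero_lt_one (le_max_right _ _)
      simp only [hμ]
      rw [← Real.log_mul hpos.ne' (hm0 _).ne']
      exact Real.log_le_log (hm0 _) h3
    linarith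
  · rintro s ⟨a, ha, rfl⟩
    obtain ⟨z₁, hz1, hz2, hz3⟩ := hm2 a.re a.im
    have d1 : ‖z₁ - a‖ ≤ 13 := by
      refine (p3_norm_le _ 0 3.15 ?_ ?_).trans (by norm_num)
      · rw [Complex.sub_re, hz1]; simp
      · rw [Complex.sub_im]; exact hz2.trans hpi
    have hne1 : σ z₁ ≠ 0 := by
      intro h
      rw [h, norm_zero] at hz3
      exact absurd hz3 (hm0 _).ne
    obtain ⟨z, hz, hle⟩ := h2 a ha z₁ d1 hne1 (μ (a.re + 1) - μ a.re)
    set b : ℝ := μ (a.re + 1) - μ a.re with hb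
    set x : ℝ := z.re with hx
    have hx1 : |x| < 1 := by
      have h3 : ‖z‖ < 1 := by simpa using hz
      exact lt_of_le_of_lt (Complex.abs_re_le_norm z) h3
    rw [norm_smul, Complex.norm_exp, hz3] at hle
    have hre : (-((b : ℂ) * z)).re = -(b * x) := by
      rw [Complex.neg_re, Complex.re_ofReal_mul]
    rw [hre] at hle
    have hs : ‖σ (z₁ + z)‖ ≤ m (a.re + x) := by
      have := hm1 (z₁ + z)
      rw [Complex.add_re, hz1] at this
      exact this
    have h5 : (1 + η) * m a.re ≤ Real.exp (-(b * x)) * m (a.re + x) :=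
      hle.trans (mul_le_mul_of_nonneg_left hs (Real.exp_pos _).le)
    have h6 : Real.log (1 + η) + μ a.re ≤ -(b * x) + μ (a.re + x) := by
      have h7 := Real.log_le_log (mul_pos (by linarith) (hm0 _)) h5
      rw [Real.log_mul (by linarith) (hm0 _).ne', Real.log_mul (Real.exp_pos _).ne' (hm0 _).ne',
        Real.log_exp] at h7
      exact h7
    obtain ⟨hxl, hxr⟩ := abs_lt.1 hx1
    rcases le_or_gt 0 x with hx0 | hx0
    · exfalso
      have h8 := hconv.2 (mem_univ a.re) (mem_univ (a.re + 1)) (by linarith : (0 : ℝ) ≤ 1 - x) hx0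
        (by ring)
      simp only [smul_eq_mul] at h8
      have e1 : (1 - x) * a.re + x * (a.re + 1) = a.re + x := by ring
      rw [e1] at h8
      have h9 : μ (a.re + x) ≤ (1 - x) * μ a.re + x * μ (a.re + 1) := h8
      have : -(b * x) + μ (a.re + x) ≤ μ a.re := by
        rw [hb]; nlinarith
      linarith
    · have h8 := hconv.2 (mem_univ a.re) (mem_univ (a.re - 1)) (by linarith : (0 : ℝ) ≤ 1 + x)
        (by linarith : (0 : ℝ) ≤ -x) (by ring)
      simp only [smul_eq_mul] at h8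
      have e1 : (1 + x) * a.re + -x * (a.re - 1) = a.re + x := by ring
      rw [e1] at h8
      have h9 : μ (a.re + x) ≤ (1 + x) * μ a.re + -x * μ (a.re - 1) := h8
      have h10 : Real.log (1 + η) ≤ -x * (μ (a.re + 1) + μ (a.re - 1) - 2 * μ a.re) := by
        rw [hb] at h6; nlinarith
      have hbend : 0 < μ (a.re + 1) + μ (a.re - 1) - 2 * μ a.re := by
        by_contra hcon
        push Not at hcon
        have : -x * (μ (a.re + 1) + μ (a.re - 1) - 2 * μ a.re) ≤ 0 :=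
          mul_nonpos_of_nonneg_of_nonpos (by linarith) hcon
        linarith
      refine h10.trans ?_
      have : -x * (μ (a.re + 1) + μ (a.re - 1) - 2 * μ a.re) ≤
          1 * (μ (a.re + 1) + μ (a.re - 1) - 2 * μ a.re) :=
        mul_le_mul_of_nonneg_right (by linarith) hbend.le
      linarith

end pure

end Pool.Agent.CYL

namespace Pool.Agent.CYL
alias act_bdd := act_bdd_pr
end Pool.Agent.CYL
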