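import Pool.Agent.Lib_helper66.CYL.Base
import Pool.Agent.Lib_helper58.MBS.L.BCMP
import Pool.Agent.Lib_helper58.MBS.L.BMIN
import Pool.Agent.Lib_helper58.MBS.L.BSEQ
import Pool.Agent.Lib_helper58.MBS.L.BLIM
import Pool.Agent.Lib_helper58.MBS.L.BCHT
import Pool.Agent.Lib_helper58.MBS.L.BJET
import Pool.Agent.Lib_helper58.MBS.L.BNC
import Pool.Agent.Lib_helper58.MBS.L.BSMP
import Pool.Agent.Lib_helper58.MBS.L.ALIM
import Pool.Agent.Lib_helper58.MBS.L.AINV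
import Pool.Agent.Lib_helper58.MBS.L.CPIM
import Pool.Agent.Lib_helper58.MBS.L.DLST
import Pool.Agent.Lib_helper58.MBS.L.EUEX
import Pool.Agent.Lib_helper58.MBS.L.ETF
import Pool.Agent.Lib_helper58.MBS.L.FLAT
import Pool.Agent.Lib_helper66.CYL.P.BVIS
import Pool.Agent.Lib_helper66.CYL.P.BBAI
import Pool.Agent.Lib_helper66.CYL.P.BSMC
import Pool.Agent.Lib_helper66.CYL.P.CASM
import Pool.Agent.Lib_helper66.CYL.P.DHH
import Pool.Agent.Lib_helper66.CYL.P.EENT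
import Pool.Agent.Lib_helper66.CYL.P.ELIM
import Pool.Agent.Lib_helper66.CYL.P.EPAR
import Pool.Agent.Lib_helper66.CYL.P.FSTA
import Pool.Agent.Lib_helper66.CYL.P.FCOV
import Pool.Agent.Lib_helper66.CYL.N.B4
import Pool.Agent.Lib_helper66.CYL.P.ENZE
import Pool.Agent.Lib_helper66.CYL.N.E3
import Pool.Agent.Lib_helper66.CYL.N.E4
import Pool.Agent.Lib_helper66.CYL.P.EGRO
import Pool.Agent.Lib_helper66.CYL.N.P3

/-! # The cylinder theorem (MP_45e720_ag): block E6 -/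

set_option autoImplicit false
set_option linter.unusedSectionVars false
set_option linter.unusedVariables false

open Filter Topology Metric Set

namespace Pool.Agent.CYL

open Pool.Agent.BR Pool.Agent.MBS

section sec

variable {E X : Type} [NormedAddCommGroup E] [NormedSpace ℂ E] [FiniteDimensional ℂ E]
  [MetricSpace X] [CompactSpace X] {A : Cha E X} {C lam L : ℝ} {M : Set (ℂ → X)} {k N : ℕ}

/-- the translates of `f` near an active point are in `KA` -/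
theorem e6_ka (hM : QM A C M) {η ρ : ℝ} {f : ℂ → X} (hf : f ∈ M) {a z : ℂ} (ha : Act η f a)
    (hz : ‖z - a‖ ≤ ρ) : tr z f ∈ KA M η ρ := by
  refine ⟨hM.inv f hf z, a - z, by rwa [norm_sub_rev], ?_⟩
  obtain ⟨w, hw, hd⟩ := ha
  refine ⟨w - z, by rwa [show w - z - (a - z) = w - a by ring], ?_⟩
  show η ≤ dist (f (w - z + z)) (f (a - z + z))
  rwa [sub_add_cancel, sub_add_cancel]

/-- block E6: the members near a stable member have the same image germ, or the stable member is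
calm outside a strip -/
theorem claim_or_calm_pr (hE : Module.finrank ℂ E = 2) (hB : BLip A lam L) (hM : QM A C M)
    {k' : ℕ} (hR : RegN A k' M) (F : A.Frm N k) (hk : 0 < k) {η : ℝ} (hη : 0 < η)
    (hex : ∃ g ∈ M, ∃ w, ‖w‖ ≤ 1 ∧ η < dist (g w) (g 0)) :
    ∃ f ∈ M, Act η f 0 ∧
      ((∃ θ ε, SmpK M (KA M η 13) θ ε ∧ ∃ V ∈ 𝓝[M] f, ∀ h ∈ V, Mle θ ε f h 0 0) ∨
        ∃ S : ℝ, ∀ z : ℂ, S ≤ |z.re| → Calm η f z) := by
  -- the stable member
  have hO : IsOpen {g : ℂ → X | ∃ w : ℂ, ‖w‖ ≤ 1 ∧ η < dist (g w) (g 0)} := by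
    have h1 : {g : ℂ → X | ∃ w : ℂ, ‖w‖ ≤ 1 ∧ η < dist (g w) (g 0)} =
        ⋃ w ∈ {w : ℂ | ‖w‖ ≤ 1}, {g : ℂ → X | η < dist (g w) (g 0)} := by
      ext g
      simp only [mem_ofPred_eq, mem_iUnion, exists_prop]
    rw [h1]
    refine isOpen_biUnion fun w _ => ?_
    exact isOpen_lt continuous_const ((continuous_apply w).dist (continuous_apply 0))
  obtain ⟨f, hf, hfO, hst⟩ := exists_stable hM hO (by
    obtain ⟨g, hg, hw⟩ := hex
    exact ⟨g, hg, hw⟩)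
  have hact : Act η f 0 := by
    obtain ⟨w, hw, hd⟩ := hfO
    exact ⟨w, by simpa using hw, hd.le⟩
  refine ⟨f, hf, hact, ?_⟩
  have hKc : IsCompact (KA M η 13) := ka_compact hM.closed hM.sub η 13
  have hKM : KA M η 13 ⊆ M := fun g hg => hg.1
  have hKn : ∀ g ∈ KA M η 13, NCst g := fun g hg => ka_ncst hη hg
  have hfK : f ∈ KA M η 13 := ⟨hf, 0, by simp, hact⟩
  have hfn : NCst f := hKn f hfK
  obtain ⟨θ, ε, hSm⟩ := exists_smp hB hM hKc hKM hKn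
  obtain ⟨C₀, R, δ, hC₀, hR0, hδ, hH⟩ := exists_HHK hE hB hM hR hKc hKM hKn hSm 10
  by_cases hcl : ∃ V ∈ 𝓝[M] f, ∀ h ∈ V, Mle θ ε f h 0 0
  · exact Or.inl ⟨θ, ε, hSm, hcl⟩
  right
  push Not at hcl
  have hfr : ∃ᶠ h in 𝓝[M] f, ¬ Mle θ ε f h 0 0 := by
    intro hev
    obtain ⟨h, hh, hh'⟩ := hcl _ hev
    exact hh' (not_not.1 hh)
  obtain ⟨G, hG⟩ : ∃ G, G = 𝓝[M] f ⊓ 𝓟 {h | ¬ Mle θ ε f h 0 0} := ⟨_, rfl⟩
  have hGne : G.NeBot := by rw [hG]; exact frequently_iff_neBot.1 hfr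
  obtain ⟨U, hU⟩ : ∃ U : Ultrafilter (ℂ → X), (U : Filter (ℂ → X)) ≤ G :=
    ⟨Ultrafilter.of G, Ultrafilter.of_le G⟩
  have hU1 : (U : Filter (ℂ → X)) ≤ 𝓝[M] f := hU.trans (by rw [hG]; exact inf_le_left)
  have hU2 : ∀ᶠ h in (U : Filter (ℂ → X)), ¬ Mle θ ε f h 0 0 := by
    have h1 : (U : Filter (ℂ → X)) ≤ 𝓟 {h | ¬ Mle θ ε f h 0 0} :=
      hU.trans (by rw [hG]; exact inf_le_right)
    exact h1 (mem_principal_self _)
  have hUM : ∀ᶠ h in (U : Filter (ℂ → X)), h ∈ M := hU1 self_mem_nhdsWithin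
  have hUlim : Tendsto (fun h : ℂ → X => h) (U : Filter (ℂ → X)) (𝓝 f) :=
    hU1.trans nhdsWithin_le_nhds
  -- the least displacement
  have hK : ∀ h : ℂ → X, ∃ (K : ℝ) (ζ : ℂ), 0 ≤ K ∧ (h ∈ M → Mle θ ε f h 0 K ∧
      (K = 0 ∨ ‖ζ‖ ≤ 2 ∧ Smp θ ε f ζ ∧ ∀ u, ‖u - ζ‖ ≤ ε → K ≤ dist (f ζ) (h u))) := by
    intro h
    by_cases hh : h ∈ M
    · obtain ⟨K, hK0, hK1, hK2⟩ := mle_least (θ := θ) hSm.ε_pos (hM.sub hf) (hM.sub hh)
      rcases hK2 with hK2 | ⟨ζ, hζ⟩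
      · exact ⟨K, 0, hK0, fun _ => ⟨hK1, Or.inl hK2⟩⟩
      · exact ⟨K, ζ, hK0, fun _ => ⟨hK1, Or.inr hζ⟩⟩
    · exact ⟨0, 0, le_rfl, fun h1 => absurd h1 hh⟩
  choose m ζ hm hmζ using hK
  have hmne : ∀ᶠ h in (U : Filter (ℂ → X)), m h ≠ 0 := by
    filter_upwards [hUM, hU2] with h h1 h2 h3
    exact h2 (by have := (hmζ h h1).1; rwa [h3] at this)
  have hmle : ∀ᶠ h in (U : Filter (ℂ → X)), Mle θ ε f h 0 (m h) := by
    filter_upwards [hUM] with h h1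
    exact (hmζ h h1).1
  have hζ : ∀ᶠ h in (U : Filter (ℂ → X)), ‖ζ h‖ ≤ 2 ∧ Smp θ ε f (ζ h) ∧
      ∀ u, ‖u - ζ h‖ ≤ ε → m h ≤ dist (f (ζ h)) (h u) := by
    filter_upwards [hUM, hmne] with h h1 h2
    exact (hmζ h h1).2.resolve_left h2
  have hlim0 : Tendsto m (U : Filter (ℂ → X)) (𝓝 0) := by
    rw [Metric.tendsto_nhds]
    intro e he
    have h3 := bf_unif (F := (U : Filter (ℂ → X))) (g := fun h => h) (C := C) (A := A)
      (hUM.mono fun h hh => hM.sub hh) (hM.sub hf) hUlim 2 e he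
    filter_upwards [h3, hζ] with h h4 h5
    rw [Real.dist_eq, sub_zero, abs_of_nonneg (hm h)]
    refine (h5.2.2 (ζ h) (by simpa using hSm.ε_pos.le)).trans_lt ?_
    rw [dist_comm]
    exact h4 (ζ h) h5.1
  have hNN : ∀ z, NC A f z → NN (U : Filter (ℂ → X)) (fun _ => f) (fun h => h) m z := by
    intro z hz
    obtain ⟨z₁, -, hz₁, h3⟩ := nn_of_mle (F := (U : Filter (ℂ → X))) (g := fun _ => f)
      (h := fun h => h) (m := m) hSm hM hf hfK (Eventually.of_forall fun _ => hf) hUM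
      tendsto_const_nhds hUlim hm hlim0 hmle
    exact prop hE hB hM hR hf hfn (Eventually.of_forall fun _ => hf) hUM tendsto_const_nhds
      hUlim hm (smp_nc hB hSm.θ_pos hSm.ε_pos (hM.sub hf).1 hz₁) hz h3
  have hS : Sit A M U f (fun h => h) m :=
    { f_mem := hf
      h_mem := hUM
      lim := hUlim
      m_nonneg := hm
      m_pos := hmne.mono fun h hh => lt_of_le_of_ne (hm h) (Ne.symm hh)
      m_lim := hlim0
      nn := hNN }
  -- the section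
  obtain ⟨σ, hσ, hsig, hpar⟩ := sig_entire hE hB hM F hS hfn hst
  have hper := sig_per hB hM F hS hfn hσ hsig
  have hne : ∃ z, σ z ≠ 0 := by
    obtain ⟨c, hc, hlow⟩ := sig_low hE hB hM F hSm.θ_pos hSm.ε_pos
    obtain ⟨z, -, hz, hv⟩ := hlow _ U f (fun h => h) m hS 1 one_pos 0 ζ (by
      filter_upwards [hζ] with h h5
      refine ⟨by simpa using h5.1, h5.2.1, fun u hu => ?_⟩
      rw [one_mul]
      exact h5.2.2 u hu)
    refine ⟨z, fun h0 => ?_⟩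
    have h1 := hv (σ z) (hsig z (smp_nc hB hSm.θ_pos hSm.ε_pos (hM.sub hf).1 hz))
    rw [h0, norm_zero, one_pow, mul_one] at h1
    linarith
  obtain ⟨C₁, hC₁, hhar⟩ := sec_harnack hE hB hM F hk hKM hSm hC₀ hδ hH
  obtain ⟨η', hη', hflat⟩ := no_flat hE hKc (hKM.trans hM.sub) hKn F
  obtain ⟨B, hBd⟩ := act_bdd hσ hper hne (Acts := {a | Act η f a}) (C₁ := C₁) hη'
    (fun a ha z z' hz hz' hzz => hhar _ U f (fun h => h) m hS σ hσ hsig z z'
      (e6_ka hM hf ha hz) (e6_ka hM hf ha hz') hzz)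
    (fun a ha z₁ hz₁ hσz b => by
      have hn : ‖σ z₁‖ ≠ 0 := norm_ne_zero_iff.2 hσz
      have hnp : 0 < ‖σ z₁‖ := norm_pos_iff.2 hσz
      obtain ⟨z, hz, h1⟩ := hflat (tr z₁ f) (e6_ka hM hf ha hz₁)
        (fun z => ((‖σ z₁‖ : ℂ)⁻¹ * Complex.exp (-(b * z))) • σ (z₁ + z))
        (fun z _ => by
          have h2 : AnalyticAt ℂ (fun z => σ (z₁ + z)) z := by
            have h3 : AnalyticAt ℂ σ (z₁ + z) := hσ.analyticAt _
            exact h3.comp (f := fun z => z₁ + z) (by fun_prop)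
          have h4 : AnalyticAt ℂ (fun z : ℂ => (‖σ z₁‖ : ℂ)⁻¹ * Complex.exp (-(b * z))) z := by
            fun_prop
          exact h4.smul h2)
        (by
          simp only [mul_zero, neg_zero, Complex.exp_zero, mul_one, add_zero]
          rw [norm_smul, norm_inv, Complex.norm_real, norm_norm, inv_mul_cancel₀ hn])
        (fun e₁ e₂ he z _ i hi => by
          obtain ⟨c, hc⟩ := hpar e₁ e₂ he (z + z₁) i hi
          refine ⟨((‖σ z₁‖ : ℂ)⁻¹ * Complex.exp (-(b * z))) * c, ?_⟩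
          show ((‖σ z₁‖ : ℂ)⁻¹ * Complex.exp (-(b * z))) • σ (z₁ + z) = _
          rw [add_comm z₁ z, hc, smul_smul]
          rfl)
      refine ⟨z, hz, ?_⟩
      have h5 : ‖((‖σ z₁‖ : ℂ)⁻¹ * Complex.exp (-(b * z))) • σ (z₁ + z)‖ =
          ‖σ z₁‖⁻¹ * ‖Complex.exp (-(b * z)) • σ (z₁ + z)‖ := by
        rw [mul_smul, norm_smul, norm_inv, Complex.norm_real, norm_norm]
      have h6 : 1 + η' ≤ ‖σ z₁‖⁻¹ * ‖Complex.exp (-(b * z)) • σ (z₁ + z)‖ := by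
        rw [← h5]
        exact h1
      rw [inv_mul_eq_div, le_div_iff₀ hnp] at h6
      exact h6)
  refine ⟨B + 1, fun z hz => ?_⟩
  by_contra hcalm
  have h1 := hBd z (act_of_not_calm hcalm)
  linarith

end sec

end Pool.Agent.CYL

namespace Pool.Agent.CYL
alias claim_or_calm := claim_or_calm_pr
end Pool.Agent.CYL
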