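import Pool.Agent.Lib_helper66.CYL.Base
import Pool.Agent.Lib_helper58.MBS.L.BCMP
import Pool.Agent.Lib_helper58.MBS.L.BMIN
import Pool.Agent.Lib_helper58.MBS.L.BSEQ
import Pool.Agent.Lib_helper58.MBS.L.BLIM
import Pool.Agent.Lib_helper58.MBS.L.BCHT
import Pool.Agent.Lib_helper58.MBS.L.BJET
import Pool.Agent.Lib_helper58.MBS.L.BNC
import Pool.Agent.Lib_helper58.MBS.L.BSMP
import Pool.Agent.Lib_helper58.MBS.L.ALIM
import Pool.Agent.Lib_helper58.MBS.L.AINV
import Pool.Agent.Lib_helper58.MBS.L.CPIM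
import Pool.Agent.Lib_helper58.MBS.L.DLST
import Pool.Agent.Lib_helper58.MBS.L.EUEX
import Pool.Agent.Lib_helper58.MBS.L.ETF
import Pool.Agent.Lib_helper58.MBS.L.FLAT
import Pool.Agent.Lib_helper66.CYL.P.BVIS
import Pool.Agent.Lib_helper66.CYL.P.BBAI
import Pool.Agent.Lib_helper66.CYL.P.BSMC
import Pool.Agent.Lib_helper66.CYL.P.CASM
import Pool.Agent.Lib_helper66.CYL.P.DHH
import Pool.Agent.Lib_helper66.CYL.P.EENT
import Pool.Agent.Lib_helper66.CYL.P.ELIM
import Pool.Agent.Lib_helper66.CYL.P.EPAR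
import Pool.Agent.Lib_helper66.CYL.P.FSTA
import Pool.Agent.Lib_helper66.CYL.P.FCOV

/-! # CYL block F5: the families `Fam`; reversal of time -/

set_option autoImplicit false
set_option linter.unusedSectionVars false
set_option linter.unusedVariables false

open Filter Topology Metric Set

namespace Pool.Agent.CYL

open Pool.Agent.BR Pool.Agent.MBS

section fin

variable {E X : Type} [NormedAddCommGroup E] [NormedSpace ℂ E] [FiniteDimensional ℂ E]
  [MetricSpace X] [CompactSpace X] {A : Cha E X} {C lam L : ℝ} {M : Set (ℂ → X)} {k : ℕ}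

theorem fam_of_qm_pr (hE : Module.finrank ℂ E = 2) (hB : BLip A lam L) (hM : QM A C M)
    (hR : RegN A k M) {θ ε : ℝ} {K : Set (ℂ → X)} (hSm : SmpK M K θ ε) {f₀ : ℂ → X}
    (hf₀ : f₀ ∈ M) (hf₀K : f₀ ∈ K) {V₀ : Set (ℂ → X)} (hV₀ : V₀ ∈ 𝓝[M] f₀)
    (h0 : ∀ h ∈ V₀, Mle θ ε f₀ h 0 0) {g : ℂ → X} (hg : g ∈ M) (hgn : NCst g) : Fam A C M g where
  sub := hM.sub
  closed := hM.closed
  inv := hM.inv
  per := hM.per
  cov := fun K' hK'M hK' hK'n => cover_compact hM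
    (fun f hf hfn => star hE hB hM hR hSm hf₀ hf₀K hV₀ h0 hf hfn) hK' hK'M hK'n hg hgn
  zz := fun f hf hfn z hz => zz hE hB hM hR hSm hf₀ hf₀K hV₀ h0 hf hfn
    (F := 𝓝[M] f) (g := fun h => h) (h := fun _ => f) eventually_mem_nhdsWithin
    (Eventually.of_forall fun _ => hf) (tendsto_id.mono_left nhdsWithin_le_nhds)
    tendsto_const_nhds hz

/-! ### reversal -/

theorem f5_ng_ng (g : ℂ → X) : ng (ng g) = g := by
  funext z
  show g (- -z) = g z
  rw [neg_neg]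

theorem f5_ng_cont : Continuous (ng : (ℂ → X) → ℂ → X) :=
  continuous_pi fun z => continuous_apply (-z)

theorem f5_ncst {g : ℂ → X} (h : NCst g) : NCst (ng g) := by
  obtain ⟨z, z', h⟩ := h
  refine ⟨-z, -z', ?_⟩
  show g (- -z) ≠ g (- -z')
  rwa [neg_neg, neg_neg]

theorem f5_per {g : ℂ → X} (h : Per g) : Per (ng g) := by
  intro z
  show g (-(z + tpi)) = g (-z)
  have h1 := h (-(z + tpi))
  rw [← h1]
  congr 1
  ring

theorem f5_tr (w : ℂ) (g : ℂ → X) : tr w (ng g) = ng (tr (-w) g) := by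
  funext z
  show g (-(z + w)) = g (-z + -w)
  congr 1
  ring

theorem f5_loc (i : A.ι) (g : ℂ → X) : A.loc i (ng g) = fun w => A.loc i g (-w) := rfl

theorem f5_hol {g : ℂ → X} (z : ℂ) (h : A.HolAt g (-z)) : A.HolAt (ng g) z := by
  refine ⟨?_, fun i hi => ?_⟩
  · have h1 : ContinuousAt g (-z) := h.1
    exact ContinuousAt.comp (g := g) (f := fun w => -w) h1 continuous_neg.continuousAt
  · have h1 : AnalyticAt ℂ (A.loc i g) (-z) := h.2 i hi
    rw [f5_loc]
    exact AnalyticAt.comp (g := A.loc i g) (f := fun w => -w) h1 analyticAt_id.neg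

theorem f5_deriv (i : A.ι) (g : ℂ → X) (z : ℂ) :
    deriv (A.loc i (ng g)) z = -deriv (A.loc i g) (-z) := by
  rw [f5_loc]
  exact deriv_comp_neg (A.loc i g) z

theorem f5_bf {g : ℂ → X} (h : g ∈ BF A C) : ng g ∈ BF A C := by
  refine ⟨fun z => f5_hol z (h.1 (-z)), fun z i hi => ?_⟩
  rw [f5_deriv, norm_neg]
  exact h.2 (-z) i hi

theorem f5_nc {f : ℂ → X} {z : ℂ} (h : NC A f z) : NC A (ng f) (-z) := by
  intro i hi
  have h1 : f (- -z) ∈ (A.ch i).source := hi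
  rw [neg_neg] at h1
  rw [f5_deriv, neg_neg]
  exact neg_ne_zero.2 (h i h1)

theorem fam_ng_pr {g : ℂ → X} (hF : Fam A C M g) : Fam A C (NgS M) (ng g) where
  sub := fun f hf => by
    have h1 := f5_bf (hF.sub hf)
    rwa [f5_ng_ng] at h1
  closed := hF.closed.preimage f5_ng_cont
  inv := fun f hf w => by
    show ng (tr w f) ∈ M
    have h1 := hF.inv _ hf (-w)
    rwa [f5_tr, neg_neg] at h1
  per := fun f hf => by
    have h1 := f5_per (hF.per _ hf)
    rwa [f5_ng_ng] at h1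
  cov := fun K hKM hK hKn => by
    obtain ⟨R, hR⟩ := hF.cov (ng '' K) (by
        rintro _ ⟨h, hh, rfl⟩
        exact hKM hh) (hK.image f5_ng_cont) (by
        rintro _ ⟨h, hh, rfl⟩
        exact f5_ncst (hKn h hh))
    refine ⟨R, fun h hh => ?_⟩
    obtain ⟨u, hu, h1⟩ := hR _ ⟨h, hh, rfl⟩
    refine ⟨-u, by rwa [norm_neg], ?_⟩
    have h2 : h (-0) = g u := h1
    rw [neg_zero] at h2
    show h 0 = g (- -u)
    rw [neg_neg, h2]
  zz := fun f hf hfn z hz => by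
    obtain ⟨ρ, hρ, B, hB⟩ := hF.zz (ng f) hf (f5_ncst hfn) (-z) (f5_nc hz)
    have ht : Tendsto (ng : (ℂ → X) → ℂ → X) (𝓝[NgS M] f) (𝓝[M] (ng f)) :=
      tendsto_nhdsWithin_of_tendsto_nhds_of_eventually_within _
        (f5_ng_cont.continuousAt.tendsto.mono_left nhdsWithin_le_nhds)
        (eventually_mem_nhdsWithin.mono fun h hh => hh)
    refine ⟨ρ, hρ, B, fun ε hε => ?_⟩
    filter_upwards [ht.eventually (hB ε hε)] with h hh ζ hζ
    obtain ⟨u, hu, h1⟩ := hh (-ζ) (by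
      rw [mem_ball, dist_eq_norm] at hζ ⊢
      rwa [show -ζ - -z = -(ζ - z) by ring, norm_neg])
    refine ⟨-u, ?_, ?_⟩
    · rwa [show -u - ζ = -(u - -ζ) by ring, norm_neg]
    · have h2 : dist (h (- -ζ)) (f (-u)) ≤ B * 0 := h1
      rwa [neg_neg] at h2

end fin

end Pool.Agent.CYL

namespace Pool.Agent.CYL
alias fam_of_qm := fam_of_qm_pr
alias fam_ng := fam_ng_pr
end Pool.Agent.CYL
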