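import Pool.Agent.Lib_helper66.CYL.Base
import Pool.Agent.Lib_helper58.MBS.L.BCMP
import Pool.Agent.Lib_helper58.MBS.L.BMIN
import Pool.Agent.Lib_helper58.MBS.L.BSEQ
import Pool.Agent.Lib_helper58.MBS.L.BLIM
import Pool.Agent.Lib_helper58.MBS.L.BCHT
import Pool.Agent.Lib_helper58.MBS.L.BJET
import Pool.Agent.Lib_helper58.MBS.L.BNC
import Pool.Agent.Lib_helper58.MBS.L.BSMP
import Pool.Agent.Lib_helper58.MBS.L.ALIM
import Pool.Agent.Lib_helper58.MBS.L.AINV
import Pool.Agent.Lib_helper58.MBS.L.CPIM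
import Pool.Agent.Lib_helper58.MBS.L.DLST
import Pool.Agent.Lib_helper58.MBS.L.EUEX
import Pool.Agent.Lib_helper58.MBS.L.ETF
import Pool.Agent.Lib_helper58.MBS.L.FLAT
import Pool.Agent.Lib_helper66.CYL.P.BVIS
import Pool.Agent.Lib_helper66.CYL.P.BBAI
import Pool.Agent.Lib_helper66.CYL.P.BSMC
import Pool.Agent.Lib_helper66.CYL.P.CASM
import Pool.Agent.Lib_helper66.CYL.P.DHH
import Pool.Agent.Lib_helper66.CYL.P.EENT
import Pool.Agent.Lib_helper66.CYL.P.ELIM
import Pool.Agent.Lib_helper66.CYL.P.EPAR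
import Pool.Agent.Lib_helper66.CYL.P.FSTA
import Pool.Agent.Lib_helper66.CYL.P.FCOV

/-! # The cylinder theorem (MP_45e720_ag): block B3 -/

set_option autoImplicit false
set_option linter.unusedSectionVars false
set_option linter.unusedVariables false

open Filter Topology Metric Set

namespace Pool.Agent.CYL

open Pool.Agent.BR Pool.Agent.MBS

section fam

variable {E X : Type} [NormedAddCommGroup E] [NormedSpace ℂ E] [FiniteDimensional ℂ E]
  [MetricSpace X] [CompactSpace X] {A : Cha E X} {C lam L : ℝ} {M : Set (ℂ → X)}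

/-- `C / 2 ^ k` tends to zero -/
theorem b3_tend (C₀ : ℝ) : Tendsto (fun k : ℕ => C₀ / 2 ^ k) atTop (𝓝 0) := by
  have h := (tendsto_pow_atTop_nhds_zero_of_lt_one (r := (1 / 2 : ℝ)) (by norm_num)
    (by norm_num)).const_mul C₀
  rw [mul_zero] at h
  refine h.congr fun k => ?_
  rw [one_div, inv_pow, div_eq_mul_inv]

theorem half_plane_pr {η₀ C₀ : ℝ} {ℓ : ℕ} (hS : Str A C η₀ ℓ C₀) {g : ℂ → X} (hg : g ∈ BF A C)
    (hp : Per g) {b : ℝ} (h : ∀ z : ℂ, z.re < b → Calm η₀ g z) :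
    ∃ c : X, ∀ (k : ℕ) (z : ℂ), z.re < b - k * ℓ → dist (g z) c ≤ C₀ / 2 ^ k := by
  have h1 : ∀ (k : ℕ) (z z' : ℂ), z.re < b - k * ℓ → z'.re < b - k * ℓ →
      dist (g z) (g z') ≤ C₀ / 2 ^ k := by
    intro k z z' hz hz'
    refine hS g hg hp (min z.re z'.re - k * ℓ - 1) b k (fun w _ hw => h w hw) z z' ?_ hz ?_ hz'
    · have := min_le_left z.re z'.re
      linarith
    · have := min_le_right z.re z'.re
      linarith
  set x : ℕ → X := fun n => g (((-(n : ℝ) : ℝ)) : ℂ) with hx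
  have hre : ∀ n : ℕ, ((((-(n : ℝ) : ℝ)) : ℂ)).re = -(n : ℝ) := fun n => Complex.ofReal_re _
  have hlt : ∀ k : ℕ, ∀ᶠ n : ℕ in atTop, -(n : ℝ) < b - k * ℓ := by
    intro k
    have h2 : ∀ᶠ n : ℕ in atTop, -(b - k * ℓ) < (n : ℝ) :=
      tendsto_natCast_atTop_atTop.eventually_gt_atTop _
    filter_upwards [h2] with n hn
    linarith
  have hC : CauchySeq x := by
    rw [Metric.cauchySeq_iff]
    intro ε hε
    obtain ⟨k, hk⟩ := ((b3_tend C₀).eventually_lt_const hε).exists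
    obtain ⟨N, hN⟩ := eventually_atTop.1 (hlt k)
    refine ⟨N, fun m hm n hn => (h1 k _ _ ?_ ?_).trans_lt hk⟩
    · rw [hre]; exact hN m hm
    · rw [hre]; exact hN n hn
  obtain ⟨c, hc⟩ := cauchySeq_tendsto_of_complete hC
  refine ⟨c, fun k z hz => ?_⟩
  have h2 : Tendsto (fun n => dist (g z) (x n)) atTop (𝓝 (dist (g z) c)) :=
    tendsto_const_nhds.dist hc
  refine le_of_tendsto h2 ?_
  filter_upwards [hlt k] with n hn
  exact h1 k _ _ hz (by rw [hre]; exact hn)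

theorem half_lim_pr {C₀ b : ℝ} {ℓ : ℕ} (hℓ : 1 ≤ ℓ) {g : ℂ → X} {c : X}
    (h : ∀ (k : ℕ) (z : ℂ), z.re < b - k * ℓ → dist (g z) c ≤ C₀ / 2 ^ k) :
    Tendsto g (comap Complex.re atBot) (𝓝 c) := by
  rw [Metric.tendsto_nhds]
  intro ε hε
  obtain ⟨k, hk⟩ := ((b3_tend C₀).eventually_lt_const hε).exists
  have h1 : ∀ᶠ z : ℂ in comap Complex.re atBot, z.re < b - k * ℓ :=
    (eventually_lt_atBot (b - k * ℓ)).comap _
  filter_upwards [h1] with z hz
  exact (h k z hz).trans_lt hk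

end fam

end Pool.Agent.CYL

namespace Pool.Agent.CYL
alias half_plane := half_plane_pr
alias half_lim := half_lim_pr
end Pool.Agent.CYL
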