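import Pool.Agent.Lib_helper66.CYL.Base
import Pool.Agent.Lib_helper58.MBS.L.BCMP
import Pool.Agent.Lib_helper58.MBS.L.BMIN
import Pool.Agent.Lib_helper58.MBS.L.BSEQ
import Pool.Agent.Lib_helper58.MBS.L.BLIM
import Pool.Agent.Lib_helper58.MBS.L.BCHT
import Pool.Agent.Lib_helper58.MBS.L.BJET
import Pool.Agent.Lib_helper58.MBS.L.BNC
import Pool.Agent.Lib_helper58.MBS.L.BSMP
import Pool.Agent.Lib_helper58.MBS.L.ALIM
import Pool.Agent.Lib_helper58.MBS.L.AINV
import Pool.Agent.Lib_helper58.MBS.L.CPIM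
import Pool.Agent.Lib_helper58.MBS.L.DLST
import Pool.Agent.Lib_helper58.MBS.L.EUEX
import Pool.Agent.Lib_helper58.MBS.L.ETF
import Pool.Agent.Lib_helper58.MBS.L.FLAT
import Pool.Agent.Lib_helper66.CYL.P.BVIS
import Pool.Agent.Lib_helper66.CYL.P.BBAI
import Pool.Agent.Lib_helper66.CYL.P.BSMC
import Pool.Agent.Lib_helper66.CYL.P.CASM
import Pool.Agent.Lib_helper66.CYL.P.DHH
import Pool.Agent.Lib_helper66.CYL.P.EENT
import Pool.Agent.Lib_helper66.CYL.P.ELIM
import Pool.Agent.Lib_helper66.CYL.P.EPAR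
import Pool.Agent.Lib_helper66.CYL.P.FSTA
import Pool.Agent.Lib_helper66.CYL.P.FCOV

set_option autoImplicit false
set_option linter.unusedSectionVars false
set_option linter.unusedVariables false

open Filter Topology Metric Set

namespace Pool.Agent.CYL

open Pool.Agent.BR Pool.Agent.MBS

section pure

variable {V : Type} [NormedAddCommGroup V] [NormedSpace ℂ V]
  {E : Type} [NormedAddCommGroup E] [NormedSpace ℂ E] [FiniteDimensional ℂ E]

/-- the norm of `t - b η` over the roots `η` of `s` -/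
noncomputable def f1N (a : ℕ) (b : ℂ → ℂ) (s t : ℂ) : ℂ :=
  ((Polynomial.nthRoots a s).map (fun η => t - b η)).prod

theorem f1_prod {a : ℕ} (b : ℂ → ℂ) {ζ : ℂ} (hζ : IsPrimitiveRoot ζ a) {s t α : ℂ}
    (h : α ^ a = s) : f1N a b s t = ∏ j ∈ Finset.range a, (t - b (ζ ^ j * α)) := by
  unfold f1N
  rw [hζ.nthRoots_eq h, Multiset.map_map]
  rfl

theorem f1_zero {a : ℕ} (ha : 0 < a) (b : ℂ → ℂ) (s t : ℂ) :
    f1N a b s t = 0 ↔ ∃ η, η ^ a = s ∧ t = b η := by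
  unfold f1N
  rw [Multiset.prod_eq_zero_iff, Multiset.mem_map]
  constructor
  · rintro ⟨η, h1, h2⟩
    rw [Polynomial.mem_nthRoots ha] at h1
    exact ⟨η, h1, sub_eq_zero.mp h2⟩
  · rintro ⟨η, h1, h2⟩
    exact ⟨η, (Polynomial.mem_nthRoots ha).mpr h1, sub_eq_zero.mpr h2⟩

theorem f1_ball {a : ℕ} (ha : 0 < a) {r : ℝ} (hr : 0 < r) {η s : ℂ} (h : η ^ a = s)
    (hs : ‖s‖ < r ^ a) : η ∈ ball (0 : ℂ) r := by
  rw [mem_ball_zero_iff]
  rw [← h, norm_pow] at hs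
  exact lt_of_pow_lt_pow_left₀ a hr.le hs

/-- a local analytic root of a nonvanishing function -/
theorem f1_root {a : ℕ} (ha : 0 < a) {x : ℂ → ℂ} {w₁ : ℂ} (hx : AnalyticAt ℂ x w₁)
    (h0 : x w₁ ≠ 0) : ∃ h : ℂ → ℂ, AnalyticAt ℂ h w₁ ∧ h w₁ ≠ 0 ∧ ∀ w, h w ^ a = x w := by
  set c : ℂ := (x w₁) ^ ((a : ℂ)⁻¹) with hc
  have hca : c ^ a = x w₁ := Complex.cpow_nat_inv_pow _ ha.ne'
  refine ⟨fun w => c * (x w / x w₁) ^ ((a : ℂ)⁻¹), ?_, ?_, fun w => ?_⟩
  · refine analyticAt_const.mul ?_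
    refine AnalyticAt.cpow (hx.div analyticAt_const h0) analyticAt_const ?_
    rw [div_self h0]
    exact Complex.one_mem_slitPlane
  · simp only
    rw [div_self h0, Complex.one_cpow, mul_one]
    intro hcz
    rw [hcz, zero_pow ha.ne'] at hca
    exact h0 hca.symm
  · simp only
    rw [mul_pow, hca, Complex.cpow_nat_inv_pow _ ha.ne', mul_div_cancel₀ _ h0]

/-- block F1: norm equation: a point of the curve `η ↦ (η ^ a, b η)` -/
theorem norm_eq_pr {a : ℕ} (ha : 0 < a) {r : ℝ} (hr : 0 < r) {b : ℂ → ℂ}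
    (hb : ∀ η ∈ ball (0 : ℂ) r, AnalyticAt ℂ b η) {Ω : Set ℂ} (hΩ : IsOpen Ω)
    (hΩc : IsPreconnected Ω) {x y : ℂ → ℂ} (hx : ∀ w ∈ Ω, AnalyticAt ℂ x w)
    (hy : ∀ w ∈ Ω, AnalyticAt ℂ y w) (hxr : ∀ w ∈ Ω, ‖x w‖ < r ^ a) {w₀ : ℂ} (hw₀ : w₀ ∈ Ω)
    (h0 : ∀ᶠ w in 𝓝 w₀, ∃ η ∈ ball (0 : ℂ) r, η ^ a = x w ∧ y w = b η) :
    ∀ w ∈ Ω, ∃ η ∈ ball (0 : ℂ) r, η ^ a = x w ∧ y w = b η := by
  obtain ⟨ζ, hζ⟩ : ∃ ζ : ℂ, IsPrimitiveRoot ζ a :=
    ⟨_, Complex.isPrimitiveRoot_exp a ha.ne'⟩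
  have hζn : ∀ j : ℕ, ‖ζ ^ j‖ = 1 := fun j => by
    rw [norm_pow, hζ.norm'_eq_one ha.ne', one_pow]
  set Φ : ℂ → ℂ := fun w => f1N a b (x w) (y w) with hΦ
  have hm0 : (0 : ℂ) ∈ ball (0 : ℂ) r := mem_ball_self hr
  -- analytic where `x w ≠ 0`
  have han1 : ∀ w₁ ∈ Ω, x w₁ ≠ 0 → AnalyticAt ℂ Φ w₁ := by
    intro w₁ hw₁ hne
    obtain ⟨h, hh, hhne, hha⟩ := f1_root ha (hx w₁ hw₁) hne
    have e : Φ = fun w => ∏ j ∈ Finset.range a, (y w - b (ζ ^ j * h w)) := by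
      funext w
      exact f1_prod b hζ (hha w)
    rw [e]
    refine Finset.analyticAt_fun_prod _ fun j _ => ?_
    refine (hy w₁ hw₁).sub ?_
    have h1 : ζ ^ j * h w₁ ∈ ball (0 : ℂ) r := by
      refine f1_ball ha hr (s := x w₁) ?_ (hxr w₁ hw₁)
      rw [mul_pow, ← pow_mul, mul_comm j a, pow_mul, hζ.pow_eq_one, one_pow, one_mul, hha]
    exact AnalyticAt.fun_comp (hb _ h1) (analyticAt_const.mul hh)
  -- analytic everywhere
  have han : AnalyticOnNhd ℂ Φ Ω := by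
    intro w₁ hw₁
    by_cases hne : x w₁ = 0
    · rcases (hx w₁ hw₁).eventually_eq_zero_or_eventually_ne_zero with h1 | h1
      · -- `x` vanishes near `w₁`
        have h2 : Φ =ᶠ[𝓝 w₁] fun w => (y w - b 0) ^ a := by
          filter_upwards [h1] with w hw
          show f1N a b (x w) (y w) = _
          rw [hw, f1_prod b hζ (α := 0) (zero_pow ha.ne')]
          simp
        exact (((hy w₁ hw₁).sub analyticAt_const).pow a).congr h2.symm
      · refine Complex.analyticAt_of_differentiable_on_punctured_nhds_of_continuousAt ?_ ?_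
        · have h2 : ∀ᶠ w in 𝓝[≠] w₁, w ∈ Ω := nhdsWithin_le_nhds (hΩ.mem_nhds hw₁)
          filter_upwards [h1, h2] with w hw hwΩ
          exact (han1 w hwΩ hw).differentiableAt
        · -- continuity
          set η : ℂ → ℂ := fun w => (x w) ^ ((a : ℂ)⁻¹) with hη
          have hηa : ∀ w, η w ^ a = x w := fun w => Complex.cpow_nat_inv_pow _ ha.ne'
          have hη0 : Tendsto η (𝓝 w₁) (𝓝 0) := by
            have h3 : ∀ w, ‖η w‖ = ‖x w‖ ^ ((a : ℝ)⁻¹) := by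
              intro w
              rw [← hηa w, norm_pow, Real.pow_rpow_inv_natCast (norm_nonneg _) ha.ne']
            rw [tendsto_zero_iff_norm_tendsto_zero]
            simp_rw [h3]
            have h4 : Tendsto (fun w => ‖x w‖) (𝓝 w₁) (𝓝 0) := by
              have := (hx w₁ hw₁).continuousAt.tendsto.norm
              rwa [hne, norm_zero] at this
            have h5 := h4.rpow_const (p := (a : ℝ)⁻¹) (Or.inr (by positivity))
            rwa [Real.zero_rpow (by positivity)] at h5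
          have e : Φ = fun w => ∏ j ∈ Finset.range a, (y w - b (ζ ^ j * η w)) := by
            funext w
            exact f1_prod b hζ (hηa w)
          have e1 : Φ w₁ = ∏ j ∈ Finset.range a, (y w₁ - b 0) := by
            show f1N a b (x w₁) (y w₁) = _
            rw [hne, f1_prod b hζ (α := 0) (zero_pow ha.ne')]
            simp
          unfold ContinuousAt
          rw [e1, e]
          refine tendsto_finsetProd _ fun j _ => ?_
          refine (hy w₁ hw₁).continuousAt.tendsto.sub ?_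
          have h6 : Tendsto (fun w => ζ ^ j * η w) (𝓝 w₁) (𝓝 0) := by
            have := hη0.const_mul (ζ ^ j)
            rwa [mul_zero] at this
          exact (hb 0 hm0).continuousAt.tendsto.comp h6
    · exact han1 w₁ hw₁ hne
  have h1 : Φ =ᶠ[𝓝 w₀] 0 := by
    filter_upwards [h0] with w hw
    obtain ⟨η, -, h2, h3⟩ := hw
    exact (f1_zero ha b _ _).mpr ⟨η, h2, h3⟩
  have h2 := han.eqOn_zero_of_preconnected_of_eventuallyEq_zero hΩc hw₀ h1
  intro w hw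
  obtain ⟨η, h3, h4⟩ := (f1_zero ha b (x w) (y w)).mp (h2 hw)
  exact ⟨η, f1_ball ha hr h3 (hxr w hw), h3, h4⟩

end pure

end Pool.Agent.CYL

namespace Pool.Agent.CYL
alias norm_eq := norm_eq_pr
end Pool.Agent.CYL
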