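import Pool.Agent.Lib_helper66.CYL.Base
import Pool.Agent.Lib_helper58.MBS.L.BCMP
import Pool.Agent.Lib_helper58.MBS.L.BMIN
import Pool.Agent.Lib_helper58.MBS.L.BSEQ
import Pool.Agent.Lib_helper58.MBS.L.BLIM
import Pool.Agent.Lib_helper58.MBS.L.BCHT
import Pool.Agent.Lib_helper58.MBS.L.BJET
import Pool.Agent.Lib_helper58.MBS.L.BNC
import Pool.Agent.Lib_helper58.MBS.L.BSMP
import Pool.Agent.Lib_helper58.MBS.L.ALIM
import Pool.Agent.Lib_helper58.MBS.L.AINV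
import Pool.Agent.Lib_helper58.MBS.L.CPIM
import Pool.Agent.Lib_helper58.MBS.L.DLST
import Pool.Agent.Lib_helper58.MBS.L.EUEX
import Pool.Agent.Lib_helper58.MBS.L.ETF
import Pool.Agent.Lib_helper58.MBS.L.FLAT
import Pool.Agent.Lib_helper66.CYL.P.BVIS
import Pool.Agent.Lib_helper66.CYL.P.BBAI
import Pool.Agent.Lib_helper66.CYL.P.BSMC
import Pool.Agent.Lib_helper66.CYL.P.CASM
import Pool.Agent.Lib_helper66.CYL.P.DHH
import Pool.Agent.Lib_helper66.CYL.P.EENT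
import Pool.Agent.Lib_helper66.CYL.P.ELIM
import Pool.Agent.Lib_helper66.CYL.P.EPAR
import Pool.Agent.Lib_helper66.CYL.P.FSTA
import Pool.Agent.Lib_helper66.CYL.P.FCOV

set_option autoImplicit false
set_option linter.unusedSectionVars false
set_option linter.unusedVariables false

open Filter Topology Metric Set

namespace Pool.Agent.CYL

open Pool.Agent.BR Pool.Agent.MBS

section pure

variable {V : Type} [NormedAddCommGroup V] [NormedSpace ℂ V]
  {E : Type} [NormedAddCommGroup E] [NormedSpace ℂ E] [FiniteDimensional ℂ E]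

/-- block F2: normal form of a germ of a curve -/
theorem norm_form_pr {B : ℂ → E} (hB : AnalyticAt ℂ B 0) (h0 : B 0 = 0)
    (hne : ∃ᶠ ξ in 𝓝 (0 : ℂ), B ξ ≠ 0) :
    ∃ (l : E →L[ℂ] ℂ) (a : ℕ) (χ : ℂ → ℂ), 0 < a ∧ AnalyticAt ℂ χ 0 ∧ χ 0 = 0 ∧
      (∀ᶠ η in 𝓝 (0 : ℂ), l (B (χ η)) = η ^ a) ∧
      ∀ r > 0, ∀ᶠ ξ in 𝓝 (0 : ℂ), ∃ η, ‖η‖ < r ∧ χ η = ξ := by
  obtain ⟨a, g, hg, hg0, hgB⟩ := hB.exists_eventuallyEq_pow_smul_nonzero_iff.mpr
    (fun h => hne (h.mono fun z hz => not_not.mpr hz))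
  have ha : 0 < a := by
    rcases Nat.eq_zero_or_pos a with h | h
    · subst h
      have := hgB.self_of_nhds
      simp only [pow_zero, one_smul] at this
      exact absurd (this.symm.trans h0) hg0
    · exact h
  obtain ⟨l, hl⟩ : ∃ l : E →L[ℂ] ℂ, l (g 0) ≠ 0 := SeparatingDual.exists_ne_zero hg0
  set u : ℂ → ℂ := fun ξ => l (g ξ) with hu
  have hua : AnalyticAt ℂ u 0 := (l.analyticAt _).comp hg
  set c : ℂ := (u 0) ^ ((a : ℂ)⁻¹) with hc
  have hca : c ^ a = u 0 := Complex.cpow_nat_inv_pow _ ha.ne'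
  have hc0 : c ≠ 0 := by
    intro h
    rw [h, zero_pow ha.ne'] at hca
    exact hl hca.symm
  set v : ℂ → ℂ := fun ξ => c * (u ξ / u 0) ^ ((a : ℂ)⁻¹) with hv
  have hva : AnalyticAt ℂ v 0 := by
    refine analyticAt_const.mul ?_
    refine AnalyticAt.cpow (hua.div analyticAt_const hl) analyticAt_const ?_
    rw [div_self hl]
    exact Complex.one_mem_slitPlane
  have hvp : ∀ ξ, v ξ ^ a = u ξ := by
    intro ξ
    rw [hv]
    simp only
    rw [mul_pow, hca, Complex.cpow_nat_inv_pow _ ha.ne', mul_div_cancel₀ _ hl]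
  have hv0 : v 0 = c := by
    rw [hv]
    simp only
    rw [div_self hl, Complex.one_cpow, mul_one]
  set ψ : ℂ → ℂ := fun ξ => ξ * v ξ with hψ
  have hψa : AnalyticAt ℂ ψ 0 := analyticAt_id.mul hva
  have hψ0 : ψ 0 = 0 := by rw [hψ]; simp
  have hψd : deriv ψ 0 ≠ 0 := by
    have h1 : HasDerivAt ψ (1 * v 0 + 0 * deriv v 0) 0 :=
      (hasDerivAt_id (0 : ℂ)).mul hva.differentiableAt.hasDerivAt
    rw [h1.deriv, zero_mul, add_zero, one_mul, hv0]
    exact hc0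
  obtain ⟨r, hr, hra⟩ : ∃ r > 0, ∀ z ∈ ball (0 : ℂ) r, AnalyticAt ℂ ψ z := by
    have := hψa.eventually_analyticAt
    rw [Metric.eventually_nhds_iff_ball] at this
    exact this
  obtain ⟨r₁, hr₁, -, ρ, hρ, δ, hδ, C, hC, hinv⟩ := unif_inv hψa hψd r hr
  obtain ⟨hinj, χ, hχ⟩ := hinv ψ hra (fun z _ => by rw [sub_self, norm_zero]; exact hδ.le)
  rw [hψ0] at hχ
  have hχ0 := hχ 0 (mem_ball_self hρ)
  have hz : χ 0 = 0 := by
    have := hinj (χ 0) hχ0.2.1 0 (mem_ball_self hr₁)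
    rw [hχ0.2.2, hψ0, sub_self, norm_zero, mul_zero, sub_zero] at this
    exact norm_le_zero_iff.mp this
  refine ⟨l, a, χ, ha, hχ0.1, hz, ?_, fun r' hr' => ?_⟩
  · have h1 : Tendsto χ (𝓝 0) (𝓝 0) := by
      have := hχ0.1.continuousAt.tendsto
      rwa [hz] at this
    filter_upwards [h1.eventually hgB, Metric.ball_mem_nhds (0 : ℂ) hρ] with η h2 h3
    rw [h2, sub_zero, map_smul, smul_eq_mul]
    have h4 : ψ (χ η) ^ a = η ^ a := by rw [(hχ η h3).2.2]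
    rw [← h4, hψ]
    simp only
    rw [mul_pow, hvp]
  · have h1 : Tendsto ψ (𝓝 0) (𝓝 0) := by
      have := hψa.continuousAt.tendsto
      rwa [hψ0] at this
    filter_upwards [h1.eventually (Metric.ball_mem_nhds (0 : ℂ) hρ),
      h1.eventually (Metric.ball_mem_nhds (0 : ℂ) hr'), Metric.ball_mem_nhds (0 : ℂ) hr₁]
      with ξ h2 h3 h4
    refine ⟨ψ ξ, mem_ball_zero_iff.mp h3, ?_⟩
    have h5 := hχ (ψ ξ) h2
    have h6 := hinj (χ (ψ ξ)) h5.2.1 ξ h4
    rw [h5.2.2, sub_self, norm_zero, mul_zero] at h6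
    exact sub_eq_zero.mp (norm_le_zero_iff.mp h6)

end pure

end Pool.Agent.CYL

namespace Pool.Agent.CYL
alias norm_form := norm_form_pr
end Pool.Agent.CYL
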