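import Pool.Agent.Lib_helper66.CYL.Base
import Pool.Agent.Lib_helper58.MBS.L.BCMP
import Pool.Agent.Lib_helper58.MBS.L.BMIN
import Pool.Agent.Lib_helper58.MBS.L.BSEQ
import Pool.Agent.Lib_helper58.MBS.L.BLIM
import Pool.Agent.Lib_helper58.MBS.L.BCHT
import Pool.Agent.Lib_helper58.MBS.L.BJET
import Pool.Agent.Lib_helper58.MBS.L.BNC
import Pool.Agent.Lib_helper58.MBS.L.BSMP
import Pool.Agent.Lib_helper58.MBS.L.ALIM
import Pool.Agent.Lib_helper58.MBS.L.AINV
import Pool.Agent.Lib_helper58.MBS.L.CPIM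
import Pool.Agent.Lib_helper58.MBS.L.DLST
import Pool.Agent.Lib_helper58.MBS.L.EUEX
import Pool.Agent.Lib_helper58.MBS.L.ETF
import Pool.Agent.Lib_helper58.MBS.L.FLAT
import Pool.Agent.Lib_helper66.CYL.P.BVIS
import Pool.Agent.Lib_helper66.CYL.P.BBAI
import Pool.Agent.Lib_helper66.CYL.P.BSMC
import Pool.Agent.Lib_helper66.CYL.P.CASM
import Pool.Agent.Lib_helper66.CYL.P.DHH
import Pool.Agent.Lib_helper66.CYL.P.EENT
import Pool.Agent.Lib_helper66.CYL.P.ELIM
import Pool.Agent.Lib_helper66.CYL.P.EPAR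
import Pool.Agent.Lib_helper66.CYL.P.FSTA
import Pool.Agent.Lib_helper66.CYL.P.FCOV

/-! # The cylinder theorem (MP_45e720_ag): block F3 (helper1) -/

set_option autoImplicit false
set_option linter.unusedSectionVars false
set_option linter.unusedVariables false

open Filter Topology Metric Set

namespace Pool.Agent.CYL

open Pool.Agent.BR Pool.Agent.MBS

section fin

variable {E X : Type} [NormedAddCommGroup E] [NormedSpace ℂ E] [FiniteDimensional ℂ E]
  [MetricSpace X] [CompactSpace X] {A : Cha E X} {C lam L : ℝ} {M : Set (ℂ → X)} {k : ℕ}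

/-- block F3 -/
theorem ext_exp_pr {g : ℂ → X} (hp : Per g) (c : X) (z : ℂ) : ext g c (Complex.exp z) = g z := by
  unfold ext
  rw [if_neg (Complex.exp_ne_zero z)]
  obtain ⟨n, hn⟩ := Complex.exp_eq_exp_iff_exists_int.mp
    (Complex.exp_log (Complex.exp_ne_zero z))
  have h : Function.Periodic g tpi := hp
  rw [hn]
  exact h.int_mul n z

theorem f3_congr {g h : ℂ → X} {z : ℂ} (hgh : g =ᶠ[𝓝 z] h) (hh : A.HolAt h z) : A.HolAt g z := by
  refine ⟨hh.1.congr hgh.symm, fun i hi => ?_⟩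
  rw [hgh.eq_of_nhds] at hi
  refine (hh.2 i hi).congr ?_
  filter_upwards [hgh] with w hw
  simp only [Cha.loc, hw]

theorem f3_comp {g : ℂ → X} {l : ℂ → ℂ} {z : ℂ} (hl : AnalyticAt ℂ l z) (hg : A.HolAt g (l z)) :
    A.HolAt (fun w => g (l w)) z := by
  refine ⟨ContinuousAt.comp (f := l) (g := g) hg.1 hl.continuousAt, fun i hi => ?_⟩
  exact (hg.2 i hi).comp hl

theorem f3_punct {g : ℂ → X} (hg : ∀ z, A.HolAt g z) (hp : Per g) (c : X) {ξ : ℂ} (hξ : ξ ≠ 0) :
    A.HolAt (ext g c) ξ := by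
  have hl : AnalyticAt ℂ (fun w : ℂ => Complex.log ξ + Complex.log (w / ξ)) ξ := by
    have h1 : AnalyticAt ℂ (fun w : ℂ => w / ξ) ξ := analyticAt_id.div analyticAt_const hξ
    refine analyticAt_const.add (h1.clog ?_)
    rw [div_self hξ]
    exact Complex.one_mem_slitPlane
  have hev : ext g c =ᶠ[𝓝 ξ] fun w => g (Complex.log ξ + Complex.log (w / ξ)) := by
    filter_upwards [isOpen_ne.mem_nhds hξ] with w hw
    rw [← ext_exp_pr hp c (Complex.log ξ + Complex.log (w / ξ)), Complex.exp_add,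
      Complex.exp_log hξ, Complex.exp_log (div_ne_zero hw hξ), mul_div_cancel₀ _ hξ]
  exact f3_congr hev (f3_comp hl (hg _))

/-- block F3: the extended curve is holomorphic -/
theorem ext_hol_pr {g : ℂ → X} (hg : ∀ z, A.HolAt g z) (hp : Per g) {c : X}
    (hc : Tendsto g (comap Complex.re atBot) (𝓝 c)) : ∀ ξ, A.HolAt (ext g c) ξ := by
  intro ξ
  rcases eq_or_ne ξ 0 with rfl | hξ
  swap
  · exact f3_punct hg hp c hξ
  have h0 : ext g c 0 = c := by unfold ext; rw [if_pos rfl]
  have hcont : ContinuousAt (ext g c) 0 := by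
    rw [continuousAt_iff_punctured_nhds, h0]
    have h1 : Tendsto Complex.log (𝓝[≠] (0:ℂ)) (comap Complex.re atBot) := by
      rw [tendsto_comap_iff]
      have h2 : Complex.re ∘ Complex.log = fun w : ℂ => Real.log ‖w‖ := by
        funext w
        simp [Complex.log_re]
      rw [h2]
      exact Real.tendsto_log_nhdsGT_zero.comp tendsto_norm_nhdsNE_zero
    refine (hc.comp h1).congr' ?_
    filter_upwards [self_mem_nhdsWithin] with w hw
    have hw' : w ≠ 0 := hw
    unfold ext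
    rw [if_neg hw']
    rfl
  refine ⟨hcont, fun i hi => ?_⟩
  have : CompleteSpace E := FiniteDimensional.complete ℂ E
  refine Complex.analyticAt_of_differentiable_on_punctured_nhds_of_continuousAt ?_ ?_
  · have h3 : ∀ᶠ w in 𝓝 (0:ℂ), ext g c w ∈ (A.ch i).source :=
      hcont.eventually ((A.ch i).open_source.mem_nhds hi)
    filter_upwards [self_mem_nhdsWithin, mem_nhdsWithin_of_mem_nhds h3] with w hw hw2
    exact ((f3_punct hg hp c hw).2 i hw2).differentiableAt
  · exact ((A.ch i).continuousAt hi).comp hcont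

end fin
end Pool.Agent.CYL

namespace Pool.Agent.CYL
alias ext_hol := ext_hol_pr
alias ext_exp := ext_exp_pr
end Pool.Agent.CYL
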