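import Pool.Agent.Lib_helper66.CYL.Base
import Pool.Agent.Lib_helper58.MBS.L.BCMP
import Pool.Agent.Lib_helper58.MBS.L.BMIN
import Pool.Agent.Lib_helper58.MBS.L.BSEQ
import Pool.Agent.Lib_helper58.MBS.L.BLIM
import Pool.Agent.Lib_helper58.MBS.L.BCHT
import Pool.Agent.Lib_helper58.MBS.L.BJET
import Pool.Agent.Lib_helper58.MBS.L.BNC
import Pool.Agent.Lib_helper58.MBS.L.BSMP
import Pool.Agent.Lib_helper58.MBS.L.ALIM
import Pool.Agent.Lib_helper58.MBS.L.AINV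
import Pool.Agent.Lib_helper58.MBS.L.CPIM
import Pool.Agent.Lib_helper58.MBS.L.DLST
import Pool.Agent.Lib_helper58.MBS.L.EUEX
import Pool.Agent.Lib_helper58.MBS.L.ETF
import Pool.Agent.Lib_helper58.MBS.L.FLAT
import Pool.Agent.Lib_helper66.CYL.P.BVIS
import Pool.Agent.Lib_helper66.CYL.P.BBAI
import Pool.Agent.Lib_helper66.CYL.P.BSMC
import Pool.Agent.Lib_helper66.CYL.P.CASM
import Pool.Agent.Lib_helper66.CYL.P.DHH
import Pool.Agent.Lib_helper66.CYL.P.EENT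
import Pool.Agent.Lib_helper66.CYL.P.ELIM
import Pool.Agent.Lib_helper66.CYL.P.EPAR
import Pool.Agent.Lib_helper66.CYL.P.FSTA
import Pool.Agent.Lib_helper66.CYL.P.FCOV
import Pool.Agent.Lib_helper66.CYL.N.B3
import Pool.Agent.Lib_helper66.CYL.N.F1
import Pool.Agent.Lib_helper66.CYL.N.F2
import Pool.Agent.Lib_helper66.CYL.N.F3

/-! # Cylinder theorem, block F4: the left ends -/

set_option autoImplicit false
set_option linter.unusedSectionVars false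
set_option linter.unusedVariables false

open Filter Topology Metric Set

namespace Pool.Agent.CYL

open Pool.Agent.BR Pool.Agent.MBS

section fin

variable {E X : Type} [NormedAddCommGroup E] [NormedSpace ℂ E] [FiniteDimensional ℂ E]
  [MetricSpace X] [CompactSpace X] {A : Cha E X} {C lam L : ℝ} {M : Set (ℂ → X)} {k : ℕ}

theorem f4_neBot : (comap Complex.re atBot : Filter ℂ).NeBot := by
  rw [comap_neBot_iff]
  intro t ht
  obtain ⟨x, hx⟩ := (inferInstance : (atBot : Filter ℝ).NeBot).nonempty_of_mem ht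
  exact ⟨(x : ℂ), by simpa using hx⟩

/-- noncritical points are dense -/
theorem f4_dense {f : ℂ → X} (hf : ∀ z, A.HolAt f z) (hn : NCst f) {O : Set ℂ} (hO : IsOpen O)
    (hne : O.Nonempty) : ∃ z ∈ O, NC A f z := by
  have h1 := (crit_countable (A := A) hf hn).2
  have h2 := h1.dense_compl ℝ
  obtain ⟨w, hw, hw'⟩ := h2.exists_mem_open hO hne
  exact ⟨w, hw', not_not.1 hw⟩

theorem f4_ext0 (g : ℂ → X) (c : X) : ext g c 0 = c := by simp [ext]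

/-- the extended curve is not constant near `0` -/
theorem f4_ne (hB : BLip A lam L) {h₀ : ℂ → X} (hh₀ : ∀ z, A.HolAt h₀ z) (hp : Per h₀)
    (hn : NCst h₀) {c : X} (hc : Tendsto h₀ (comap Complex.re atBot) (𝓝 c)) {i : A.ι}
    (hi : c ∈ (A.ch i).source) :
    ∃ᶠ ξ in 𝓝 (0 : ℂ), A.ch i (ext h₀ c ξ) - A.ch i c ≠ 0 := by
  intro hcon
  have h1 : ∀ᶠ ξ in 𝓝 (0 : ℂ), ext h₀ c ξ ∈ (A.ch i).source := by
    refine (ext_hol hh₀ hp hc 0).1.eventually ((A.ch i).open_source.mem_nhds ?_)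
    rw [f4_ext0]
    exact hi
  have h2 : ∀ᶠ ξ in 𝓝 (0 : ℂ), ext h₀ c ξ = c := by
    filter_upwards [hcon, h1] with ξ h3 h4
    have h5 : A.ch i (ext h₀ c ξ) - A.ch i c = 0 := not_not.1 h3
    exact (A.ch i).injOn h4 hi (sub_eq_zero.1 h5)
  obtain ⟨r, hr, h3⟩ := Metric.eventually_nhds_iff_ball.1 h2
  have h4 : ∀ z ∈ {z : ℂ | z.re < Real.log r}, h₀ z = c := by
    intro z hz
    rw [← ext_exp hp c z]
    apply h3
    rw [mem_ball_zero_iff, Complex.norm_exp]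
    rw [mem_ofPred_eq] at hz
    calc Real.exp z.re < Real.exp (Real.log r) := Real.exp_lt_exp.2 hz
      _ = r := Real.exp_log hr
  have hO : IsOpen {z : ℂ | z.re < Real.log r} := isOpen_lt Complex.continuous_re continuous_const
  have hne : {z : ℂ | z.re < Real.log r}.Nonempty := ⟨((Real.log r - 1 : ℝ) : ℂ), by
    rw [mem_ofPred_eq, Complex.ofReal_re]
    linarith⟩
  obtain ⟨z, hz, hnc⟩ := f4_dense hh₀ hn hO hne
  have hs : h₀ z ∈ (A.ch i).source := by rw [h4 z hz]; exact hi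
  refine hnc i hs ?_
  have h5 : A.loc i h₀ =ᶠ[𝓝 z] fun _ => A.ch i c := by
    filter_upwards [hO.mem_nhds hz] with w hw
    simp only [Cha.loc]
    rw [h4 w hw]
  rw [h5.deriv_eq]
  simp

theorem left_end_pr (hE : Module.finrank ℂ E = 2) (hB : BLip A lam L) (hsub : M ⊆ BF A C)
    (hper : ∀ g ∈ M, Per g) {η₀ C₀ : ℝ} {ℓ : ℕ} (hℓ : 1 ≤ ℓ) (hC₀ : 0 < C₀)
    (hS : Str A C η₀ ℓ C₀) {h₀ : ℂ → X} (hh₀ : h₀ ∈ M) (hn : NCst h₀)
    (hcalm : ∀ z : ℂ, z.re < 0 → Calm η₀ h₀ z) {c : X}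
    (hc : Tendsto h₀ (comap Complex.re atBot) (𝓝 c))
    (hZ : ∀ z, NC A h₀ z → NN (𝓝[M] h₀) (fun h => h) (fun _ => h₀) (fun _ => 0) z) :
    ∃ D > 0, ∃ V ∈ 𝓝[M] h₀, ∀ h ∈ V, ∀ z : ℂ, z.re ≤ -D →
      (∀ w : ℂ, z.re - D ≤ w.re → w.re < 0 → Calm η₀ h w) → ∃ ξ : ℂ, ‖ξ‖ ≤ 1 ∧ h z = ext h₀ c ξ := by
  have hh₀B := hsub hh₀
  have hp₀ := hper h₀ hh₀
  have hlam := hB.lam_pos
  have hL : 0 < L := lt_of_lt_of_le one_pos hB.L_one
  have hℓ1 : (1 : ℝ) ≤ ℓ := by exact_mod_cast hℓ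
  have hhol := ext_hol hh₀B.1 hp₀ hc
  -- the chart
  obtain ⟨i, hi⟩ := hB.leb c
  have hcW : c ∈ A.W i := hi (mem_ball_self hlam)
  have hccl : c ∈ closure (A.W i) := subset_closure hcW
  have hcs : c ∈ (A.ch i).source := A.W_sub i hccl
  have hballs : ∀ x ∈ ball c lam, x ∈ (A.ch i).source := fun x hx =>
    A.W_sub i (subset_closure (hi hx))
  obtain ⟨Bf, hBf⟩ : ∃ Bf : ℂ → E, Bf = fun ξ => A.ch i (ext h₀ c ξ) - A.ch i c := ⟨_, rfl⟩
  have hBf0 : Bf 0 = 0 := by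
    rw [hBf]
    simp only [f4_ext0, sub_self]
  have hBfan : ∀ ξ, ext h₀ c ξ ∈ (A.ch i).source → AnalyticAt ℂ Bf ξ := by
    intro ξ hξ
    rw [hBf]
    exact ((hhol ξ).2 i hξ).sub analyticAt_const
  have hBfan0 : AnalyticAt ℂ Bf 0 := hBfan 0 (by rw [f4_ext0]; exact hcs)
  have hBfne : ∃ᶠ ξ in 𝓝 (0 : ℂ), Bf ξ ≠ 0 := by
    rw [hBf]
    exact f4_ne hB hh₀B.1 hp₀ hn hc hcs
  obtain ⟨l, a, χ, ha, hχ, hχ0, hχe, hχs⟩ := norm_form hBfan0 hBf0 hBfne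
  -- the radius `r₂`
  have hev : ∀ᶠ η in 𝓝 (0 : ℂ), (AnalyticAt ℂ (fun η => Bf (χ η)) η ∧ l (Bf (χ η)) = η ^ a) ∧
      ‖χ η‖ ≤ 1 ∧ ext h₀ c (χ η) ∈ ball c lam := by
    have h1 : ∀ᶠ η in 𝓝 (0 : ℂ), AnalyticAt ℂ χ η := hχ.eventually_analyticAt
    have h2 : ∀ᶠ ξ in 𝓝 (0 : ℂ), ext h₀ c ξ ∈ ball c lam := by
      refine (hhol 0).1.eventually ?_
      rw [f4_ext0]
      exact ball_mem_nhds c hlam
    have h3 : Tendsto χ (𝓝 0) (𝓝 0) := by
      have := hχ.continuousAt.tendsto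
      rwa [hχ0] at this
    have h4 : ∀ᶠ η in 𝓝 (0 : ℂ), ext h₀ c (χ η) ∈ ball c lam := h3.eventually h2
    have h5 : ∀ᶠ η in 𝓝 (0 : ℂ), ‖χ η‖ ≤ 1 := by
      filter_upwards [h3.eventually (closedBall_mem_nhds (0 : ℂ) one_pos)] with η hη
      simpa using hη
    filter_upwards [h1, h4, h5, hχe] with η a1 a2 a3 a4
    refine ⟨⟨?_, a4⟩, a3, a2⟩
    have a5 : AnalyticAt ℂ Bf (χ η) := hBfan _ (hballs _ a2)
    exact AnalyticAt.comp (g := Bf) (f := χ) a5 a1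
  obtain ⟨r₂, hr₂, hr₂e⟩ := Metric.eventually_nhds_iff_ball.1 hev
  obtain ⟨r₃, hr₃, hr₃e⟩ := Metric.eventually_nhds_iff_ball.1 (hχs r₂ hr₂)
  -- the second form
  obtain ⟨l', hl'⟩ : ∃ l' : E →L[ℂ] ℂ, ∀ v, l v = 0 → l' v = 0 → v = 0 := by
    have h1 : l (Bf (χ ((r₂ / 2 : ℝ) : ℂ))) ≠ 0 := by
      have h2 : ((r₂ / 2 : ℝ) : ℂ) ∈ ball (0 : ℂ) r₂ := by
        rw [mem_ball_zero_iff, Complex.norm_real, Real.norm_of_nonneg (by positivity)]
        linarith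
      rw [(hr₂e _ h2).1.2]
      refine pow_ne_zero _ ?_
      exact_mod_cast (by positivity : r₂ / 2 ≠ 0)
    obtain ⟨e₁, e₂, he₁, he₂, he₂0, hker⟩ := ecri_basis hE l h1
    obtain ⟨l', hl'⟩ := SeparatingDual.exists_ne_zero (R := ℂ) he₂0
    refine ⟨l', fun v hv hv' => ?_⟩
    obtain ⟨b, hb⟩ := hker v hv
    rw [hb, map_smul, smul_eq_mul] at hv'
    rcases mul_eq_zero.1 hv' with h3 | h3
    · rw [hb, h3, zero_smul]
    · exact absurd h3 hl'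
  -- the limit of `h₀`
  have hlim₀ : ∀ (k : ℕ) (z : ℂ), z.re < 0 - k * ℓ → dist (h₀ z) c ≤ C₀ / 2 ^ k := by
    obtain ⟨c', hc'⟩ := half_plane hS hh₀B hp₀ hcalm
    have h1 : Tendsto h₀ (comap Complex.re atBot) (𝓝 c') := half_lim hℓ hc'
    have h2 : c' = c := by
      have := f4_neBot
      exact tendsto_nhds_unique h1 hc
    rw [← h2]
    exact hc'
  -- the depth `k₀`
  obtain ⟨k₀, hk₁, hk₂, hk₃⟩ : ∃ k₀ : ℕ, 3 * (C₀ / 2 ^ k₀) < lam ∧
      ‖l‖ * (L * (3 * (C₀ / 2 ^ k₀))) < r₂ ^ a ∧ Real.exp (-(k₀ * ℓ : ℝ)) < r₃ := by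
    have h1 : Tendsto (fun k : ℕ => C₀ / 2 ^ k) atTop (𝓝 0) := by
      have h2 : Tendsto (fun k : ℕ => C₀ * (1 / 2 : ℝ) ^ k) atTop (𝓝 (C₀ * 0)) :=
        (tendsto_pow_atTop_nhds_zero_of_lt_one (by norm_num) (by norm_num)).const_mul C₀
      rw [mul_zero] at h2
      refine h2.congr fun k => ?_
      rw [one_div, inv_pow, div_eq_mul_inv]
    have h3 : Tendsto (fun k : ℕ => 3 * (C₀ / 2 ^ k)) atTop (𝓝 0) := by
      simpa using h1.const_mul 3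
    have h4 : Tendsto (fun k : ℕ => ‖l‖ * (L * (3 * (C₀ / 2 ^ k)))) atTop (𝓝 0) := by
      simpa using (h3.const_mul L).const_mul ‖l‖
    have h5 : Tendsto (fun k : ℕ => Real.exp (-(k * ℓ : ℝ))) atTop (𝓝 0) := by
      refine Real.tendsto_exp_neg_atTop_nhds_zero.comp ?_
      exact tendsto_natCast_atTop_atTop.atTop_mul_const (by linarith)
    have h6 := (h3.eventually (gt_mem_nhds hlam)).and ((h4.eventually (gt_mem_nhds
      (by positivity : 0 < r₂ ^ a))).and (h5.eventually (gt_mem_nhds hr₃)))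
    exact h6.exists
  obtain ⟨l0, hl0⟩ : ∃ l0 : ℝ, l0 = k₀ * ℓ := ⟨_, rfl⟩
  have hl0n : 0 ≤ l0 := by rw [hl0]; positivity
  rw [← hl0] at hk₃
  -- a noncritical point
  obtain ⟨z₂, hz₂, hz₂n⟩ : ∃ z₂ ∈ {z : ℂ | -l0 - 2 < z.re ∧ z.re < -l0 - 1}, NC A h₀ z₂ := by
    refine f4_dense hh₀B.1 hn ?_ ?_
    · exact (isOpen_lt continuous_const Complex.continuous_re).inter
        (isOpen_lt Complex.continuous_re continuous_const)
    · refine ⟨((-l0 - 3 / 2 : ℝ) : ℂ), ?_, ?_⟩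
      · rw [Complex.ofReal_re]; linarith
      · rw [Complex.ofReal_re]; linarith
  obtain ⟨hz₂a, hz₂b⟩ := hz₂
  obtain ⟨ρ, hρ, B, hNN⟩ := hZ z₂ hz₂n
  have hN1 := hNN (1 / 2) (by norm_num)
  -- the reference point
  obtain ⟨w', hw'⟩ : ∃ w' : ℂ, w' = ((-l0 - 1 / 2 : ℝ) : ℂ) := ⟨_, rfl⟩
  have hw're : w'.re = -l0 - 1 / 2 := by rw [hw', Complex.ofReal_re]
  have hN2 : ∀ᶠ h in 𝓝[M] h₀, dist (h w') (h₀ w') < C₀ / 2 ^ k₀ := by
    have h1 : Tendsto (fun h : ℂ → X => h w') (𝓝[M] h₀) (𝓝 (h₀ w')) :=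
      ((continuous_apply w').tendsto h₀).mono_left nhdsWithin_le_nhds
    exact (Metric.tendsto_nhds.1 h1) _ (by positivity)
  have hN3 : ∀ᶠ h in 𝓝[M] h₀, h ∈ M := self_mem_nhdsWithin
  refine ⟨l0 + 3, by linarith, {h | ((∀ ζ ∈ ball z₂ ρ, ∃ u, ‖u - ζ‖ ≤ 1 / 2 ∧
    dist (h ζ) (h₀ u) ≤ B * 0) ∧ dist (h w') (h₀ w') < C₀ / 2 ^ k₀) ∧ h ∈ M},
    (hN1.and hN2).and hN3, ?_⟩
  rintro h ⟨⟨hV1, hV2⟩, hV3⟩ z hz hzc
  have hhB := hsub hV3
  -- the strip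
  have hstr := hS h hhB (hper h hV3) (z.re - (l0 + 3)) 0 k₀ (fun w h1 h2 => hzc w h1.le h2)
  rw [← hl0] at hstr
  have hdist : ∀ w : ℂ, z.re - 1 < w.re → w.re < -l0 → dist (h w) c ≤ 3 * (C₀ / 2 ^ k₀) := by
    intro w h1 h2
    have h3 := hstr w w' (by linarith) (by linarith) (by rw [hw're]; linarith)
      (by rw [hw're]; linarith)
    have h4 := hlim₀ k₀ w' (by rw [hw're, ← hl0]; linarith)
    have h5 := dist_triangle4 (h w) (h w') (h₀ w') c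
    linarith
  obtain ⟨Ω, hΩ⟩ : ∃ Ω : Set ℂ, Ω = {w | z.re - 1 < w.re ∧ w.re < -l0} := ⟨_, rfl⟩
  have hΩo : IsOpen Ω := by
    rw [hΩ]
    exact (isOpen_lt continuous_const Complex.continuous_re).inter
      (isOpen_lt Complex.continuous_re continuous_const)
  have hΩc : IsPreconnected Ω := by
    have h1 : Convex ℝ Ω := by
      rw [hΩ]
      exact (convex_halfSpace_re_gt (z.re - 1)).inter (convex_halfSpace_re_lt (-l0))
    exact h1.isPreconnected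
  have hmem : ∀ w ∈ Ω, h w ∈ ball c lam := by
    intro w hw
    rw [hΩ] at hw
    rw [mem_ball]
    exact (hdist w hw.1 hw.2).trans_lt hk₁
  have hlan : ∀ w ∈ Ω, AnalyticAt ℂ (fun w => A.loc i h w - A.ch i c) w := by
    intro w hw
    exact ((hhB.1 w).2 i (hballs _ (hmem w hw))).sub analyticAt_const
  have hz₂Ω : z₂ ∈ Ω := by
    rw [hΩ]
    exact ⟨by linarith, by linarith⟩
  have hzΩ : z ∈ Ω := by
    rw [hΩ]
    exact ⟨by linarith, by linarith⟩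
  have hxr : ∀ w ∈ Ω, ‖l (A.loc i h w - A.ch i c)‖ < r₂ ^ a := by
    intro w hw
    refine lt_of_le_of_lt ?_ hk₂
    refine (l.le_opNorm _).trans (mul_le_mul_of_nonneg_left ?_ (norm_nonneg _))
    refine (hB.ch_le i c hccl (h w) (hmem w hw) c (mem_ball_self hlam)).trans ?_
    refine mul_le_mul_of_nonneg_left ?_ hL.le
    rw [hΩ] at hw
    exact hdist w hw.1 hw.2
  have hnear : ∀ᶠ w in 𝓝 z₂, ∃ η ∈ ball (0 : ℂ) r₂, η ^ a = l (A.loc i h w - A.ch i c) ∧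
      l' (A.loc i h w - A.ch i c) = l' (Bf (χ η)) := by
    filter_upwards [ball_mem_nhds z₂ (lt_min hρ (by norm_num : (0 : ℝ) < 1 / 2))] with w hw
    obtain ⟨u, hu, hd⟩ := hV1 w (ball_subset_ball (min_le_left _ _) hw)
    rw [mul_zero] at hd
    have heq : h w = h₀ u := dist_le_zero.1 hd
    have hwre : w.re < -l0 - 1 / 2 := by
      have h1 : ‖w - z₂‖ < 1 / 2 := by
        rw [mem_ball, dist_eq_norm] at hw
        exact hw.trans_le (min_le_right _ _)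
      have h2 := Complex.abs_re_le_norm (w - z₂)
      rw [Complex.sub_re] at h2
      have h3 := le_abs_self (w.re - z₂.re)
      linarith
    have hure : u.re < -l0 := by
      have h2 := Complex.abs_re_le_norm (u - w)
      rw [Complex.sub_re] at h2
      have h3 := le_abs_self (u.re - w.re)
      linarith
    have hexp : Complex.exp u ∈ ball (0 : ℂ) r₃ := by
      rw [mem_ball_zero_iff, Complex.norm_exp]
      exact (Real.exp_lt_exp.2 hure).trans hk₃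
    obtain ⟨η, hη, hχη⟩ := hr₃e _ hexp
    have hηb : η ∈ ball (0 : ℂ) r₂ := by rw [mem_ball_zero_iff]; exact hη
    have hval : A.loc i h w - A.ch i c = Bf (χ η) := by
      rw [hχη, hBf]
      simp only [Cha.loc]
      rw [heq, ext_exp hp₀]
    refine ⟨η, hηb, ?_, ?_⟩
    · rw [hval, (hr₂e η hηb).1.2]
    · rw [hval]
  have hkey := norm_eq (b := fun η => l' (Bf (χ η))) (x := fun w => l (A.loc i h w - A.ch i c))
    (y := fun w => l' (A.loc i h w - A.ch i c)) ha hr₂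
    (fun η hη => AnalyticAt.comp (g := l') (f := fun η => Bf (χ η)) (l'.analyticAt _)
      (hr₂e η hη).1.1) hΩo hΩc
    (fun w hw => AnalyticAt.comp (g := l) (f := fun w => A.loc i h w - A.ch i c) (l.analyticAt _)
      (hlan w hw))
    (fun w hw => AnalyticAt.comp (g := l') (f := fun w => A.loc i h w - A.ch i c) (l'.analyticAt _)
      (hlan w hw)) hxr hz₂Ω hnear z hzΩ
  obtain ⟨η, hη, h1, h2⟩ := hkey
  obtain ⟨⟨-, h3⟩, h4, h5⟩ := hr₂e η hη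
  refine ⟨χ η, h4, ?_⟩
  have h6 : A.loc i h z - A.ch i c - Bf (χ η) = 0 := by
    refine hl' _ ?_ ?_
    · rw [map_sub, h3, h1, sub_self]
    · rw [map_sub, h2, sub_self]
  have h7 : A.ch i (h z) = A.ch i (ext h₀ c (χ η)) := by
    have h8 : A.loc i h z - A.ch i c = Bf (χ η) := sub_eq_zero.1 h6
    rw [hBf] at h8
    simp only [Cha.loc] at h8
    exact sub_left_injective h8
  exact (A.ch i).injOn (hballs _ (hmem z hzΩ)) (hballs _ h5) h7

end fin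

end Pool.Agent.CYL

namespace Pool.Agent.CYL
alias left_end := left_end_pr
end Pool.Agent.CYL
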