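import Pool.Agent.Lib_helper66.CYL.Base
import Pool.Agent.Lib_helper58.MBS.L.BCMP
import Pool.Agent.Lib_helper58.MBS.L.BMIN
import Pool.Agent.Lib_helper58.MBS.L.BSEQ
import Pool.Agent.Lib_helper58.MBS.L.BLIM
import Pool.Agent.Lib_helper58.MBS.L.BCHT
import Pool.Agent.Lib_helper58.MBS.L.BJET
import Pool.Agent.Lib_helper58.MBS.L.BNC
import Pool.Agent.Lib_helper58.MBS.L.BSMP
import Pool.Agent.Lib_helper58.MBS.L.ALIM
import Pool.Agent.Lib_helper58.MBS.L.AINV
import Pool.Agent.Lib_helper58.MBS.L.CPIM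
import Pool.Agent.Lib_helper58.MBS.L.DLST
import Pool.Agent.Lib_helper58.MBS.L.EUEX
import Pool.Agent.Lib_helper58.MBS.L.ETF
import Pool.Agent.Lib_helper58.MBS.L.FLAT
import Pool.Agent.Lib_helper66.CYL.P.BVIS
import Pool.Agent.Lib_helper66.CYL.P.BBAI
import Pool.Agent.Lib_helper66.CYL.P.BSMC
import Pool.Agent.Lib_helper66.CYL.P.CASM
import Pool.Agent.Lib_helper66.CYL.P.DHH
import Pool.Agent.Lib_helper66.CYL.P.EENT
import Pool.Agent.Lib_helper66.CYL.P.ELIM
import Pool.Agent.Lib_helper66.CYL.P.EPAR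
import Pool.Agent.Lib_helper66.CYL.P.FSTA
import Pool.Agent.Lib_helper66.CYL.P.FCOV
import Pool.Agent.Lib_helper66.CYL.N.B3
import Pool.Agent.Lib_helper66.CYL.N.B4
import Pool.Agent.Lib_helper66.CYL.N.F4

/-! # The cylinder theorem (MP_45e720_ag), block F6: all left ends -/

set_option autoImplicit false
set_option linter.unusedSectionVars false
set_option linter.unusedVariables false

open Filter Topology Metric Set

namespace Pool.Agent.CYL

open Pool.Agent.BR Pool.Agent.MBS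

section fin

variable {E X : Type} [NormedAddCommGroup E] [NormedSpace ℂ E] [FiniteDimensional ℂ E]
  [MetricSpace X] [CompactSpace X] {A : Cha E X} {C lam L : ℝ} {M : Set (ℂ → X)} {k : ℕ}

theorem f6_cont {g : ℂ → X} (hg : g ∈ BF A C) : Continuous g :=
  continuous_iff_continuousAt.2 fun z => (hg.1 z).1

/-- the extended curve is continuous at `0` -/
theorem f6_ext {h₀ : ℂ → X} {c : X} (hc : Tendsto h₀ (comap Complex.re atBot) (𝓝 c)) {W : Set X}
    (hW : IsOpen W) (hcW : c ∈ W) : ∃ r : ℝ, 0 < r ∧ ∀ ξ : ℂ, ‖ξ‖ < r → ext h₀ c ξ ∈ W := by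
  have h1 : ∀ᶠ z in comap Complex.re atBot, h₀ z ∈ W := hc (hW.mem_nhds hcW)
  obtain ⟨t, ht, hts⟩ := h1
  obtain ⟨b, hb⟩ := mem_atBot_sets.1 ht
  refine ⟨Real.exp b, Real.exp_pos b, fun ξ hξ => ?_⟩
  unfold ext
  split_ifs with h0
  · exact hcW
  · have h2 : (Complex.log ξ).re < b := by
      rw [Complex.log_re]
      exact (Real.log_lt_iff_lt_exp (norm_pos_iff.2 h0)).2 hξ
    exact hts (show Complex.re (Complex.log ξ) ∈ t from hb _ h2.le)

/-- the translates of a curve by a compact set -/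
theorem f6_comp {h₀ : ℂ → X} (hh : Continuous h₀) {Q : Set ℂ} (hQ : IsCompact Q) :
    IsCompact ((fun w => tr w h₀) '' Q) := by
  refine hQ.image ?_
  refine continuous_pi fun z => ?_
  exact hh.comp (continuous_const.add continuous_id)

theorem f6_ncst {h₀ : ℂ → X} (hn : NCst h₀) (w : ℂ) : NCst (tr w h₀) := by
  obtain ⟨z, z', h⟩ := hn
  exact ⟨z - w, z' - w, by simpa [tr] using h⟩

theorem small_ext_pr {g : ℂ → X} (hF : Fam A C M g) {h₀ : ℂ → X} (hh₀ : h₀ ∈ M) (hn : NCst h₀)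
    {c : X} (hc : Tendsto h₀ (comap Complex.re atBot) (𝓝 c)) :
    Small g (ext h₀ c '' closedBall 0 1) := by
  refine ⟨{c}, Set.finite_singleton c, fun W hW hcW => ?_⟩
  obtain ⟨r, hr, hrW⟩ := f6_ext hc hW (hcW rfl)
  have hcont := f6_cont (hF.sub hh₀)
  -- the rectangle
  set Q : Set ℂ := Complex.re ⁻¹' Set.Icc (Real.log r) 0 ∩ Complex.im ⁻¹' Set.Icc (-Real.pi) Real.pi
    with hQdef
  have hQ : IsCompact Q := isCompact_Icc.reProdIm isCompact_Icc
  obtain ⟨R, hR⟩ := hF.cov ((fun w => tr w h₀) '' Q) (by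
    rintro _ ⟨w, -, rfl⟩
    exact hF.inv _ hh₀ w) (f6_comp hcont hQ) (by
    rintro _ ⟨w, -, rfl⟩
    exact f6_ncst hn w)
  refine ⟨R, ?_⟩
  rintro _ ⟨ξ, hξ, rfl⟩
  rw [mem_closedBall, dist_zero_right] at hξ
  by_cases hlt : ‖ξ‖ < r
  · exact Or.inl (hrW ξ hlt)
  · right
    push Not at hlt
    have hξ0 : ξ ≠ 0 := norm_pos_iff.1 (lt_of_lt_of_le hr hlt)
    have h1 : Complex.log ξ ∈ Q := by
      refine ⟨?_, ?_⟩
      · show Complex.re (Complex.log ξ) ∈ Set.Icc (Real.log r) 0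
        rw [Complex.log_re]
        exact ⟨Real.log_le_log hr hlt, Real.log_nonpos (norm_nonneg _) hξ⟩
      · show Complex.im (Complex.log ξ) ∈ Set.Icc (-Real.pi) Real.pi
        rw [Complex.log_im]
        exact ⟨(Complex.neg_pi_lt_arg ξ).le, Complex.arg_le_pi ξ⟩
    obtain ⟨u, hu, hgu⟩ := hR _ ⟨_, h1, rfl⟩
    refine ⟨u, by rwa [mem_closedBall, dist_zero_right], ?_⟩
    rw [← hgu]
    show h₀ (0 + Complex.log ξ) = ext h₀ c ξ
    unfold ext
    rw [if_neg hξ0, zero_add]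

theorem f6_empty (g : ℂ → X) : Small g ∅ :=
  ⟨∅, Set.finite_empty, fun W _ _ => ⟨0, Set.empty_subset _⟩⟩

theorem f6_union {g : ℂ → X} {S S' : Set X} (h : Small g S) (h' : Small g S') :
    Small g (S ∪ S') := by
  obtain ⟨Z, hZ, hS⟩ := h
  obtain ⟨Z', hZ', hS'⟩ := h'
  refine ⟨Z ∪ Z', hZ.union hZ', fun W hW hZW => ?_⟩
  obtain ⟨R, hR⟩ := hS W hW (fun x hx => hZW (Or.inl hx))
  obtain ⟨R', hR'⟩ := hS' W hW (fun x hx => hZW (Or.inr hx))
  refine ⟨max R R', Set.union_subset (hR.trans ?_) (hR'.trans ?_)⟩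
  · exact Set.union_subset_union_right _ (Set.image_mono (closedBall_subset_closedBall
      (le_max_left _ _)))
  · exact Set.union_subset_union_right _ (Set.image_mono (closedBall_subset_closedBall
      (le_max_right _ _)))

theorem left_all_pr (hE : Module.finrank ℂ E = 2) (hB : BLip A lam L) {η₀ C₀ : ℝ} {ℓ : ℕ}
    (hη : 0 < η₀) (hℓ : 1 ≤ ℓ) (hC₀ : 0 < C₀) (hS : Str A C η₀ ℓ C₀) {g : ℂ → X}
    (hF : Fam A C M g) :
    ∃ S : Set X, Small g S ∧ ∃ D > 0, ∀ h ∈ M, Act η₀ h 0 →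
      (∀ w : ℂ, -D < w.re → w.re < 0 → Calm η₀ h w) → ∀ z : ℂ, z.re ≤ -D →
        (∀ w : ℂ, z.re - D ≤ w.re → w.re < 0 → Calm η₀ h w) → h z ∈ S := by
  have hK := ka_compact hF.closed hF.sub η₀ 0
  have main : ∃ S : Set X, Small g S ∧ ∃ D > 0, ∀ h ∈ KA M η₀ 0,
      (∀ w : ℂ, -D < w.re → w.re < 0 → Calm η₀ h w) → ∀ z : ℂ, z.re ≤ -D →
        (∀ w : ℂ, z.re - D ≤ w.re → w.re < 0 → Calm η₀ h w) → h z ∈ S := by
    refine IsCompact.induction_on (p := fun s => ∃ S : Set X, Small g S ∧ ∃ D > 0, ∀ h ∈ s,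
      (∀ w : ℂ, -D < w.re → w.re < 0 → Calm η₀ h w) → ∀ z : ℂ, z.re ≤ -D →
        (∀ w : ℂ, z.re - D ≤ w.re → w.re < 0 → Calm η₀ h w) → h z ∈ S) hK ?_ ?_ ?_ ?_
    · exact ⟨∅, f6_empty g, 1, one_pos, fun h hh => absurd hh (Set.notMem_empty h)⟩
    · rintro s t hst ⟨S, hS', D, hD, h⟩
      exact ⟨S, hS', D, hD, fun h' hh' => h h' (hst hh')⟩
    · rintro s t ⟨S, hS1, D, hD, h⟩ ⟨S', hS1', D', hD', h'⟩
      refine ⟨S ∪ S', f6_union hS1 hS1', max D D', lt_max_of_lt_left hD, ?_⟩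
      rintro f (hf | hf) h1 z hz h2
      · refine Or.inl (h f hf (fun w hw hw' => h1 w ?_ hw') z ?_ fun w hw hw' => h2 w ?_ hw')
        · linarith [le_max_left D D']
        · linarith [le_max_left D D']
        · linarith [le_max_left D D']
      · refine Or.inr (h' f hf (fun w hw hw' => h1 w ?_ hw') z ?_ fun w hw hw' => h2 w ?_ hw')
        · linarith [le_max_right D D']
        · linarith [le_max_right D D']
        · linarith [le_max_right D D']
    · intro h₀ hh₀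
      by_cases hcalm : ∀ z : ℂ, z.re < 0 → Calm η₀ h₀ z
      · have hM := hh₀.1
        have hn : NCst h₀ := ka_ncst hη hh₀
        obtain ⟨c, hc⟩ := half_plane hS (hF.sub hM) (hF.per _ hM) (b := 0) hcalm
        have hlim := half_lim hℓ hc
        obtain ⟨D, hD, V, hV, hVh⟩ := left_end hE hB hF.sub hF.per hℓ hC₀ hS hM hn hcalm hlim
          (hF.zz _ hM hn)
        refine ⟨V, nhdsWithin_mono _ (fun x hx => hx.1) hV, ext h₀ c '' closedBall 0 1,
          small_ext_pr hF hM hn hlim, D, hD, fun h hh _ z hz h2 => ?_⟩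
        obtain ⟨ξ, hξ, hhz⟩ := hVh h hh z hz h2
        exact ⟨ξ, by rwa [mem_closedBall, dist_zero_right], hhz.symm⟩
      · push Not at hcalm
        obtain ⟨w₀, hw₀, hnc⟩ := hcalm
        refine ⟨{h : ℂ → X | Calm η₀ h w₀}ᶜ, mem_nhdsWithin_of_mem_nhds
          ((calm_closed η₀ w₀).isOpen_compl.mem_nhds hnc), ∅, f6_empty g, -w₀.re + 1,
          by linarith, fun h hh h1 => ?_⟩
        exact absurd (h1 w₀ (by linarith) hw₀) hh
  obtain ⟨S, hS1, D, hD, h⟩ := main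
  refine ⟨S, hS1, D, hD, fun f hf hact => h f ⟨hf, 0, ?_, hact⟩⟩
  rw [norm_zero]

end fin

end Pool.Agent.CYL

namespace Pool.Agent.CYL
alias small_ext := small_ext_pr
alias left_all := left_all_pr
end Pool.Agent.CYL
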