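import Pool.Agent.Lib_helper66.CYL.Base
import Pool.Agent.Lib_helper58.MBS.L.BCMP
import Pool.Agent.Lib_helper58.MBS.L.BMIN
import Pool.Agent.Lib_helper58.MBS.L.BSEQ
import Pool.Agent.Lib_helper58.MBS.L.BLIM
import Pool.Agent.Lib_helper58.MBS.L.BCHT
import Pool.Agent.Lib_helper58.MBS.L.BJET
import Pool.Agent.Lib_helper58.MBS.L.BNC
import Pool.Agent.Lib_helper58.MBS.L.BSMP
import Pool.Agent.Lib_helper58.MBS.L.ALIM
import Pool.Agent.Lib_helper58.MBS.L.AINV
import Pool.Agent.Lib_helper58.MBS.L.CPIM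
import Pool.Agent.Lib_helper58.MBS.L.DLST
import Pool.Agent.Lib_helper58.MBS.L.EUEX
import Pool.Agent.Lib_helper58.MBS.L.ETF
import Pool.Agent.Lib_helper58.MBS.L.FLAT
import Pool.Agent.Lib_helper66.CYL.P.BVIS
import Pool.Agent.Lib_helper66.CYL.P.BBAI
import Pool.Agent.Lib_helper66.CYL.P.BSMC
import Pool.Agent.Lib_helper66.CYL.P.CASM
import Pool.Agent.Lib_helper66.CYL.P.DHH
import Pool.Agent.Lib_helper66.CYL.P.EENT
import Pool.Agent.Lib_helper66.CYL.P.ELIM
import Pool.Agent.Lib_helper66.CYL.P.EPAR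
import Pool.Agent.Lib_helper66.CYL.P.FSTA
import Pool.Agent.Lib_helper66.CYL.P.FCOV
import Pool.Agent.Lib_helper66.CYL.N.B2
import Pool.Agent.Lib_helper66.CYL.N.B4
import Pool.Agent.Lib_helper66.CYL.N.F5
import Pool.Agent.Lib_helper66.CYL.N.F6

/-! # The cylinder theorem, block F7: the main case -/

set_option autoImplicit false
set_option linter.unusedSectionVars false
set_option linter.unusedVariables false

open Filter Topology Metric Set

namespace Pool.Agent.CYL

open Pool.Agent.BR Pool.Agent.MBS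

section fin

variable {E X : Type} [NormedAddCommGroup E] [NormedSpace ℂ E] [FiniteDimensional ℂ E]
  [MetricSpace X] [CompactSpace X] {A : Cha E X} {C lam L : ℝ} {M : Set (ℂ → X)} {k : ℕ}

/-- periodicity for all multiples of the period -/
theorem f7_per {g : ℂ → X} (hp : Per g) (m : ℤ) (z : ℂ) : g (z + m * tpi) = g z := by
  have hN : ∀ (j : ℕ) (z : ℂ), g (z + j * tpi) = g z := by
    intro j
    induction j with
    | zero => intro z; simp
    | succ j ih =>
      intro z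
      have h1 : z + ((j + 1 : ℕ) : ℂ) * tpi = (z + j * tpi) + tpi := by
        push_cast
        ring
      rw [h1, hp, ih]
  rcases Int.eq_nat_or_neg m with ⟨j, rfl | rfl⟩
  · simpa using hN j z
  · have h2 := hN j (z + ((-(j : ℤ) : ℤ) : ℂ) * tpi)
    have h3 : z + ((-(j : ℤ) : ℤ) : ℂ) * tpi + j * tpi = z := by
      push_cast
      ring
    rw [h3] at h2
    exact h2.symm

/-- calmness is periodic -/
theorem f7_calm {g : ℂ → X} (hp : Per g) {η : ℝ} (m : ℤ) {z : ℂ}
    (h : Calm η g (z + m * tpi)) : Calm η g z := by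
  intro w hw
  have h1 := h (w + m * tpi) (by
    have : w + (m : ℂ) * tpi - (z + m * tpi) = w - z := by ring
    rw [this]
    exact hw)
  rwa [f7_per hp m, f7_per hp m] at h1

theorem f7_tpi_re (m : ℤ) : ((m : ℂ) * tpi).re = 0 := by
  unfold tpi
  simp

theorem f7_tpi_im (m : ℤ) : ((m : ℂ) * tpi).im = m * (2 * Real.pi) := by
  unfold tpi
  simp

/-- a point with the same real part, near `z` -/
theorem f7_near (w z : ℂ) : ∃ m : ℤ, ‖w + m * tpi - z‖ ≤ |w.re - z.re| + 4 := by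
  have hpi := Real.pi_pos
  refine ⟨round ((z.im - w.im) / (2 * Real.pi)), ?_⟩
  set m : ℤ := round ((z.im - w.im) / (2 * Real.pi)) with hm
  have h1 : |(z.im - w.im) / (2 * Real.pi) - m| ≤ 1 / 2 := abs_sub_round _
  have h2 : |w.im + m * (2 * Real.pi) - z.im| ≤ Real.pi := by
    have h3 : w.im + m * (2 * Real.pi) - z.im =
        -(((z.im - w.im) / (2 * Real.pi) - m) * (2 * Real.pi)) := by
      field_simp
      ring
    rw [h3, abs_neg, abs_mul, abs_of_pos (by positivity : 0 < 2 * Real.pi)]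
    nlinarith
  have h4 : ‖w + m * tpi - z‖ ≤ |(w + m * tpi - z).re| + |(w + m * tpi - z).im| :=
    Complex.norm_le_abs_re_add_abs_im _
  have h5 : (w + m * tpi - z).re = w.re - z.re := by
    rw [Complex.sub_re, Complex.add_re, f7_tpi_re, add_zero]
  have h6 : (w + m * tpi - z).im = w.im + m * (2 * Real.pi) - z.im := by
    rw [Complex.sub_im, Complex.add_im, f7_tpi_im]
  rw [h5, h6] at h4
  have := Real.pi_le_four
  linarith

/-- translates of calm points -/
theorem f7_tr_calm {g : ℂ → X} {η : ℝ} {w₀ w : ℂ} (h : Calm η g (w + w₀)) :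
    Calm η (tr w₀ g) w := by
  intro v hv
  exact h (v + w₀) (by
    have : v + w₀ - (w + w₀) = v - w := by ring
    rw [this]
    exact hv)

theorem f7_tr_act {g : ℂ → X} {η : ℝ} {w₀ w : ℂ} (h : Act η g (w + w₀)) :
    Act η (tr w₀ g) w := by
  obtain ⟨v, hv, hv'⟩ := h
  refine ⟨v - w₀, ?_, ?_⟩
  · have : v - w₀ - w = v - (w + w₀) := by ring
    rw [this]
    exact hv
  · simpa [tr] using hv'

theorem f7_ng_calm {g : ℂ → X} {η : ℝ} {w : ℂ} (h : Calm η g (-w)) : Calm η (ng g) w := by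
  intro v hv
  have := h (-v) (by
    have h1 : -v - -w = -(v - w) := by ring
    rw [h1, norm_neg]
    exact hv)
  exact this

/-- deep points with a point which is not calm to the right -/
theorem f7_right {g : ℂ → X} (hF : Fam A C M g) (hg : g ∈ M) {η₀ : ℝ} {S : Set X} {D D' : ℝ}
    (hD : 0 < D) (hDD : D ≤ D')
    (hS : ∀ h ∈ M, Act η₀ h 0 → (∀ w : ℂ, -D < w.re → w.re < 0 → Calm η₀ h w) →
      ∀ z : ℂ, z.re ≤ -D → (∀ w : ℂ, z.re - D ≤ w.re → w.re < 0 → Calm η₀ h w) → h z ∈ S)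
    {z : ℂ} (hz : ∀ w : ℂ, |w.re - z.re| ≤ D' → Calm η₀ g w) {w₁ : ℂ} (hw : z.re < w₁.re)
    (hw' : ¬ Calm η₀ g w₁) : g z ∈ S := by
  obtain ⟨w₀, h1, h2, h3⟩ := first_act (hF.sub hg) (hF.per g hg) (η := η₀) (a := z.re)
    (a' := z.re + D') (by linarith)
    (fun w hw1 hw2 => hz w (by rw [abs_le]; constructor <;> linarith)) ⟨w₁, hw, hw'⟩
  have h4 := hS (tr w₀ g) (hF.inv g hg w₀) (f7_tr_act (by simpa using h2))
    (fun w hw1 hw2 => f7_tr_calm (h3 (w + w₀) (by rw [Complex.add_re]; linarith)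
      (by rw [Complex.add_re]; linarith)))
    (z - w₀) (by rw [Complex.sub_re]; linarith)
    (fun w hw1 hw2 => f7_tr_calm (by
      rw [Complex.sub_re] at hw1
      rcases le_or_gt (w + w₀).re z.re with h5 | h5
      · refine hz _ ?_
        rw [Complex.add_re] at h5 ⊢
        rw [abs_le]
        constructor <;> linarith
      · exact h3 _ h5 (by rw [Complex.add_re]; linarith)))
  simpa [tr] using h4

theorem f7_union {g : ℂ → X} {S T : Set X} (hS : Small g S) (hT : Small g T) :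
    Small g (S ∪ T) := by
  obtain ⟨Z, hZ, h1⟩ := hS
  obtain ⟨Z', hZ', h2⟩ := hT
  refine ⟨Z ∪ Z', hZ.union hZ', fun W hW hZW => ?_⟩
  obtain ⟨R, hR⟩ := h1 W hW (subset_union_left.trans hZW)
  obtain ⟨R', hR'⟩ := h2 W hW (subset_union_right.trans hZW)
  refine ⟨max R R', union_subset (hR.trans ?_) (hR'.trans ?_)⟩
  · exact union_subset_union_right _ (image_mono (closedBall_subset_closedBall (le_max_left _ _)))
  · exact union_subset_union_right _
      (image_mono (closedBall_subset_closedBall (le_max_right _ _)))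

theorem f7_ball {g : ℂ → X} (R : ℝ) : Small g (g '' closedBall 0 R) :=
  ⟨∅, finite_empty, fun W _ _ => ⟨R, subset_union_right⟩⟩

theorem f7_mono {g : ℂ → X} {S T : Set X} (hT : Small g T) (h : S ⊆ T) : Small g S := by
  obtain ⟨Z, hZ, h1⟩ := hT
  refine ⟨Z, hZ, fun W hW hZW => ?_⟩
  obtain ⟨R, hR⟩ := h1 W hW hZW
  exact ⟨R, h.trans hR⟩

theorem f7_ng {g : ℂ → X} {S : Set X} (h : Small (ng g) S) : Small g S := by
  obtain ⟨Z, hZ, h1⟩ := h
  refine ⟨Z, hZ, fun W hW hZW => ?_⟩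
  obtain ⟨R, hR⟩ := h1 W hW hZW
  refine ⟨R, hR.trans (union_subset_union_right _ ?_)⟩
  rintro x ⟨z, hz, rfl⟩
  exact ⟨-z, by simpa using hz, rfl⟩

theorem case_A_pr (hE : Module.finrank ℂ E = 2) (hB : BLip A lam L) {η₀ C₀ : ℝ} {ℓ : ℕ}
    (hη : 0 < η₀) (hℓ : 1 ≤ ℓ) (hC₀ : 0 < C₀) (hD : Dec A C η₀ ℓ) (hS : Str A C η₀ ℓ C₀)
    {g : ℂ → X} (hg : g ∈ M) (hgn : NCst g) (hF : Fam A C M g) : Small g (range g) := by
  obtain ⟨S₁, hS₁, D₁, hD₁, h1⟩ := left_all hE hB hη hℓ hC₀ hS hF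
  have hF' := fam_ng hF
  obtain ⟨S₂, hS₂, D₂, hD₂, h2⟩ := left_all hE hB hη hℓ hC₀ hS hF'
  have hg' : ng g ∈ NgS M := by
    change ng (ng g) ∈ M
    have : ng (ng g) = g := by
      funext z
      simp [ng]
    rwa [this]
  set D : ℝ := max D₁ D₂ with hDdef
  have hK := ka_compact hF.closed hF.sub η₀ (D + 4)
  obtain ⟨R, hR⟩ := hF.cov (KA M η₀ (D + 4)) (fun h hh => hh.1) hK
    (fun h hh => ka_ncst hη hh)
  refine f7_mono (f7_union (f7_union hS₁ (f7_ng hS₂)) (f7_ball (g := g) R)) ?_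
  rintro x ⟨z, rfl⟩
  by_cases hz : ∀ w : ℂ, |w.re - z.re| ≤ D → Calm η₀ g w
  · -- deep
    left
    have hex : ∃ w₁, ¬ Calm η₀ g w₁ := by
      by_contra hcon
      push Not at hcon
      obtain ⟨a, b, hab⟩ := hgn
      exact hab (calm_const hη hD (hF.sub hg) (hF.per g hg) hcon a b)
    obtain ⟨w₁, hw₁⟩ := hex
    rcases lt_trichotomy z.re w₁.re with h3 | h3 | h3
    · left
      exact f7_right hF hg hD₁ (le_max_left _ _) h1 hz h3 hw₁
    · exfalso
      refine hw₁ (hz w₁ ?_)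
      rw [h3, sub_self, abs_zero]
      exact hD₁.le.trans (le_max_left _ _)
    · right
      have h4 := f7_right hF' hg' hD₂ (le_max_right D₁ D₂) h2 (z := -z)
        (fun w hw => f7_ng_calm (hz (-w) (by
          rw [Complex.neg_re] at hw ⊢
          have : -w.re - z.re = -(w.re - -z.re) := by ring
          rw [this, abs_neg]
          exact hw))) (w₁ := -w₁) (by rw [Complex.neg_re, Complex.neg_re]; linarith)
        (fun h5 => hw₁ (by
          have h6 : Calm η₀ (ng (ng g)) w₁ := f7_ng_calm h5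
          have h7 : ng (ng g) = g := by
            funext z
            simp [ng]
          rwa [h7] at h6))
      simpa [ng] using h4
  · -- not deep
    right
    push Not at hz
    obtain ⟨w, hw, hw'⟩ := hz
    obtain ⟨m, hm⟩ := f7_near w z
    have h3 : ¬ Calm η₀ g (w + m * tpi) := fun h => hw' (f7_calm (hF.per g hg) m h)
    have h4 : Act η₀ (tr z g) (w + m * tpi - z) :=
      f7_tr_act (by simpa using act_of_not_calm h3)
    obtain ⟨u, hu, hu'⟩ := hR (tr z g) ⟨hF.inv g hg z, _, hm.trans (by linarith), h4⟩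
    refine ⟨u, by simpa using hu, ?_⟩
    rw [← hu']
    simp [tr]

end fin

end Pool.Agent.CYL

namespace Pool.Agent.CYL
alias case_A := case_A_pr
end Pool.Agent.CYL
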