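import Pool.Agent.Lib_helper66.CYL.Base
import Pool.Agent.Lib_helper58.MBS.L.BCMP
import Pool.Agent.Lib_helper58.MBS.L.BMIN
import Pool.Agent.Lib_helper58.MBS.L.BSEQ
import Pool.Agent.Lib_helper58.MBS.L.BLIM
import Pool.Agent.Lib_helper58.MBS.L.BCHT
import Pool.Agent.Lib_helper58.MBS.L.BJET
import Pool.Agent.Lib_helper58.MBS.L.BNC
import Pool.Agent.Lib_helper58.MBS.L.BSMP
import Pool.Agent.Lib_helper58.MBS.L.ALIM
import Pool.Agent.Lib_helper58.MBS.L.AINV
import Pool.Agent.Lib_helper58.MBS.L.CPIM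
import Pool.Agent.Lib_helper58.MBS.L.DLST
import Pool.Agent.Lib_helper58.MBS.L.EUEX
import Pool.Agent.Lib_helper58.MBS.L.ETF
import Pool.Agent.Lib_helper58.MBS.L.FLAT
import Pool.Agent.Lib_helper66.CYL.P.BVIS
import Pool.Agent.Lib_helper66.CYL.P.BBAI
import Pool.Agent.Lib_helper66.CYL.P.BSMC
import Pool.Agent.Lib_helper66.CYL.P.CASM
import Pool.Agent.Lib_helper66.CYL.P.DHH
import Pool.Agent.Lib_helper66.CYL.P.EENT
import Pool.Agent.Lib_helper66.CYL.P.ELIM
import Pool.Agent.Lib_helper66.CYL.P.EPAR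
import Pool.Agent.Lib_helper66.CYL.P.FSTA
import Pool.Agent.Lib_helper66.CYL.P.FCOV
import Pool.Agent.Lib_helper66.CYL.N.B3

/-! # CYL block F8: the case of a curve with two calm ends -/

set_option autoImplicit false
set_option linter.unusedSectionVars false
set_option linter.unusedVariables false

open Filter Topology Metric Set

namespace Pool.Agent.CYL

open Pool.Agent.BR Pool.Agent.MBS

section fin

variable {E X : Type} [NormedAddCommGroup E] [NormedSpace ℂ E] [FiniteDimensional ℂ E]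
  [MetricSpace X] [CompactSpace X] {A : Cha E X} {C lam L : ℝ} {M : Set (ℂ → X)} {k : ℕ}

theorem f8_hol {g : ℂ → X} (z : ℂ) (h : A.HolAt g (-z)) : A.HolAt (ng g) z := by
  refine ⟨?_, fun i hi => ?_⟩
  · have h1 : ContinuousAt g (-z) := h.1
    exact ContinuousAt.comp (g := g) (f := fun w => -w) h1 continuous_neg.continuousAt
  · have h1 : AnalyticAt ℂ (A.loc i g) (-z) := h.2 i hi
    exact AnalyticAt.comp (g := A.loc i g) (f := fun w => -w) h1 analyticAt_id.neg

theorem f8_bf {g : ℂ → X} (h : g ∈ BF A C) : ng g ∈ BF A C := by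
  refine ⟨fun z => f8_hol z (h.1 (-z)), fun z i hi => ?_⟩
  have h1 : deriv (A.loc i (ng g)) z = -deriv (A.loc i g) (-z) :=
    deriv_comp_neg (A.loc i g) z
  rw [h1, norm_neg]
  exact h.2 (-z) i hi

theorem f8_per {g : ℂ → X} (h : Per g) : Per (ng g) := by
  intro z
  show g (-(z + tpi)) = g (-z)
  have h1 := h (-(z + tpi))
  rw [← h1]
  congr 1
  ring

theorem f8_calm {η : ℝ} {g : ℂ → X} {z : ℂ} (h : Calm η g (-z)) : Calm η (ng g) z := by
  intro w hw
  exact h (-w) (by rwa [show -w - -z = -(w - z) by ring, norm_neg])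

/-- the left end -/
theorem f8_left {η₀ C₀ : ℝ} {ℓ : ℕ} (hℓ : 1 ≤ ℓ) (hS : Str A C η₀ ℓ C₀) {g : ℂ → X}
    (hg : g ∈ BF A C) (hp : Per g) {S : ℝ} (h : ∀ z : ℂ, S ≤ |z.re| → Calm η₀ g z) :
    ∃ c : X, ∀ W ∈ 𝓝 c, ∃ a : ℝ, ∀ z : ℂ, z.re < a → g z ∈ W := by
  obtain ⟨c, hc⟩ := half_plane hS hg hp (b := -S) (fun z hz => h z (by
    rw [le_abs]
    right
    linarith))
  have h1 := half_lim hℓ hc
  refine ⟨c, fun W hW => ?_⟩
  have h2 := h1 hW
  rw [mem_map, mem_comap] at h2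
  obtain ⟨t, ht, hts⟩ := h2
  obtain ⟨a, ha⟩ := mem_atBot_sets.1 ht
  exact ⟨a, fun z hz => hts (ha z.re hz.le)⟩

theorem f8_shift {g : ℂ → X} (hp : Per g) (m : ℤ) (z : ℂ) : g (z + m * tpi) = g z := by
  have h1 : ∀ (m : ℕ) (z : ℂ), g (z + m * tpi) = g z := by
    intro m
    induction m with
    | zero => intro z; simp
    | succ m ih =>
      intro z
      rw [Nat.cast_succ, add_mul, one_mul, ← add_assoc, hp, ih]
  obtain ⟨k, rfl | rfl⟩ := m.eq_nat_or_neg
  · rw [Int.cast_natCast]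
    exact h1 k z
  · have h2 := h1 k (z + ((-(k : ℤ) : ℤ) : ℂ) * tpi)
    rw [← h2]
    congr 1
    push_cast
    ring

theorem case_B_pr {η₀ C₀ : ℝ} {ℓ : ℕ} (hℓ : 1 ≤ ℓ) (hS : Str A C η₀ ℓ C₀) {g : ℂ → X}
    (hg : g ∈ BF A C) (hp : Per g) {S : ℝ} (h : ∀ z : ℂ, S ≤ |z.re| → Calm η₀ g z) :
    Small g (range g) := by
  obtain ⟨c, hc⟩ := f8_left hℓ hS hg hp h
  obtain ⟨c', hc'⟩ := f8_left hℓ hS (f8_bf hg) (f8_per hp) (S := S)
    (fun z hz => f8_calm (h (-z) (by rwa [Complex.neg_re, abs_neg])))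
  refine ⟨{c, c'}, by simp, fun W hW hZ => ?_⟩
  obtain ⟨a, ha⟩ := hc W (hW.mem_nhds (hZ (by simp)))
  obtain ⟨a', ha'⟩ := hc' W (hW.mem_nhds (hZ (by simp)))
  refine ⟨max (max |a| |a'|) 0 + 2 * Real.pi, ?_⟩
  rintro _ ⟨z, rfl⟩
  by_cases h1 : z.re < a
  · exact Or.inl (ha z h1)
  by_cases h2 : (-z).re < a'
  · refine Or.inl ?_
    have h3 := ha' (-z) h2
    have h4 : ng g (-z) = g z := by
      show g (- -z) = g z
      rw [neg_neg]
    rwa [h4] at h3
  · right
    -- move `z` to the strip `0 ≤ im z < 2 π`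
    have hpi : 0 < 2 * Real.pi := by positivity
    obtain ⟨m, hm⟩ : ∃ m : ℤ, |z.im + m * (2 * Real.pi)| ≤ 2 * Real.pi := by
      refine ⟨-⌊z.im / (2 * Real.pi)⌋, ?_⟩
      have h3 := Int.floor_le (z.im / (2 * Real.pi))
      have h4 := Int.lt_floor_add_one (z.im / (2 * Real.pi))
      rw [le_div_iff₀ hpi] at h3
      rw [div_lt_iff₀ hpi] at h4
      rw [abs_le]
      push_cast
      constructor <;> nlinarith
    refine ⟨z + m * tpi, ?_, f8_shift hp m z⟩
    rw [mem_closedBall, dist_zero_right]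
    have h3 : z + m * tpi = ((z.re : ℝ) : ℂ) + ((z.im + m * (2 * Real.pi) : ℝ) : ℂ) *
        Complex.I := by
      apply Complex.ext <;> simp [tpi]
    rw [h3]
    refine (norm_add_le _ _).trans (add_le_add ?_ ?_)
    · rw [Complex.norm_real, Real.norm_eq_abs, abs_le]
      rw [not_lt] at h1 h2
      rw [Complex.neg_re] at h2
      have e1 : |a| ≤ max (max |a| |a'|) 0 := (le_max_left _ _).trans (le_max_left _ _)
      have e2 : |a'| ≤ max (max |a| |a'|) 0 := (le_max_right _ _).trans (le_max_left _ _)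
      have e3 := neg_abs_le a
      have e4 := neg_abs_le a'
      constructor <;> linarith
    · rw [norm_mul, Complex.norm_I, mul_one, Complex.norm_real, Real.norm_eq_abs]
      exact hm

end fin

end Pool.Agent.CYL

namespace Pool.Agent.CYL
alias case_B := case_B_pr
end Pool.Agent.CYL
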