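import Pool.Agent.Lib_helper66.CYL.Base
import Pool.Agent.Lib_helper58.MBS.L.BCMP
import Pool.Agent.Lib_helper58.MBS.L.BMIN
import Pool.Agent.Lib_helper58.MBS.L.BSEQ
import Pool.Agent.Lib_helper58.MBS.L.BLIM
import Pool.Agent.Lib_helper58.MBS.L.BCHT
import Pool.Agent.Lib_helper58.MBS.L.BJET
import Pool.Agent.Lib_helper58.MBS.L.BNC
import Pool.Agent.Lib_helper58.MBS.L.BSMP
import Pool.Agent.Lib_helper58.MBS.L.ALIM
import Pool.Agent.Lib_helper58.MBS.L.AINV
import Pool.Agent.Lib_helper58.MBS.L.CPIM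
import Pool.Agent.Lib_helper58.MBS.L.DLST
import Pool.Agent.Lib_helper58.MBS.L.EUEX
import Pool.Agent.Lib_helper58.MBS.L.ETF
import Pool.Agent.Lib_helper58.MBS.L.FLAT
import Pool.Agent.Lib_helper66.CYL.P.BVIS
import Pool.Agent.Lib_helper66.CYL.P.BBAI
import Pool.Agent.Lib_helper66.CYL.P.BSMC
import Pool.Agent.Lib_helper66.CYL.P.CASM
import Pool.Agent.Lib_helper66.CYL.P.DHH
import Pool.Agent.Lib_helper66.CYL.P.EENT
import Pool.Agent.Lib_helper66.CYL.P.ELIM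
import Pool.Agent.Lib_helper66.CYL.P.EPAR
import Pool.Agent.Lib_helper66.CYL.P.FSTA
import Pool.Agent.Lib_helper66.CYL.P.FCOV
import Pool.Agent.Lib_helper66.CYL.N.B1
import Pool.Agent.Lib_helper66.CYL.N.B2
import Pool.Agent.Lib_helper66.CYL.N.B4
import Pool.Agent.Lib_helper66.CYL.N.B5
import Pool.Agent.Lib_helper66.CYL.N.E6
import Pool.Agent.Lib_helper66.CYL.N.F5
import Pool.Agent.Lib_helper66.CYL.N.F7
import Pool.Agent.Lib_helper66.CYL.N.F8

/-! # Cylinder theorem, block F9: the theorem in the charts -/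

set_option autoImplicit false
set_option linter.unusedSectionVars false
set_option linter.unusedVariables false

open Filter Topology Metric Set

namespace Pool.Agent.CYL

open Pool.Agent.BR Pool.Agent.MBS

section fin

variable {E X : Type} [NormedAddCommGroup E] [NormedSpace ℂ E] [FiniteDimensional ℂ E]
  [MetricSpace X] [CompactSpace X] {A : Cha E X} {C lam L : ℝ} {M : Set (ℂ → X)} {k : ℕ}

/-- F9: the theorem in the charts -/
theorem top_cyl_pr (hE : Module.finrank ℂ E = 2) (hB : BLip A lam L) {N k' : ℕ}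
    (F : A.Frm N k') (hk' : 0 < k') {m : ℕ} {P : (ℂ → X) → ℂ}
    {Q : A.ι → (Fin (k + 1) → E) → ℂ} (hJ : JD A k m P Q) {f : ℂ → X} (hf : f ∈ BF A C)
    (hp : Per f) (hn : NCst f) :
    ∃ g ∈ closure (range fun w => tr w f), NCst g ∧ Small g (range g) := by
  obtain ⟨η₀, hη₀, ℓ, hℓ, hD⟩ := exists_dec hB C
  obtain ⟨C₀, hC₀, hS⟩ := exists_str hη₀ hℓ hD
  obtain ⟨M, hM, hMsub⟩ := exists_qm hη₀ hD hf hp hn
  by_cases hP : ∀ g ∈ M, P g = 0
  · have hR := regular hE hM hJ hP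
    obtain ⟨g₁, hg₁, hg₁n⟩ := hM.ex
    have hex : ∃ g ∈ M, ∃ w, ‖w‖ ≤ 1 ∧ η₀ < dist (g w) (g 0) := by
      have h1 : ∃ z, ¬ Calm η₀ g₁ z := by
        by_contra hcon
        push Not at hcon
        obtain ⟨z, z', hzz⟩ := hg₁n
        exact hzz (calm_const hη₀ hD (hM.sub hg₁) (hM.per g₁ hg₁) hcon z z')
      obtain ⟨z, hz⟩ := h1
      unfold Calm at hz
      push Not at hz
      obtain ⟨w, hw, hd⟩ := hz
      refine ⟨tr z g₁, hM.inv g₁ hg₁ z, w - z, hw, ?_⟩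
      simpa [tr] using hd
    obtain ⟨f₁, hf₁, hf₁a, hcase⟩ := claim_or_calm hE hB hM hR F hk' hη₀ hex
    have hf₁K : f₁ ∈ KA M η₀ 13 := ⟨hf₁, 0, by simp, hf₁a⟩
    have hf₁n : NCst f₁ := ka_ncst hη₀ hf₁K
    refine ⟨f₁, hMsub hf₁, hf₁n, ?_⟩
    rcases hcase with ⟨θ, ε, hSm, V, hV, hV0⟩ | ⟨S, hSc⟩
    · exact case_A hE hB hη₀ hℓ hC₀ hD hS hf₁ hf₁n
        (fam_of_qm hE hB hM hR hSm hf₁ hf₁K hV hV0 hf₁ hf₁n)
    · exact case_B hℓ hS (hM.sub hf₁) (hM.per f₁ hf₁) hSc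
  · push Not at hP
    obtain ⟨g, hg, hPg⟩ := hP
    obtain ⟨c, hc, C', hC', h⟩ := jd_immersed hJ (hM.sub hg) hPg
    obtain ⟨R, hR⟩ := periodic_compact (kk_periodic F hk' hc hC' h)
    refine ⟨g, hMsub hg, ?_, ∅, finite_empty, fun W _ _ => ⟨R, ?_⟩⟩
    · by_contra hcon
      unfold NCst at hcon
      push Not at hcon
      obtain ⟨i, hi⟩ := A.cover (g 0)
      have h1 := (h.2 0 i hi).1
      have h2 : A.loc i g = fun _ => A.ch i (g 0) := by
        funext z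
        simp only [Cha.loc]
        rw [hcon z 0]
      rw [h2, deriv_const, norm_zero] at h1
      linarith
    · rw [← hR]
      exact subset_union_right

end fin

end Pool.Agent.CYL

namespace Pool.Agent.CYL
alias top_cyl := top_cyl_pr
end Pool.Agent.CYL
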