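import Pool.Agent.Lib_helper66.CYL.Base
import Pool.Agent.Lib_helper58.MBS.L.BCMP
import Pool.Agent.Lib_helper58.MBS.L.BMIN
import Pool.Agent.Lib_helper58.MBS.L.BSEQ
import Pool.Agent.Lib_helper58.MBS.L.BLIM
import Pool.Agent.Lib_helper58.MBS.L.BCHT
import Pool.Agent.Lib_helper58.MBS.L.BJET
import Pool.Agent.Lib_helper58.MBS.L.BNC
import Pool.Agent.Lib_helper58.MBS.L.BSMP
import Pool.Agent.Lib_helper58.MBS.L.ALIM
import Pool.Agent.Lib_helper58.MBS.L.AINV
import Pool.Agent.Lib_helper58.MBS.L.CPIM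
import Pool.Agent.Lib_helper58.MBS.L.DLST
import Pool.Agent.Lib_helper58.MBS.L.EUEX
import Pool.Agent.Lib_helper58.MBS.L.ETF
import Pool.Agent.Lib_helper58.MBS.L.FLAT
import Pool.Agent.Lib_helper66.CYL.P.BVIS
import Pool.Agent.Lib_helper66.CYL.P.BBAI
import Pool.Agent.Lib_helper66.CYL.P.BSMC
import Pool.Agent.Lib_helper66.CYL.P.CASM
import Pool.Agent.Lib_helper66.CYL.P.DHH
import Pool.Agent.Lib_helper66.CYL.P.EENT
import Pool.Agent.Lib_helper66.CYL.P.ELIM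
import Pool.Agent.Lib_helper66.CYL.P.EPAR
import Pool.Agent.Lib_helper66.CYL.P.FSTA
import Pool.Agent.Lib_helper66.CYL.P.FCOV
import Pool.Agent.Lib_helper66.CYL.Half

/-! # The cylinder theorem (MP_45e720_ag), block H1: equicontinuity, local form
(the proof of block EQC of the Brody rigidity project with local hypotheses) -/

set_option autoImplicit false
set_option linter.unusedSectionVars false
set_option linter.unusedVariables false

open Filter Topology Metric Set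

namespace Pool.Agent.CYL

open Pool.Agent.BR Pool.Agent.MBS

section half

variable {E X : Type} [NormedAddCommGroup E] [NormedSpace ℂ E] [FiniteDimensional ℂ E]
  [MetricSpace X] [CompactSpace X] {A : Cha E X} {C lam L : ℝ}

/-- the local form -/
theorem h1_local (A : Cha E X) (C ε : ℝ) (hε : 0 < ε) (x₀ : X) : ∃ δ > 0, δ ≤ 1 ∧ ∃ N ∈ 𝓝 x₀, ∀ (g : ℂ → X) (z : ℂ),
    (∀ w ∈ ball z 1, A.HolAt g w ∧ ∀ i, g w ∈ A.W i → ‖deriv (A.loc i g) w‖ ≤ C) →
      ∀ z' : ℂ, g z ∈ N → ‖z - z'‖ < δ → dist (g z) (g z') < ε := by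
  obtain ⟨i, hi⟩ := A.cover x₀
  have hsrc : x₀ ∈ (A.ch i).source := A.W_sub i (subset_closure hi)
  obtain ⟨ξ₀, hξ₀⟩ : ∃ ξ₀, ξ₀ = A.ch i x₀ := ⟨_, rfl⟩
  have hξt : ξ₀ ∈ (A.ch i).target := by rw [hξ₀]; exact (A.ch i).map_source hsrc
  have hsymm : (A.ch i).symm ξ₀ = x₀ := by rw [hξ₀]; exact (A.ch i).left_inv hsrc
  have h1 : ∀ᶠ ξ in 𝓝 ξ₀, ξ ∈ (A.ch i).target ∧ (A.ch i).symm ξ ∈ A.W i ∩ ball x₀ (ε / 2) := by
    have h2 : A.W i ∩ ball x₀ (ε / 2) ∈ 𝓝 ((A.ch i).symm ξ₀) := by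
      rw [hsymm]
      exact inter_mem ((A.W_open i).mem_nhds hi) (ball_mem_nhds _ (by linarith))
    exact ((A.ch i).open_target.eventually_mem hξt).and
      (((A.ch i).continuousAt_symm hξt).eventually h2)
  obtain ⟨η, hη, hη2⟩ := Metric.nhds_basis_closedBall.mem_iff.mp h1
  have hC : 0 < |C| + 1 := by positivity
  refine ⟨min (η / (4 * (|C| + 1))) 1, by positivity, min_le_right _ _,
    {x | x ∈ (A.ch i).source ∧ ‖A.ch i x - ξ₀‖ < η / 2}, ?_, ?_⟩
  · have h3 : ContinuousAt (fun x => ‖A.ch i x - ξ₀‖) x₀ :=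
      (((A.ch i).continuousAt hsrc).sub continuousAt_const).norm
    have h4 : ‖A.ch i x₀ - ξ₀‖ < η / 2 := by
      rw [hξ₀, sub_self, norm_zero]; linarith
    exact ((A.ch i).open_source.eventually_mem hsrc).and (h3.eventually (gt_mem_nhds h4))
  · intro g z hg z' hz hzz0
    have hzz : ‖z - z'‖ < η / (4 * (|C| + 1)) := hzz0.trans_le (min_le_left _ _)
    have hz1' : ‖z' - z‖ < 1 := by
      rw [norm_sub_rev]
      exact hzz0.trans_le (min_le_right _ _)
    have hin : ∀ τ : ℝ, 0 ≤ τ → τ ≤ 1 → z + (τ : ℂ) * (z' - z) ∈ ball z 1 := by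
      intro τ h0 h1
      rw [mem_ball_iff_norm, add_sub_cancel_left, norm_mul, Complex.norm_real,
        Real.norm_of_nonneg h0]
      calc τ * ‖z' - z‖ ≤ 1 * ‖z' - z‖ := mul_le_mul_of_nonneg_right h1 (norm_nonneg _)
        _ < 1 := by rw [one_mul]; exact hz1'
    obtain ⟨hz1, hz2⟩ := hz
    have hL : (|C| + 1) * ‖z' - z‖ ≤ η / 4 := by
      have h5 : ‖z' - z‖ ≤ η / (4 * (|C| + 1)) := by
        rw [norm_sub_rev]; exact hzz.le
      calc (|C| + 1) * ‖z' - z‖ ≤ (|C| + 1) * (η / (4 * (|C| + 1))) :=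
            mul_le_mul_of_nonneg_left h5 hC.le
        _ = η / 4 := by field_simp
    have haff : ∀ τ : ℝ, HasDerivAt (fun σ : ℝ => z + (σ : ℂ) * (z' - z)) (z' - z) τ := by
      intro τ
      have h4 : HasDerivAt (fun σ : ℝ => (σ : ℂ)) 1 τ := Complex.ofRealCLM.hasDerivAt
      have h5 := (h4.mul_const (z' - z)).const_add z
      rwa [one_mul] at h5
    have hcurve := SS.lmb_curve (A.ch i) (fun τ : ℝ => g (z + (τ : ℂ) * (z' - z)))
      (ξ₀ := ξ₀) (ρ := η) (L := (|C| + 1) * ‖z' - z‖)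
      (fun τ hτ => by
        have h4 : ContinuousAt g ((fun σ : ℝ => z + (σ : ℂ) * (z' - z)) τ) :=
          (hg _ (hin τ hτ.1 hτ.2)).1.1
        exact h4.comp (f := fun σ : ℝ => z + (σ : ℂ) * (z' - z)) (haff τ).continuousAt)
      (by positivity) (fun ξ hξ => (hη2 hξ).1)
      (by simpa using hz1)
      (by
        have h4 : (z + ((0 : ℝ) : ℂ) * (z' - z)) = z := by simp
        rw [h4]
        linarith)
      (fun τ hτ hs1 hs2 => by
        have hmem : A.ch i (g (z + (τ : ℂ) * (z' - z))) ∈ closedBall ξ₀ η := by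
          rw [mem_closedBall_iff_norm]; exact hs2
        have hW : g (z + (τ : ℂ) * (z' - z)) ∈ A.W i := by
          have h6 := (hη2 hmem).2.1
          rwa [(A.ch i).left_inv hs1] at h6
        refine ⟨(z' - z) • deriv (A.loc i g) (z + (τ : ℂ) * (z' - z)), ?_, ?_⟩
        · have h4 : HasDerivAt (A.loc i g) (deriv (A.loc i g) (z + (τ : ℂ) * (z' - z)))
              (z + (τ : ℂ) * (z' - z)) := ((hg _ (hin τ hτ.1 hτ.2)).1.2 i hs1).differentiableAt.hasDerivAt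
          exact h4.scomp τ (haff τ)
        · rw [norm_smul, mul_comm]
          apply mul_le_mul_of_nonneg_right _ (norm_nonneg _)
          exact ((hg _ (hin τ hτ.1 hτ.2)).2 i hW).trans ((le_abs_self C).trans (by linarith)))
      1 ⟨zero_le_one, le_rfl⟩
    have e1 : z + ((1 : ℝ) : ℂ) * (z' - z) = z' := by push_cast; ring
    have e0 : z + ((0 : ℝ) : ℂ) * (z' - z) = z := by simp
    simp only [e1, e0, mul_one] at hcurve
    have hnear : ∀ x, x ∈ (A.ch i).source → ‖A.ch i x - ξ₀‖ ≤ η → dist x x₀ < ε / 2 := by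
      intro x hx1 hx2
      have hmem : A.ch i x ∈ closedBall ξ₀ η := by
        rw [mem_closedBall_iff_norm]; exact hx2
      have h6 := (hη2 hmem).2.2
      rw [(A.ch i).left_inv hx1] at h6
      exact h6
    have hz'2 : ‖A.ch i (g z') - ξ₀‖ ≤ η := by
      calc ‖A.ch i (g z') - ξ₀‖ = ‖(A.ch i (g z') - A.ch i (g z)) + (A.ch i (g z) - ξ₀)‖ := by
            congr 1; abel
        _ ≤ ‖A.ch i (g z') - A.ch i (g z)‖ + ‖A.ch i (g z) - ξ₀‖ := norm_add_le _ _
        _ ≤ η := by linarith [hcurve.2]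
    have d1 := hnear _ hz1 (by linarith)
    have d2 := hnear _ hcurve.1 hz'2
    calc dist (g z) (g z') ≤ dist (g z) x₀ + dist x₀ (g z') := dist_triangle _ _ _
      _ = dist (g z) x₀ + dist (g z') x₀ := by rw [dist_comm x₀]
      _ < ε := by linarith

theorem equicont_loc_pr (A : Cha E X) (C ε : ℝ) (hε : 0 < ε) :
    ∃ δ > 0, δ ≤ 1 ∧ ∀ (g : ℂ → X) (z : ℂ),
      (∀ w ∈ ball z 1, A.HolAt g w ∧ ∀ i, g w ∈ A.W i → ‖deriv (A.loc i g) w‖ ≤ C) →
        ∀ z', ‖z - z'‖ < δ → dist (g z) (g z') < ε := by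
  have h := isCompact_univ.induction_on (s := (univ : Set X))
    (p := fun s => ∃ δ > 0, δ ≤ 1 ∧ ∀ (g : ℂ → X) (z : ℂ),
      (∀ w ∈ ball z 1, A.HolAt g w ∧ ∀ i, g w ∈ A.W i → ‖deriv (A.loc i g) w‖ ≤ C) →
        ∀ z' : ℂ, g z ∈ s → ‖z - z'‖ < δ → dist (g z) (g z') < ε)
    ⟨1, one_pos, le_rfl, fun g z _ z' hz _ => absurd hz (notMem_empty _)⟩
    (fun s t hst ⟨δ, hδ, h1, h⟩ => ⟨δ, hδ, h1, fun g z hg z' hz => h g z hg z' (hst hz)⟩)
    (fun s t ⟨δ, hδ, h1, h⟩ ⟨δ', hδ', h1', h'⟩ => ⟨min δ δ', lt_min hδ hδ',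
      (min_le_left _ _).trans h1, fun g z hg z' hz hzz => by
      rcases hz with hz | hz
      · exact h g z hg z' hz (hzz.trans_le (min_le_left _ _))
      · exact h' g z hg z' hz (hzz.trans_le (min_le_right _ _))⟩)
    (fun x _ => by
      obtain ⟨δ, hδ, h1, N, hN, h⟩ := h1_local A C ε hε x
      exact ⟨N, mem_nhdsWithin_of_mem_nhds hN, δ, hδ, h1, h⟩)
  obtain ⟨δ, hδ, h1, h⟩ := h
  exact ⟨δ, hδ, h1, fun g z hg z' hzz => h g z hg z' (mem_univ _) hzz⟩

end half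

end Pool.Agent.CYL

namespace Pool.Agent.CYL
alias equicont_loc := equicont_loc_pr
end Pool.Agent.CYL
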