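import Pool.Agent.Lib_helper66.CYL.Base
import Pool.Agent.Lib_helper58.MBS.L.BCMP
import Pool.Agent.Lib_helper58.MBS.L.BMIN
import Pool.Agent.Lib_helper58.MBS.L.BSEQ
import Pool.Agent.Lib_helper58.MBS.L.BLIM
import Pool.Agent.Lib_helper58.MBS.L.BCHT
import Pool.Agent.Lib_helper58.MBS.L.BJET
import Pool.Agent.Lib_helper58.MBS.L.BNC
import Pool.Agent.Lib_helper58.MBS.L.BSMP
import Pool.Agent.Lib_helper58.MBS.L.ALIM
import Pool.Agent.Lib_helper58.MBS.L.AINV
import Pool.Agent.Lib_helper58.MBS.L.CPIM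
import Pool.Agent.Lib_helper58.MBS.L.DLST
import Pool.Agent.Lib_helper58.MBS.L.EUEX
import Pool.Agent.Lib_helper58.MBS.L.ETF
import Pool.Agent.Lib_helper58.MBS.L.FLAT
import Pool.Agent.Lib_helper66.CYL.P.BVIS
import Pool.Agent.Lib_helper66.CYL.P.BBAI
import Pool.Agent.Lib_helper66.CYL.P.BSMC
import Pool.Agent.Lib_helper66.CYL.P.CASM
import Pool.Agent.Lib_helper66.CYL.P.DHH
import Pool.Agent.Lib_helper66.CYL.P.EENT
import Pool.Agent.Lib_helper66.CYL.P.ELIM
import Pool.Agent.Lib_helper66.CYL.P.EPAR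
import Pool.Agent.Lib_helper66.CYL.P.FSTA
import Pool.Agent.Lib_helper66.CYL.P.FCOV
import Pool.Agent.Lib_helper66.CYL.Half
import Pool.Agent.Lib_helper66.CYL.N.H1

/-! # The cylinder theorem (MP_45e720_ag), block H2: the limit set of a curve on a half-plane -/

set_option autoImplicit false
set_option linter.unusedSectionVars false
set_option linter.unusedVariables false

open Filter Topology Metric Set

namespace Pool.Agent.CYL

open Pool.Agent.BR Pool.Agent.MBS

section half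

variable {E X : Type} [NormedAddCommGroup E] [NormedSpace ℂ E] [FiniteDimensional ℂ E]
  [MetricSpace X] [CompactSpace X] {A : Cha E X} {C lam L : ℝ}

theorem h2_hol {f : ℂ → X} (hf : HB A C f) {z w : ℂ} (h : (z + w).re < 0) :
    A.HolAt (tr w f) z ∧ ∀ i, tr w f z ∈ A.W i → ‖deriv (A.loc i (tr w f)) z‖ ≤ C := by
  refine ⟨?_, fun i hi => ?_⟩
  · have h0 := hf.hol (z + w) h
    have h1 : ContinuousAt (fun z : ℂ => z + w) z := by fun_prop
    refine ⟨ContinuousAt.comp (f := fun z : ℂ => z + w) (x := z) h0.1 h1, fun i hi => ?_⟩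
    have h2 : AnalyticAt ℂ (A.loc i f) ((fun z : ℂ => z + w) z) := h0.2 i hi
    exact h2.comp (f := fun z : ℂ => z + w) (by fun_prop)
  · have h1 : deriv (A.loc i (tr w f)) z = deriv (A.loc i f) (z + w) :=
      deriv_comp_add_const (f := A.loc i f) w z
    rw [h1]
    exact hf.bd (z + w) h i hi

theorem h2_ev {κ : Type} {U : Filter κ} {z : κ → ℂ} (hz : Tendsto (fun n => (z n).re) U atBot)
    (R : ℝ) : ∀ᶠ n in U, ∀ t : ℂ, ‖t‖ < R → (t + z n).re < 0 := by
  filter_upwards [hz.eventually (eventually_lt_atBot (-R))] with n hn t ht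
  have h1 : t.re ≤ ‖t‖ := Complex.re_le_norm t
  rw [Complex.add_re]
  linarith

/-- limits along an ultrafilter -/
theorem h2_core {f : ℂ → X} (hf : HB A C f) {κ : Type} (U : Ultrafilter κ) {z : κ → ℂ}
    (hz : Tendsto (fun n => (z n).re) U atBot) :
    ∃ g ∈ BF A C, Tendsto (fun n => tr (z n) f) U (𝓝 g) := by
  have h1 : ∀ R : ℝ, ∀ᶠ n in (U : Filter κ), ∀ t ∈ ball (0 : ℂ) R, A.HolAt (tr (z n) f) t ∧
      ∀ i, tr (z n) f t ∈ A.W i → ‖deriv (A.loc i (tr (z n) f)) t‖ ≤ C := by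
    intro R
    filter_upwards [h2_ev hz R] with n hn t ht
    rw [mem_ball_zero_iff] at ht
    exact h2_hol hf (hn t ht)
  obtain ⟨g, hg⟩ := ultra_lim A U (fun n => tr (z n) f) C h1
  refine ⟨g, ⟨fun t => (hg t).1, fun t i hi => ?_⟩, tendsto_pi_nhds.2 fun t => (hg t).2.1⟩
  have h3 := ((hg t).2.2 i (A.W_sub i (subset_closure hi))).norm
  refine le_of_tendsto h3 ?_
  have h4 : ∀ᶠ n in (U : Filter κ), tr (z n) f t ∈ A.W i :=
    (hg t).2.1.eventually ((A.W_open i).mem_nhds hi)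
  filter_upwards [h4, h1 (‖t‖ + 1)] with n h5 h6
  exact (h6 t (by rw [mem_ball_zero_iff]; linarith)).2 i h5

theorem h2_mem {f g : ℂ → X} {κ : Type} {U : Filter κ} [U.NeBot] {z : κ → ℂ}
    (hz : Tendsto (fun n => (z n).re) U atBot) (hg : Tendsto (fun n => tr (z n) f) U (𝓝 g)) :
    g ∈ Lam f := by
  intro n
  refine mem_closure_of_tendsto hg ?_
  filter_upwards [hz.eventually (eventually_lt_atBot (-(n : ℝ)))] with m hm
  exact ⟨z m, hm, rfl⟩

/-- every member of `Lam f` is a limit along an ultrafilter -/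
theorem h2_ultra {f g : ℂ → X} (hg : g ∈ Lam f) : ∃ U : Ultrafilter ℂ,
    Tendsto (fun w : ℂ => w.re) U atBot ∧ Tendsto (fun w => tr w f) U (𝓝 g) := by
  have hne : (comap (fun w : ℂ => tr w f) (𝓝 g) ⊓ comap Complex.re atBot).NeBot := by
    rw [inf_neBot_iff]
    intro s hs s' hs'
    obtain ⟨V, hV, hVs⟩ := mem_comap.1 hs
    obtain ⟨B, hB, hBs⟩ := mem_comap.1 hs'
    obtain ⟨b, hb⟩ := mem_atBot_sets.1 hB
    obtain ⟨n, hn⟩ := exists_nat_gt (-b)
    obtain ⟨v, hv1, ⟨w, hw, hwv⟩⟩ := mem_closure_iff_nhds.1 (hg n) V hV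
    refine ⟨w, hVs ?_, hBs ?_⟩
    · show tr w f ∈ V
      have : tr w f = v := hwv
      rw [this]; exact hv1
    · apply hb
      have : w.re < -(n : ℝ) := hw
      show w.re ≤ b
      linarith
  refine ⟨Ultrafilter.of (comap (fun w : ℂ => tr w f) (𝓝 g) ⊓ comap Complex.re atBot), ?_, ?_⟩
  · exact (tendsto_comap.mono_left inf_le_right).mono_left (Ultrafilter.of_le _)
  · exact (tendsto_comap.mono_left inf_le_left).mono_left (Ultrafilter.of_le _)

/-- block H2: limits along an ultrafilter -/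
theorem lam_lim_pr {f : ℂ → X} (hf : HB A C f) {κ : Type} (U : Ultrafilter κ) {z : κ → ℂ}
    (hz : Tendsto (fun n => (z n).re) U atBot) :
    ∃ g ∈ Lam f, Tendsto (fun n => tr (z n) f) U (𝓝 g) ∧
      ∀ (w : κ → ℂ) (w₀ : ℂ), Tendsto w U (𝓝 w₀) → Tendsto (fun n => f (z n + w n)) U (𝓝 (g w₀)) := by
  obtain ⟨g, -, hg⟩ := h2_core hf U hz
  refine ⟨g, h2_mem hz hg, hg, fun w w₀ hw => ?_⟩
  have h0 : Tendsto (fun n => f (z n + w₀)) U (𝓝 (g w₀)) := by
    have h1 := (tendsto_pi_nhds.1 hg) w₀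
    refine h1.congr fun n => ?_
    show f (w₀ + z n) = _
    rw [add_comm]
  rw [Metric.tendsto_nhds]
  intro ε hε
  obtain ⟨δ, hδ, -, hδ2⟩ := equicont_loc A C (ε / 2) (half_pos hε)
  have e1 := (Metric.tendsto_nhds.1 h0) (ε / 2) (half_pos hε)
  have e2 := (Metric.tendsto_nhds.1 hw) δ hδ
  filter_upwards [e1, e2, h2_ev hz (‖w₀‖ + 1)] with n h1 h2 h3
  have h4 := hδ2 f (z n + w₀) (fun v hv => by
    have hv' : (v - z n + z n).re < 0 := by
      apply h3
      rw [mem_ball_iff_norm] at hv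
      calc ‖v - z n‖ = ‖(v - (z n + w₀)) + w₀‖ := by congr 1; ring
        _ ≤ ‖v - (z n + w₀)‖ + ‖w₀‖ := norm_add_le _ _
        _ < ‖w₀‖ + 1 := by linarith
    rw [sub_add_cancel] at hv'
    exact ⟨hf.hol v hv', fun i hi => hf.bd v hv' i hi⟩) (z n + w n) (by
      rw [dist_eq_norm] at h2
      calc ‖z n + w₀ - (z n + w n)‖ = ‖w n - w₀‖ := by
            rw [← norm_neg]; congr 1; ring
        _ < δ := h2)
  calc dist (f (z n + w n)) (g w₀) ≤ dist (f (z n + w n)) (f (z n + w₀)) +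
        dist (f (z n + w₀)) (g w₀) := dist_triangle _ _ _
    _ < ε / 2 + ε / 2 := by
        rw [dist_comm (f (z n + w n))]
        exact add_lt_add h4 h1
    _ = ε := add_halves ε

/-- block H2 -/
theorem lam_bf_pr {f : ℂ → X} (hf : HB A C f) : Lam f ⊆ BF A C := by
  intro g hg
  obtain ⟨U, hU1, hU2⟩ := h2_ultra hg
  obtain ⟨g', hg', hU3⟩ := h2_core hf U (z := fun w => w) hU1
  have : g = g' := tendsto_nhds_unique hU2 hU3
  rw [this]
  exact hg'

/-- block H2 -/
theorem lam_per_pr {f : ℂ → X} (hf : HB A C f) : ∀ g ∈ Lam f, Per g := by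
  intro g hg z
  obtain ⟨U, hU1, hU2⟩ := h2_ultra hg
  have h1 := (tendsto_pi_nhds.1 hU2) (z + tpi)
  have h2 := (tendsto_pi_nhds.1 hU2) z
  refine tendsto_nhds_unique h1 (h2.congr' ?_)
  filter_upwards [h2_ev (z := fun w => w) hU1 (‖z‖ + 1)] with w hw
  have h3 := hf.per (z + w) (hw z (by linarith))
  show f (z + w) = f (z + tpi + w)
  rw [← h3]
  congr 1
  ring

/-- block H2 -/
theorem lam_closed_pr (f : ℂ → X) : IsClosed (Lam f) := by
  have : Lam f = ⋂ n : ℕ, closure ((fun w => tr w f) '' {w : ℂ | w.re < -n}) := by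
    ext g
    rw [mem_iInter]
    rfl
  rw [this]
  exact isClosed_iInter fun n => isClosed_closure

/-- block H2 -/
theorem lam_inv_pr (f : ℂ → X) : ∀ g ∈ Lam f, ∀ w, tr w g ∈ Lam f := by
  intro g hg w n
  obtain ⟨m, hm⟩ := exists_nat_gt (n + w.re)
  have hc : Continuous (tr w : (ℂ → X) → (ℂ → X)) :=
    continuous_pi fun z => continuous_apply (z + w)
  have h1 := image_closure_subset_closure_image hc ⟨g, hg m, rfl⟩
  refine closure_mono ?_ h1
  rintro _ ⟨_, ⟨v, hv, rfl⟩, rfl⟩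
  refine ⟨w + v, ?_, ?_⟩
  · have hv' : v.re < -(m : ℝ) := hv
    show (w + v).re < -(n : ℝ)
    rw [Complex.add_re]
    linarith
  · funext z
    simp only [tr]
    rw [add_assoc]

end half

end Pool.Agent.CYL

namespace Pool.Agent.CYL
alias lam_lim := lam_lim_pr
alias lam_bf := lam_bf_pr
alias lam_per := lam_per_pr
alias lam_closed := lam_closed_pr
alias lam_inv := lam_inv_pr
end Pool.Agent.CYL
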