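import Pool.Agent.Lib_helper66.CYL.Base
import Pool.Agent.Lib_helper58.MBS.L.BCMP
import Pool.Agent.Lib_helper58.MBS.L.BMIN
import Pool.Agent.Lib_helper58.MBS.L.BSEQ
import Pool.Agent.Lib_helper58.MBS.L.BLIM
import Pool.Agent.Lib_helper58.MBS.L.BCHT
import Pool.Agent.Lib_helper58.MBS.L.BJET
import Pool.Agent.Lib_helper58.MBS.L.BNC
import Pool.Agent.Lib_helper58.MBS.L.BSMP
import Pool.Agent.Lib_helper58.MBS.L.ALIM
import Pool.Agent.Lib_helper58.MBS.L.AINV
import Pool.Agent.Lib_helper58.MBS.L.CPIM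
import Pool.Agent.Lib_helper58.MBS.L.DLST
import Pool.Agent.Lib_helper58.MBS.L.EUEX
import Pool.Agent.Lib_helper58.MBS.L.ETF
import Pool.Agent.Lib_helper58.MBS.L.FLAT
import Pool.Agent.Lib_helper66.CYL.P.BVIS
import Pool.Agent.Lib_helper66.CYL.P.BBAI
import Pool.Agent.Lib_helper66.CYL.P.BSMC
import Pool.Agent.Lib_helper66.CYL.P.CASM
import Pool.Agent.Lib_helper66.CYL.P.DHH
import Pool.Agent.Lib_helper66.CYL.P.EENT
import Pool.Agent.Lib_helper66.CYL.P.ELIM
import Pool.Agent.Lib_helper66.CYL.P.EPAR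
import Pool.Agent.Lib_helper66.CYL.P.FSTA
import Pool.Agent.Lib_helper66.CYL.P.FCOV
import Pool.Agent.Lib_helper66.CYL.Half
import Pool.Agent.Lib_helper66.CYL.N.H1
import Pool.Agent.Lib_helper66.CYL.N.H2

/-! # The cylinder theorem (MP_45e720_ag), block H3: sequences -/

set_option autoImplicit false
set_option linter.unusedSectionVars false
set_option linter.unusedVariables false

open Filter Topology Metric Set

namespace Pool.Agent.CYL

open Pool.Agent.BR Pool.Agent.MBS

section half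

variable {E X : Type} [NormedAddCommGroup E] [NormedSpace ℂ E] [FiniteDimensional ℂ E]
  [MetricSpace X] [CompactSpace X] {A : Cha E X} {C lam L : ℝ}

/-- H3: limits of translates are limits of sequences of translates -/
theorem lam_seq_pr {f g : ℂ → X} (hf : HB A C f) (hg : g ∈ Lam f) :
    ∃ z : ℕ → ℂ, (∀ n, (z n).re < -n) ∧
      ∀ w, Tendsto (fun n => f (z n + w)) atTop (𝓝 (g w)) := by
  have hgB := lam_bf hf hg
  have key : ∀ n : ℕ, ∃ z : ℂ, z.re < -n ∧ ∀ w : ℂ, ‖w‖ ≤ n →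
      dist (f (z + w)) (g w) < 1 / ((n : ℝ) + 1) := by
    intro n
    have hε : (0 : ℝ) < 1 / ((n : ℝ) + 1) / 3 := by positivity
    obtain ⟨δ, hδ, hδ1, h1⟩ := equicont_loc A C (1 / ((n : ℝ) + 1) / 3) hε
    obtain ⟨t, htn, htf, hcov⟩ := (isCompact_closedBall (0 : ℂ) n).finite_cover_balls hδ
    have hO : {h : ℂ → X | ∀ w ∈ t, dist (h w) (g w) < 1 / ((n : ℝ) + 1) / 3} ∈ 𝓝 g := by
      have h2 : ∀ᶠ h : ℂ → X in 𝓝 g, ∀ w ∈ t, dist (h w) (g w) < 1 / ((n : ℝ) + 1) / 3 :=
        (Filter.eventually_all_finite htf).2 fun w _ =>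
          (Metric.tendsto_nhds.1 ((continuous_apply w).tendsto g)) _ hε
      exact h2
    obtain ⟨h, hh1, hh2⟩ := mem_closure_iff_nhds.1 (hg (2 * n + 2)) _ hO
    obtain ⟨z, hz, rfl⟩ := hh2
    have hz' : z.re < -(2 * n + 2) := by
      have : z.re < -((2 * n + 2 : ℕ) : ℝ) := hz
      push_cast at this
      exact this
    have hn0 : (0 : ℝ) ≤ n := Nat.cast_nonneg n
    refine ⟨z, by linarith, fun w hw => ?_⟩
    have hw1 : w ∈ closedBall (0 : ℂ) n := by simpa using hw
    obtain ⟨w', hw', hww⟩ : ∃ w' ∈ t, w ∈ ball w' δ := by simpa using hcov hw1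
    have hww1 : ‖w - w'‖ < δ := by rwa [mem_ball_iff_norm] at hww
    have d1 := h1 f (w + z) (fun u hu => by
      have hu1 : ‖u - (w + z)‖ < 1 := by rwa [mem_ball_iff_norm] at hu
      have h3 := Complex.abs_re_le_norm (u - (w + z))
      rw [Complex.sub_re, Complex.add_re] at h3
      have h4 := le_abs_self (u.re - (w.re + z.re))
      have h5 := Complex.abs_re_le_norm w
      have h6 := le_abs_self w.re
      have h7 : u.re < 0 := by linarith
      exact ⟨hf.hol u h7, hf.bd u h7⟩) (w' + z) (by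
        rw [add_sub_add_right_eq_sub]
        exact hww1)
    have d2 := hh1 w' hw'
    have d3 := h1 g w (fun u _ => ⟨hgB.1 u, hgB.2 u⟩) w' hww1
    have d2' : dist (f (w' + z)) (g w') < 1 / ((n : ℝ) + 1) / 3 := d2
    rw [add_comm z w]
    calc dist (f (w + z)) (g w) ≤ dist (f (w + z)) (f (w' + z)) + dist (f (w' + z)) (g w') +
        dist (g w') (g w) := dist_triangle4 _ _ _ _
      _ < 1 / ((n : ℝ) + 1) := by
        rw [dist_comm (g w') (g w)]
        linarith
  choose z hz1 hz2 using key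
  refine ⟨z, hz1, fun w => ?_⟩
  rw [tendsto_iff_dist_tendsto_zero]
  refine squeeze_zero' (Eventually.of_forall fun n => dist_nonneg) ?_
    tendsto_one_div_add_atTop_nhds_zero_nat
  obtain ⟨N, hN⟩ := exists_nat_ge ‖w‖
  filter_upwards [eventually_ge_atTop N] with n hn
  have h1 : ‖w‖ ≤ n := hN.trans (by exact_mod_cast hn)
  exact (hz2 n w h1).le

end half

end Pool.Agent.CYL

namespace Pool.Agent.CYL
alias lam_seq := lam_seq_pr
end Pool.Agent.CYL
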