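import Pool.Agent.Lib_helper66.CYL.Base
import Pool.Agent.Lib_helper58.MBS.L.BCMP
import Pool.Agent.Lib_helper58.MBS.L.BMIN
import Pool.Agent.Lib_helper58.MBS.L.BSEQ
import Pool.Agent.Lib_helper58.MBS.L.BLIM
import Pool.Agent.Lib_helper58.MBS.L.BCHT
import Pool.Agent.Lib_helper58.MBS.L.BJET
import Pool.Agent.Lib_helper58.MBS.L.BNC
import Pool.Agent.Lib_helper58.MBS.L.BSMP
import Pool.Agent.Lib_helper58.MBS.L.ALIM
import Pool.Agent.Lib_helper58.MBS.L.AINV
import Pool.Agent.Lib_helper58.MBS.L.CPIM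
import Pool.Agent.Lib_helper58.MBS.L.DLST
import Pool.Agent.Lib_helper58.MBS.L.EUEX
import Pool.Agent.Lib_helper58.MBS.L.ETF
import Pool.Agent.Lib_helper58.MBS.L.FLAT
import Pool.Agent.Lib_helper66.CYL.P.BVIS
import Pool.Agent.Lib_helper66.CYL.P.BBAI
import Pool.Agent.Lib_helper66.CYL.P.BSMC
import Pool.Agent.Lib_helper66.CYL.P.CASM
import Pool.Agent.Lib_helper66.CYL.P.DHH
import Pool.Agent.Lib_helper66.CYL.P.EENT
import Pool.Agent.Lib_helper66.CYL.P.ELIM
import Pool.Agent.Lib_helper66.CYL.P.EPAR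
import Pool.Agent.Lib_helper66.CYL.P.FSTA
import Pool.Agent.Lib_helper66.CYL.P.FCOV
import Pool.Agent.Lib_helper66.CYL.Half

/-! # The cylinder theorem (MP_45e720_ag), block H6: the extension over the puncture -/

set_option autoImplicit false
set_option linter.unusedSectionVars false
set_option linter.unusedVariables false

open Filter Topology Metric Set

namespace Pool.Agent.CYL

open Pool.Agent.BR Pool.Agent.MBS

section half

variable {E X : Type} [NormedAddCommGroup E] [NormedSpace ℂ E] [FiniteDimensional ℂ E]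
  [MetricSpace X] [CompactSpace X] {A : Cha E X} {C lam L : ℝ}

theorem h6_tpi_re (n : ℤ) (z : ℂ) : (z + n * tpi).re = z.re := by
  simp [tpi]

theorem h6_nat {f : ℂ → X} (hf : HB A C f) (n : ℕ) (z : ℂ) (hz : z.re < 0) :
    f (z + n * tpi) = f z := by
  induction n with
  | zero => simp
  | succ n ih =>
    have h1 : (z + n * tpi).re < 0 := by
      have := h6_tpi_re (n : ℤ) z
      rw [Int.cast_natCast] at this
      rwa [this]
    have h2 := hf.per _ h1
    rw [← ih, ← h2]
    congr 1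
    push_cast
    ring

theorem h6_int {f : ℂ → X} (hf : HB A C f) (n : ℤ) (z : ℂ) (hz : z.re < 0) :
    f (z + n * tpi) = f z := by
  obtain ⟨m, rfl | rfl⟩ := n.eq_nat_or_neg
  · simpa using h6_nat hf m z hz
  · have h1 : (z + ((-(m : ℤ) : ℤ) : ℂ) * tpi).re < 0 := by
      rw [h6_tpi_re]
      exact hz
    have h2 := h6_nat hf m _ h1
    rw [← h2]
    congr 1
    push_cast
    ring

/-- block H6 -/
theorem ext_half_exp_pr {f : ℂ → X} (hf : HB A C f) (c : X) (z : ℂ) (hz : z.re < 0) :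
    ext f c (Complex.exp z) = f z := by
  unfold ext
  rw [if_neg (Complex.exp_ne_zero z)]
  obtain ⟨n, hn⟩ := Complex.exp_eq_exp_iff_exists_int.mp
    (Complex.exp_log (Complex.exp_ne_zero z))
  rw [hn]
  exact h6_int hf n z hz

theorem h6_congr {g h : ℂ → X} {z : ℂ} (hgh : g =ᶠ[𝓝 z] h) (hh : A.HolAt h z) : A.HolAt g z := by
  refine ⟨hh.1.congr hgh.symm, fun i hi => ?_⟩
  rw [hgh.eq_of_nhds] at hi
  refine (hh.2 i hi).congr ?_
  filter_upwards [hgh] with w hw
  simp only [Cha.loc, hw]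

theorem h6_comp {g : ℂ → X} {l : ℂ → ℂ} {z : ℂ} (hl : AnalyticAt ℂ l z) (hg : A.HolAt g (l z)) :
    A.HolAt (fun w => g (l w)) z := by
  refine ⟨ContinuousAt.comp (f := l) (g := g) hg.1 hl.continuousAt, fun i hi => ?_⟩
  exact (hg.2 i hi).comp hl

theorem h6_punct {f : ℂ → X} (hf : HB A C f) (c : X) {ξ : ℂ} (hξ : ξ ≠ 0) (h1 : ‖ξ‖ < 1) :
    A.HolAt (ext f c) ξ := by
  have hl : AnalyticAt ℂ (fun w : ℂ => Complex.log ξ + Complex.log (w / ξ)) ξ := by
    have h1 : AnalyticAt ℂ (fun w : ℂ => w / ξ) ξ := analyticAt_id.div analyticAt_const hξ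
    refine analyticAt_const.add (h1.clog ?_)
    rw [div_self hξ]
    exact Complex.one_mem_slitPlane
  have hre : ∀ w : ℂ, w ≠ 0 → ‖w‖ < 1 →
      (Complex.log ξ + Complex.log (w / ξ)).re < 0 := by
    intro w hw hw1
    rw [Complex.add_re, Complex.log_re, Complex.log_re, norm_div,
      Real.log_div (norm_ne_zero_iff.2 hw) (norm_ne_zero_iff.2 hξ)]
    have := Real.log_neg (norm_pos_iff.2 hw) hw1
    linarith
  have hev : ext f c =ᶠ[𝓝 ξ] fun w => f (Complex.log ξ + Complex.log (w / ξ)) := by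
    filter_upwards [isOpen_ne.mem_nhds hξ,
      (isOpen_lt continuous_norm continuous_const).mem_nhds h1] with w hw hw1
    rw [← ext_half_exp_pr hf c (Complex.log ξ + Complex.log (w / ξ)) (hre w hw hw1),
      Complex.exp_add, Complex.exp_log hξ, Complex.exp_log (div_ne_zero hw hξ),
      mul_div_cancel₀ _ hξ]
  exact h6_congr hev (h6_comp hl (hf.hol _ (hre ξ hξ h1)))

/-- block H6: the extension over the puncture -/
theorem ext_half_pr {f : ℂ → X} (hf : HB A C f) {c : X}
    (hc : Tendsto f (comap Complex.re atBot) (𝓝 c)) : ∀ ξ, ‖ξ‖ < 1 → A.HolAt (ext f c) ξ := by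
  intro ξ h1
  rcases eq_or_ne ξ 0 with rfl | hξ
  swap
  · exact h6_punct hf c hξ h1
  have h0 : ext f c 0 = c := by unfold ext; rw [if_pos rfl]
  have hcont : ContinuousAt (ext f c) 0 := by
    rw [continuousAt_iff_punctured_nhds, h0]
    have h1 : Tendsto Complex.log (𝓝[≠] (0:ℂ)) (comap Complex.re atBot) := by
      rw [tendsto_comap_iff]
      have h2 : Complex.re ∘ Complex.log = fun w : ℂ => Real.log ‖w‖ := by
        funext w
        simp [Complex.log_re]
      rw [h2]
      exact Real.tendsto_log_nhdsGT_zero.comp tendsto_norm_nhdsNE_zero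
    refine (hc.comp h1).congr' ?_
    filter_upwards [self_mem_nhdsWithin] with w hw
    have hw' : w ≠ 0 := hw
    unfold ext
    rw [if_neg hw']
    rfl
  refine ⟨hcont, fun i hi => ?_⟩
  have : CompleteSpace E := FiniteDimensional.complete ℂ E
  refine Complex.analyticAt_of_differentiable_on_punctured_nhds_of_continuousAt ?_ ?_
  · have h3 : ∀ᶠ w in 𝓝 (0:ℂ), ext f c w ∈ (A.ch i).source :=
      hcont.eventually ((A.ch i).open_source.mem_nhds hi)
    have h4 : ∀ᶠ w in 𝓝 (0:ℂ), ‖w‖ < 1 :=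
      (isOpen_lt continuous_norm continuous_const).mem_nhds h1
    filter_upwards [self_mem_nhdsWithin, mem_nhdsWithin_of_mem_nhds h3,
      mem_nhdsWithin_of_mem_nhds h4] with w hw hw2 hw3
    exact ((h6_punct hf c hw hw3).2 i hw2).differentiableAt
  · exact ((A.ch i).continuousAt hi).comp hcont

end half

end Pool.Agent.CYL

namespace Pool.Agent.CYL
alias ext_half := ext_half_pr
alias ext_half_exp := ext_half_exp_pr
end Pool.Agent.CYL
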