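import Pool.Agent.Lib_helper66.CYL.Base
import Pool.Agent.Lib_helper58.MBS.L.BCMP
import Pool.Agent.Lib_helper58.MBS.L.BMIN
import Pool.Agent.Lib_helper58.MBS.L.BSEQ
import Pool.Agent.Lib_helper58.MBS.L.BLIM
import Pool.Agent.Lib_helper58.MBS.L.BCHT
import Pool.Agent.Lib_helper58.MBS.L.BJET
import Pool.Agent.Lib_helper58.MBS.L.BNC
import Pool.Agent.Lib_helper58.MBS.L.BSMP
import Pool.Agent.Lib_helper58.MBS.L.ALIM
import Pool.Agent.Lib_helper58.MBS.L.AINV
import Pool.Agent.Lib_helper58.MBS.L.CPIM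
import Pool.Agent.Lib_helper58.MBS.L.DLST
import Pool.Agent.Lib_helper58.MBS.L.EUEX
import Pool.Agent.Lib_helper58.MBS.L.ETF
import Pool.Agent.Lib_helper58.MBS.L.FLAT
import Pool.Agent.Lib_helper66.CYL.P.BVIS
import Pool.Agent.Lib_helper66.CYL.P.BBAI
import Pool.Agent.Lib_helper66.CYL.P.BSMC
import Pool.Agent.Lib_helper66.CYL.P.CASM
import Pool.Agent.Lib_helper66.CYL.P.DHH
import Pool.Agent.Lib_helper66.CYL.P.EENT
import Pool.Agent.Lib_helper66.CYL.P.ELIM
import Pool.Agent.Lib_helper66.CYL.P.EPAR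
import Pool.Agent.Lib_helper66.CYL.P.FSTA
import Pool.Agent.Lib_helper66.CYL.P.FCOV
import Pool.Agent.Lib_helper66.CYL.Half
import Pool.Agent.Lib_helper66.CYL.Notions
import Pool.Agent.Lib_helper82.BR.Final
import Pool.Agent.Lib_helper58.MBS.L.FBLI
import Pool.Agent.Lib_helper58.MBS.L.FJDI
import Pool.Agent.Lib_helper58.MBS.L.FMET
import Pool.Agent.Lib_helper66.CYL.N.F9
import Pool.Agent.Lib_helper66.CYL.N.H2
import Pool.Agent.Lib_helper66.CYL.N.H3
import Pool.Agent.Lib_helper66.CYL.N.H5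
import Pool.Agent.Lib_helper66.CYL.N.H6

/-! # Cylinder theorem: the punctured disc, final assembly -/

set_option autoImplicit false
set_option linter.unusedSectionVars false
set_option linter.unusedVariables false

open Filter Topology Metric Set
open scoped Manifold ContDiff

namespace Pool.Agent.CYL

open Pool.Agent.BR Pool.Agent.MBS

section half

variable {E X : Type} [NormedAddCommGroup E] [NormedSpace ℂ E] [FiniteDimensional ℂ E]
  [MetricSpace X] [CompactSpace X] {A : Cha E X} {C lam L : ℝ} {k : ℕ}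

/-- the theorem on the half-plane in the charts -/
theorem top_half_pr (hE : Module.finrank ℂ E = 2) (hB : BLip A lam L) {N k' : ℕ}
    (F : A.Frm N k') (hk' : 0 < k') {m : ℕ} {P : (ℂ → X) → ℂ}
    {Q : A.ι → (Fin (k + 1) → E) → ℂ} (hJ : JD A k m P Q) {f : ℂ → X} (hf : HB A C f) :
    (∃ c, Tendsto f (comap Complex.re atBot) (𝓝 c)) ∨
      ∃ g ∈ Lam f, NCst g ∧ Small g (range g) := by
  by_cases h : ∀ g ∈ Lam f, ¬ NCst g
  · exact Or.inl (lam_const hB hf h)
  · right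
    push Not at h
    obtain ⟨g₀, hg₀, hn⟩ := h
    obtain ⟨g, hg, hgn, hgs⟩ := top_cyl hE hB F hk' hJ (lam_bf hf hg₀) (lam_per hf g₀ hg₀) hn
    refine ⟨g, ?_, hgn, hgs⟩
    refine closure_minimal ?_ (lam_closed f) hg
    rintro _ ⟨w, rfl⟩
    exact lam_inv f g₀ hg₀ w

end half

section metric

variable {E X : Type} [NormedAddCommGroup E] [NormedSpace ℂ E] [FiniteDimensional ℂ E]

section loc

variable [MetricSpace X] [CompactSpace X] [ChartedSpace E X] [IsManifold 𝓘(ℂ, E) ω X]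

/-- holomorphic maps on an open set -/
theorem top_hol (A : Cha E X) (hA : ∀ i, ∃ y, A.ch i = chartAt E y) (f : ℂ → X) {O : Set ℂ}
    (hO : IsOpen O) (h : ∀ t ∈ O, MDifferentiableAt 𝓘(ℂ, ℂ) 𝓘(ℂ, E) f t) {t : ℂ} (ht : t ∈ O) :
    A.HolAt f t := by
  have : IsManifold 𝓘(ℂ, E) 1 X := IsManifold.of_le (n := ω) le_top
  refine ⟨(h t ht).continuousAt, fun i hi => ?_⟩
  obtain ⟨y, hy⟩ := hA i
  have hFc : ContinuousOn f O := fun s hs => (h s hs).continuousAt.continuousWithinAt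
  have hU : IsOpen (O ∩ f ⁻¹' (A.ch i).source) := hFc.isOpen_inter_preimage hO (A.ch i).open_source
  refine SS.hol_analytic hU ?_ ⟨ht, hi⟩
  intro s hs
  have hs' : f s ∈ (chartAt E y).source := by rw [← hy]; exact hs.2
  have h1 : MDifferentiableAt 𝓘(ℂ, E) 𝓘(ℂ, E) (chartAt E y) (f s) :=
    mdifferentiableAt_atlas (I := 𝓘(ℂ, E)) (chart_mem_atlas E y) hs'
  have h2 : MDifferentiableAt 𝓘(ℂ, ℂ) 𝓘(ℂ, E) (chartAt E y ∘ f) s := h1.comp s (h s hs.1)
  rw [mdifferentiableAt_iff_differentiableAt] at h2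
  have h3 : A.loc i f = chartAt E y ∘ f := by
    funext r
    rw [Cha.loc, hy]
    rfl
  rw [h3]
  exact h2

/-- velocities in a compact set, on an open set -/
theorem top_bound (A : Cha E X) (hA : ∀ i, ∃ y, A.ch i = chartAt E y) (f : ℂ → X) {O : Set ℂ}
    (hf : ∀ t ∈ O, MDifferentiableAt 𝓘(ℂ, ℂ) 𝓘(ℂ, E) f t)
    (K : Set (TangentBundle 𝓘(ℂ, E) X))
    (hK : IsCompact K) (hv : ∀ z ∈ O, BR.velocity (E := E) f z ∈ K) :
    ∃ C, ∀ z ∈ O, ∀ i, f z ∈ A.W i → ‖deriv (A.loc i f) z‖ ≤ C := by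
  have key : ∀ i, ∃ C : ℝ, ∀ z ∈ O, f z ∈ A.W i → ‖deriv (A.loc i f) z‖ ≤ C := by
    intro i
    obtain ⟨y, hy⟩ := hA i
    have hsub : K ∩ {p : TangentBundle 𝓘(ℂ, E) X | p.1 ∈ closure (A.W i)} ⊆
        {p | p.1 ∈ (chartAt E y).source} := by
      intro p hp
      have := A.W_sub i hp.2
      rw [hy] at this
      exact this
    obtain ⟨C, hC⟩ := (vel_compact A i hK).exists_bound_of_continuousOn ((vel_cont y).mono hsub)
    refine ⟨C, fun z hzO hz => ?_⟩
    have hz' : f z ∈ (chartAt E y).source := by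
      have := A.W_sub i (subset_closure hz)
      rw [hy] at this
      exact this
    have h1 := vel_coord y f z (hf z hzO) hz'
    have h2 : A.loc i f = fun w => chartAt E y (f w) := by
      funext r
      rw [Cha.loc, hy]
    rw [h2, h1]
    have h3 := hC (BR.velocity (E := E) f z) ⟨hv z hzO, subset_closure hz⟩
    rw [norm_norm] at h3
    exact h3
  choose C hC using key
  have := A.fin
  obtain ⟨M, hM⟩ := Finite.exists_le C
  exact ⟨M, fun z hzO i hz => (hC i z hzO hz).trans (hM i)⟩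

/-- a map which is holomorphic in the charts is differentiable -/
theorem top_mdiff (A : Cha E X) (hA : ∀ i, ∃ y, A.ch i = chartAt E y) {f : ℂ → X} {t : ℂ}
    (h : A.HolAt f t) : MDifferentiableAt 𝓘(ℂ, ℂ) 𝓘(ℂ, E) f t := by
  have : IsManifold 𝓘(ℂ, E) 1 X := IsManifold.of_le (n := ω) le_top
  obtain ⟨i, hi⟩ := A.cover (f t)
  have hsrc : f t ∈ (A.ch i).source := A.W_sub i (subset_closure hi)
  obtain ⟨y, hy⟩ := hA i
  have h1 : MDifferentiableAt 𝓘(ℂ, ℂ) 𝓘(ℂ, E) (A.loc i f) t :=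
    ((h.2 i hsrc).differentiableAt).mdifferentiableAt
  have h2 : MDifferentiableAt 𝓘(ℂ, E) 𝓘(ℂ, E) (chartAt E y).symm (A.loc i f t) := by
    refine mdifferentiableAt_atlas_symm (I := 𝓘(ℂ, E)) (chart_mem_atlas E y) ?_
    rw [← hy]
    exact (A.ch i).map_source hsrc
  have h3 : MDifferentiableAt 𝓘(ℂ, ℂ) 𝓘(ℂ, E) ((chartAt E y).symm ∘ A.loc i f) t :=
    h2.comp t h1
  refine h3.congr_of_eventuallyEq ?_
  have h4 : ∀ᶠ s in 𝓝 t, f s ∈ (A.ch i).source :=
    h.1.eventually ((A.ch i).open_source.mem_nhds hsrc)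
  filter_upwards [h4] with s hs
  rw [← hy]
  exact ((A.ch i).left_inv hs).symm

end loc

theorem disc_metric [MetricSpace X] [CompactSpace X] [ConnectedSpace X]
    [ChartedSpace E X] [IsManifold 𝓘(ℂ, E) ω X] (hL : LocLip E (X := X))
    (hX : BrodyRigid.CanonicalAmple E X)
    (hJ : MinBrody.HasInvariantJetDifferential E X) (F : ℂ → X)
    (hF : Cylinder.IsPuncturedBrody E F) :
    Cylinder.ExtendsOverZero E F ∨ ∃ g : ℂ → X, Cylinder.IsEndLimit F g ∧
      BrodyRigid.IsBrodyCurve (E := E) g ∧ (∃ z z', g z ≠ g z') ∧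
        Cylinder.HasAlgebraicImage g := by
  obtain ⟨A, hA⟩ := exists_cha (E := E) (X := X)
  have hX' := BrodyRigid.canonicalAmple_iff.1 hX
  obtain ⟨N, k', hk', ⟨Fr⟩⟩ := exists_frm A hA (planeAmple_of_canonicalAmple hX')
  obtain ⟨lam, L, hB⟩ := exists_blip hL A hA
  obtain ⟨k, m, P, Q, hJ'⟩ := exists_jd A hA hJ
  obtain ⟨hF1, K, hK, hF2⟩ := hF
  -- the curve on the half-plane
  obtain ⟨f, hfdef⟩ : ∃ f : ℂ → X, f = fun z => F (Complex.exp z) := ⟨_, rfl⟩
  obtain ⟨O, hOdef⟩ : ∃ O : Set ℂ, O = {z : ℂ | z.re < 0} := ⟨_, rfl⟩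
  have hO : IsOpen O := by
    rw [hOdef]
    exact isOpen_lt Complex.continuous_re continuous_const
  have hexp : ∀ z ∈ O, Complex.exp z ≠ 0 ∧ ‖Complex.exp z‖ < 1 := by
    intro z hz
    rw [hOdef] at hz
    refine ⟨Complex.exp_ne_zero z, ?_⟩
    rw [Complex.norm_exp]
    exact Real.exp_lt_one_iff.2 hz
  have hfm : ∀ z ∈ O, MDifferentiableAt 𝓘(ℂ, ℂ) 𝓘(ℂ, E) f z := by
    intro z hz
    obtain ⟨h1, h2⟩ := hexp z hz
    rw [hfdef]
    have h3 : MDifferentiableAt 𝓘(ℂ, ℂ) 𝓘(ℂ, ℂ) Complex.exp z :=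
      Complex.differentiableAt_exp.mdifferentiableAt
    exact (hF1 _ h1 h2).comp z h3
  have hfv : ∀ z ∈ O, BR.velocity (E := E) f z ∈ K := by
    intro z hz
    obtain ⟨h1, h2⟩ := hexp z hz
    have h3 : MDifferentiableAt 𝓘(ℂ, ℂ) 𝓘(ℂ, ℂ) Complex.exp z :=
      Complex.differentiableAt_exp.mdifferentiableAt
    have h4 := hF2 _ h1 h2
    have h5 : BR.velocity (E := E) f z =
        tangentMap 𝓘(ℂ, ℂ) 𝓘(ℂ, E) F ⟨Complex.exp z, Complex.exp z⟩ := by
      have h6 : f = F ∘ Complex.exp := hfdef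
      have h7 := tangentMap_comp_at (I := 𝓘(ℂ, ℂ)) (I' := 𝓘(ℂ, ℂ)) (I'' := 𝓘(ℂ, E))
        (⟨z, (1 : ℂ)⟩ : TangentBundle 𝓘(ℂ, ℂ) ℂ) (g := F) (f := Complex.exp) (hF1 _ h1 h2) h3
      have h8 : tangentMap 𝓘(ℂ, ℂ) 𝓘(ℂ, ℂ) Complex.exp (⟨z, (1 : ℂ)⟩ : TangentBundle 𝓘(ℂ, ℂ) ℂ) =
          ⟨Complex.exp z, Complex.exp z⟩ := by
        simp only [tangentMap, mfderiv_eq_fderiv]
        congr 1
        have h9 : fderiv ℂ Complex.exp z 1 = Complex.exp z := by
          rw [fderiv_apply_one_eq_deriv, Complex.deriv_exp]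
        exact h9
      rw [h8] at h7
      rw [h6]
      exact h7
    rw [h5]
    exact h4
  obtain ⟨C, hC⟩ := top_bound A hA f hfm K hK hfv
  have hHB : HB A C f := by
    refine ⟨fun z hz => ?_, fun z hz i hi => ?_, fun z hz => ?_⟩
    · exact top_hol A hA f hO hfm (by rw [hOdef]; exact hz)
    · exact hC z (by rw [hOdef]; exact hz) i hi
    · rw [hfdef]
      simp only [tpi, Complex.exp_add, Complex.exp_two_pi_mul_I, mul_one]
  rcases top_half_pr hX.1 hB Fr hk' hJ' hHB with ⟨c, hc⟩ | ⟨g, hg, hgn, hgs⟩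
  · left
    refine ⟨ext f c, fun w hw => top_mdiff A hA (ext_half hHB hc w hw), fun w hw0 hw => ?_⟩
    simp only [ext, if_neg hw0, hfdef, Complex.exp_log hw0]
  · right
    have hgB := lam_bf hHB hg
    obtain ⟨z, hz1, hz2⟩ := lam_seq hHB hg
    refine ⟨g, ⟨fun n => Complex.exp (z n), fun n => Complex.exp_ne_zero _, ?_, fun w => ?_⟩,
      (BrodyRigid.isBrodyCurve_iff g).2 (brody_of_bound A hA g hgB.1 C hgB.2), hgn, hgs⟩
    · rw [tendsto_zero_iff_norm_tendsto_zero]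
      simp only [Complex.norm_exp]
      refine Real.tendsto_exp_atBot.comp ?_
      refine tendsto_atBot_mono (fun n => (hz1 n).le) ?_
      exact tendsto_neg_atTop_atBot.comp tendsto_natCast_atTop_atTop
    · have h1 := hz2 w
      rw [hfdef] at h1
      simpa only [Complex.exp_add] using h1

theorem disc_main [t : TopologicalSpace X] [CompactSpace X] [T2Space X] [ConnectedSpace X]
    [ChartedSpace E X] [IsManifold 𝓘(ℂ, E) ω X] (hX : BrodyRigid.CanonicalAmple E X)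
    (hJ : MinBrody.HasInvariantJetDifferential E X) (F : ℂ → X)
    (hF : Cylinder.IsPuncturedBrody E F) :
    Cylinder.ExtendsOverZero E F ∨ ∃ g : ℂ → X, Cylinder.IsEndLimit F g ∧
      BrodyRigid.IsBrodyCurve (E := E) g ∧ (∃ z z', g z ≠ g z') ∧
        Cylinder.HasAlgebraicImage g := by
  obtain ⟨m, hm, hL⟩ := exists_metric (E := E) (X := X)
  subst hm
  exact disc_metric hL hX hJ F hF

end metric

end Pool.Agent.CYL

namespace Pool.Agent.CYL
alias top_half := top_half_pr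
end Pool.Agent.CYL
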