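import Pool.Agent.Lib_helper66.CYL.Base
import Pool.Agent.Lib_helper58.MBS.L.BCMP
import Pool.Agent.Lib_helper58.MBS.L.BMIN
import Pool.Agent.Lib_helper58.MBS.L.BSEQ
import Pool.Agent.Lib_helper58.MBS.L.BLIM
import Pool.Agent.Lib_helper58.MBS.L.BCHT
import Pool.Agent.Lib_helper58.MBS.L.BJET
import Pool.Agent.Lib_helper58.MBS.L.BNC
import Pool.Agent.Lib_helper58.MBS.L.BSMP
import Pool.Agent.Lib_helper58.MBS.L.ALIM
import Pool.Agent.Lib_helper58.MBS.L.AINV
import Pool.Agent.Lib_helper58.MBS.L.CPIM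
import Pool.Agent.Lib_helper58.MBS.L.DLST
import Pool.Agent.Lib_helper58.MBS.L.EUEX
import Pool.Agent.Lib_helper58.MBS.L.ETF
import Pool.Agent.Lib_helper58.MBS.L.FLAT
import Pool.Agent.Lib_helper66.CYL.P.BVIS
import Pool.Agent.Lib_helper66.CYL.P.BBAI
import Pool.Agent.Lib_helper66.CYL.P.BSMC
import Pool.Agent.Lib_helper66.CYL.P.CASM
import Pool.Agent.Lib_helper66.CYL.P.DHH
import Pool.Agent.Lib_helper66.CYL.P.EENT
import Pool.Agent.Lib_helper66.CYL.P.ELIM
import Pool.Agent.Lib_helper66.CYL.P.EPAR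
import Pool.Agent.Lib_helper66.CYL.P.FSTA
import Pool.Agent.Lib_helper66.CYL.P.FCOV
import Pool.Agent.Lib_helper66.CYL.Half
import Pool.Agent.Lib_helper66.CYL.N.P4

/-! # The cylinder theorem (MP_45e720_ag), block H4: decay of calm curves, local form
(the proof of block B1 by helper76 with local hypotheses) -/

set_option autoImplicit false
set_option linter.unusedSectionVars false
set_option linter.unusedVariables false

open Filter Topology Metric Set

namespace Pool.Agent.CYL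

open Pool.Agent.BR Pool.Agent.MBS

section half

variable {E X : Type} [NormedAddCommGroup E] [NormedSpace ℂ E] [FiniteDimensional ℂ E]
  [MetricSpace X] [CompactSpace X] {A : Cha E X} {C lam L : ℝ}

/-- unit steps along a segment -/
theorem h4_chain {g : ℂ → X} {δ : ℝ} (n : ℕ) : ∀ z z' : ℂ, ‖z' - z‖ ≤ n →
    (∀ t : ℝ, 0 ≤ t → t ≤ 1 → Calm δ g (z + t * (z' - z))) → dist (g z) (g z') ≤ n * δ := by
  induction n with
  | zero =>
    intro z z' h _
    have h1 : z' - z = 0 := norm_le_zero_iff.1 (by simpa using h)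
    rw [sub_eq_zero.1 h1]
    simp
  | succ n ih =>
    intro z z' h hc
    have hn : (0 : ℝ) < (n : ℝ) + 1 := by positivity
    set s : ℝ := (n : ℝ) / (n + 1) with hs
    have hs0 : 0 ≤ s := by positivity
    have hs1 : s ≤ 1 := by
      rw [hs, div_le_one hn]
      linarith
    set w : ℂ := z + s * (z' - z) with hw
    have h' : ‖z' - z‖ ≤ (n : ℝ) + 1 := by exact_mod_cast h
    have h1 : ‖w - z‖ ≤ n := by
      rw [hw, add_sub_cancel_left, norm_mul, Complex.norm_real, Real.norm_of_nonneg hs0]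
      calc s * ‖z' - z‖ ≤ s * ((n : ℝ) + 1) := mul_le_mul_of_nonneg_left h' hs0
        _ = n := by rw [hs]; field_simp
    have h2 : ‖z' - w‖ ≤ 1 := by
      have h3 : z' - w = ((1 - s : ℝ) : ℂ) * (z' - z) := by
        rw [hw]
        push_cast
        ring
      rw [h3, norm_mul, Complex.norm_real, Real.norm_of_nonneg (by linarith)]
      calc (1 - s) * ‖z' - z‖ ≤ (1 - s) * ((n : ℝ) + 1) :=
            mul_le_mul_of_nonneg_left h' (by linarith)
        _ = 1 := by rw [hs]; field_simp; ring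
    have h4 := ih z w h1 fun t ht0 ht1 => by
      have h5 : z + (t : ℂ) * (w - z) = z + ((t * s : ℝ) : ℂ) * (z' - z) := by
        rw [hw]
        push_cast
        ring
      rw [h5]
      exact hc (t * s) (by positivity) (mul_le_one₀ ht1 hs0 hs1)
    have h6 := hc s hs0 hs1 z' h2
    rw [dist_comm] at h6
    have h7 := dist_triangle (g z) (g w) (g z')
    have h8 : (((n + 1 : ℕ) : ℝ)) * δ = n * δ + δ := by
      push_cast
      ring
    rw [h8]
    linarith

theorem exists_dec_loc_pr (hB : BLip A lam L) : ∃ η₀ > 0, ∃ ℓ : ℕ, 1 ≤ ℓ ∧ ∀ (g : ℂ → X) (z : ℂ),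
    (∀ w ∈ ball z ℓ, A.HolAt g w) → g (z + tpi) = g z → ∀ δ, 0 < δ → δ ≤ η₀ →
      (∀ z', ‖z' - z‖ ≤ ℓ → Calm δ g z') → Calm (δ / 2) g z := by
  have hlam := hB.lam_pos
  have hL := hB.L_one
  set n : ℕ := max 16 ⌈480 * L ^ 2⌉₊ with hn
  have hn16 : 16 ≤ n := le_max_left _ _
  have hn16' : (16 : ℝ) ≤ n := by exact_mod_cast hn16
  have hnL : 480 * L ^ 2 ≤ n :=
    (Nat.le_ceil _).trans (Nat.cast_le.2 (le_max_right 16 ⌈480 * L ^ 2⌉₊))
  have hn0 : (0 : ℝ) < n := by linarith
  refine ⟨lam / (2 * (n + 1)), by positivity, n, by omega, ?_⟩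
  intro g z hg hp δ hδ hδη hcalm w₁ hw₁
  -- the curve stays near
  have hnear : ∀ w : ℂ, ‖w‖ < n → dist (g z) (g (z + w)) ≤ (‖w‖ + 1) * δ := by
    intro w hw
    have h1 := h4_chain (g := g) (δ := δ) ⌈‖w‖⌉₊ z (z + w) (by
      rw [add_sub_cancel_left]
      exact Nat.le_ceil _) fun t ht0 ht1 => by
        refine hcalm _ ?_
        rw [add_sub_cancel_left, add_sub_cancel_left, norm_mul, Complex.norm_real,
          Real.norm_of_nonneg ht0]
        calc t * ‖w‖ ≤ 1 * ‖w‖ := mul_le_mul_of_nonneg_right ht1 (norm_nonneg _)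
          _ ≤ n := by rw [one_mul]; exact hw.le
    refine h1.trans (mul_le_mul_of_nonneg_right ?_ hδ.le)
    exact (Nat.ceil_lt_add_one (norm_nonneg w)).le
  have hlt : ∀ w : ℂ, ‖w‖ < n → dist (g z) (g (z + w)) < lam := by
    intro w hw
    refine (hnear w hw).trans_lt ?_
    have h1 : (‖w‖ + 1) * δ ≤ ((n : ℝ) + 1) * (lam / (2 * (n + 1))) :=
      mul_le_mul (by linarith) hδη hδ.le (by positivity)
    have h2 : ((n : ℝ) + 1) * (lam / (2 * (n + 1))) = lam / 2 := by
      field_simp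
    linarith
  obtain ⟨i, hi⟩ := hB.leb (g z)
  have hgz : g z ∈ closure (A.W i) := subset_closure (hi (mem_ball_self hlam))
  set F : ℂ → E := fun w => A.ch i (g (z + w)) - A.ch i (g z) with hF
  have hmem : ∀ w : ℂ, ‖w‖ < n → g (z + w) ∈ ball (g z) lam := fun w hw => by
    rw [mem_ball, dist_comm]
    exact hlt w hw
  have hFan : ∀ w ∈ ball (0 : ℂ) n, AnalyticAt ℂ F w := by
    intro w hw
    rw [mem_ball_zero_iff] at hw
    have h1 : g (z + w) ∈ (A.ch i).source := A.W_sub i (subset_closure (hi (hmem w hw)))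
    have h2 : AnalyticAt ℂ (A.loc i g) ((fun w : ℂ => z + w) w) := (hg (z + w) (by rw [mem_ball_iff_norm, add_sub_cancel_left]; exact hw)).2 i h1
    have h3 : AnalyticAt ℂ (fun w => A.loc i g (z + w)) w :=
      h2.comp (f := fun w : ℂ => z + w) (by fun_prop)
    exact h3.sub analyticAt_const
  have hFb : ∀ w ∈ ball (0 : ℂ) n, ‖F w‖ ≤ (L * δ) * (‖w‖ + 1) := by
    intro w hw
    rw [mem_ball_zero_iff] at hw
    have h1 := hB.ch_le i (g z) hgz (g (z + w)) (hmem w hw) (g z) (mem_ball_self hlam)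
    refine h1.trans ?_
    have h2 := hnear w hw
    rw [dist_comm] at h2
    calc L * dist (g (z + w)) (g z) ≤ L * ((‖w‖ + 1) * δ) :=
          mul_le_mul_of_nonneg_left h2 (by linarith)
      _ = (L * δ) * (‖w‖ + 1) := by ring
  have hF0 : F 0 = 0 := by
    rw [hF]
    simp
  have hF1 : F tpi = 0 := by
    rw [hF]
    dsimp only
    rw [hp, sub_self]
  have hdec := dec_pure (F := F) (n := n) (K := L * δ) hn16' (by positivity) hFan hFb hF0 hF1
  -- conclusion
  set w : ℂ := w₁ - z with hw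
  have hw1 : ‖w‖ ≤ 1 := hw₁
  have hwn : ‖w‖ < n := by linarith
  have h1 := hB.le_ch i (g z) hgz (g (z + w)) (hmem w hwn) (g z) (mem_ball_self hlam)
  have h2 := hdec w hw1
  have h3 : z + w = w₁ := by
    rw [hw]
    ring
  rw [h3] at h1
  have h4 : F w = A.ch i (g w₁) - A.ch i (g z) := by
    rw [hF]
    dsimp only
    rw [h3]
  rw [← h4] at h1
  refine h1.trans ?_
  calc L * ‖F w‖ ≤ L * (240 * (L * δ) / n) := mul_le_mul_of_nonneg_left h2 (by linarith)
    _ = (480 * L ^ 2) * (δ / (2 * n)) := by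
        field_simp
        ring
    _ ≤ n * (δ / (2 * n)) := mul_le_mul_of_nonneg_right hnL (by positivity)
    _ = δ / 2 := by field_simp

end half

end Pool.Agent.CYL

namespace Pool.Agent.CYL
alias exists_dec_loc := exists_dec_loc_pr
end Pool.Agent.CYL
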