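import Pool.Agent.Lib_helper66.CYL.Base
import Pool.Agent.Lib_helper58.MBS.L.BCMP
import Pool.Agent.Lib_helper58.MBS.L.BMIN
import Pool.Agent.Lib_helper58.MBS.L.BSEQ
import Pool.Agent.Lib_helper58.MBS.L.BLIM
import Pool.Agent.Lib_helper58.MBS.L.BCHT
import Pool.Agent.Lib_helper58.MBS.L.BJET
import Pool.Agent.Lib_helper58.MBS.L.BNC
import Pool.Agent.Lib_helper58.MBS.L.BSMP
import Pool.Agent.Lib_helper58.MBS.L.ALIM
import Pool.Agent.Lib_helper58.MBS.L.AINV
import Pool.Agent.Lib_helper58.MBS.L.CPIM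
import Pool.Agent.Lib_helper58.MBS.L.DLST
import Pool.Agent.Lib_helper58.MBS.L.EUEX
import Pool.Agent.Lib_helper58.MBS.L.ETF
import Pool.Agent.Lib_helper58.MBS.L.FLAT
import Pool.Agent.Lib_helper66.CYL.P.BVIS
import Pool.Agent.Lib_helper66.CYL.P.BBAI
import Pool.Agent.Lib_helper66.CYL.P.BSMC
import Pool.Agent.Lib_helper66.CYL.P.CASM
import Pool.Agent.Lib_helper66.CYL.P.DHH
import Pool.Agent.Lib_helper66.CYL.P.EENT
import Pool.Agent.Lib_helper66.CYL.P.ELIM
import Pool.Agent.Lib_helper66.CYL.P.EPAR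
import Pool.Agent.Lib_helper66.CYL.P.FSTA
import Pool.Agent.Lib_helper66.CYL.P.FCOV
import Pool.Agent.Lib_helper66.CYL.Half
import Pool.Agent.Lib_helper66.CYL.N.H2
import Pool.Agent.Lib_helper66.CYL.N.H4

/-! # The cylinder theorem (MP_45e720_ag), block H5: constant limits (helper16) -/

set_option autoImplicit false
set_option linter.unusedSectionVars false
set_option linter.unusedVariables false

open Filter Topology Metric Set

namespace Pool.Agent.CYL

open Pool.Agent.BR Pool.Agent.MBS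

section half

variable {E X : Type} [NormedAddCommGroup E] [NormedSpace ℂ E] [FiniteDimensional ℂ E]
  [MetricSpace X] [CompactSpace X] {A : Cha E X} {C lam L : ℝ}

/-- in a calm half-plane the curve moves slowly -/
theorem h5_path {f : ℂ → X} {b δ : ℝ} (h : ∀ z : ℂ, z.re < b → Calm δ f z) (m : ℕ) :
    ∀ {z z' : ℂ}, z.re < b → z'.re < b → ‖z' - z‖ ≤ m → dist (f z) (f z') ≤ m * δ := by
  induction m with
  | zero =>
    intro z z' _ _ hd
    rw [Nat.cast_zero] at hd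
    have h1 : z' - z = 0 := norm_le_zero_iff.1 hd
    rw [sub_eq_zero.1 h1, dist_self, Nat.cast_zero, zero_mul]
  | succ m ih =>
    intro z z' hz hz' hd
    have hm : (0 : ℝ) < (m : ℝ) + 1 := by positivity
    obtain ⟨c, hc⟩ : ∃ c : ℝ, c = m / ((m : ℝ) + 1) := ⟨_, rfl⟩
    have hc0 : 0 ≤ c := by rw [hc]; positivity
    have hc1 : c * ((m : ℝ) + 1) = m := by rw [hc]; field_simp
    have hc2 : (1 - c) * ((m : ℝ) + 1) = 1 := by linarith
    have hc3 : 0 < 1 - c := by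
      by_contra h0
      have := mul_nonpos_of_nonpos_of_nonneg (not_lt.1 h0) hm.le
      linarith
    obtain ⟨z'', hz''⟩ : ∃ z'' : ℂ, z'' = z + (c : ℂ) * (z' - z) := ⟨_, rfl⟩
    have h1 : ‖z'' - z‖ ≤ m := by
      rw [hz'', add_sub_cancel_left, norm_mul, Complex.norm_real, Real.norm_of_nonneg hc0, ← hc1]
      push_cast at hd
      exact mul_le_mul_of_nonneg_left hd hc0
    have h2 : ‖z' - z''‖ ≤ 1 := by
      have e : z' - z'' = ((1 - c : ℝ) : ℂ) * (z' - z) := by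
        rw [hz'']; push_cast; ring
      rw [e, norm_mul, Complex.norm_real, Real.norm_of_nonneg hc3.le]
      push_cast at hd
      exact (mul_le_mul_of_nonneg_left hd hc3.le).trans_eq hc2
    have h3 : z''.re < b := by
      have e : z''.re = (1 - c) * z.re + c * z'.re := by
        rw [hz'', Complex.add_re, Complex.re_ofReal_mul, Complex.sub_re]; ring
      have h4 := mul_lt_mul_of_pos_left hz hc3
      have h5 := mul_le_mul_of_nonneg_left hz'.le hc0
      rw [e]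
      linarith
    have h4 := ih hz h3 h1
    have h5 := h z'' h3 z' h2
    rw [dist_comm] at h5
    have h6 := dist_triangle (f z) (f z'') (f z')
    push_cast
    linarith

theorem h5_tpi_re : tpi.re = 0 := by
  unfold tpi
  simp

theorem h5_tpi_im : tpi.im = 2 * Real.pi := by
  unfold tpi
  simp

/-- the period -/
theorem h5_per {f : ℂ → X} (hf : HB A C f) {z : ℂ} (hz : z.re < 0) (m : ℤ) :
    f (z + m * tpi) = f z := by
  have hn : ∀ (n : ℕ) (z : ℂ), z.re < 0 → f (z + n * tpi) = f z := by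
    intro n
    induction n with
    | zero => intro z _; rw [Nat.cast_zero, zero_mul, add_zero]
    | succ n ih =>
      intro z hz
      have e : z + ((n + 1 : ℕ) : ℂ) * tpi = (z + n * tpi) + tpi := by push_cast; ring
      rw [e, hf.per _ ?_, ih z hz]
      rw [Complex.add_re, ← Complex.ofReal_natCast, Complex.re_ofReal_mul, h5_tpi_re, mul_zero,
        add_zero]
      exact hz
  rcases Int.eq_nat_or_neg m with ⟨n, rfl | rfl⟩
  · exact_mod_cast hn n z hz
  · have h1 := hn n (z + ((-(n : ℤ) : ℤ) : ℂ) * tpi) (by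
      have e : ((-(n : ℤ) : ℤ) : ℂ) = ((-(n : ℝ) : ℝ) : ℂ) := by push_cast; ring
      rw [Complex.add_re, e, Complex.re_ofReal_mul, h5_tpi_re, mul_zero, add_zero]
      exact hz)
    rw [← h1]
    congr 1
    push_cast
    ring

/-- reduction of the imaginary part -/
theorem h5_red {f : ℂ → X} (hf : HB A C f) {z : ℂ} (hz : z.re < 0) :
    ∃ y : ℝ, 0 ≤ y ∧ y ≤ 7 ∧ f z = f ⟨z.re, y⟩ := by
  have hpi := Real.pi_pos
  have hpi2 := Real.pi_lt_d2
  obtain ⟨m, hm⟩ : ∃ m : ℤ, m = ⌊z.im / (2 * Real.pi)⌋ := ⟨_, rfl⟩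
  have h1 : (m : ℝ) ≤ z.im / (2 * Real.pi) := by rw [hm]; exact Int.floor_le _
  have h2 : z.im / (2 * Real.pi) < m + 1 := by rw [hm]; exact Int.lt_floor_add_one _
  rw [le_div_iff₀ (by positivity)] at h1
  rw [div_lt_iff₀ (by positivity)] at h2
  refine ⟨z.im - m * (2 * Real.pi), by linarith, by linarith, ?_⟩
  rw [← h5_per hf hz (-m)]
  congr 1
  have e : ((-m : ℤ) : ℂ) = ((-(m : ℝ) : ℝ) : ℂ) := by push_cast; ring
  apply Complex.ext
  · rw [Complex.add_re, e, Complex.re_ofReal_mul, h5_tpi_re, mul_zero, add_zero]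
  · rw [Complex.add_im, e, Complex.im_ofReal_mul, h5_tpi_im]
    ring

/-- all limits constant: the curve is calm far to the left -/
theorem h5_calm {f : ℂ → X} (hf : HB A C f) (h : ∀ g ∈ Lam f, ¬ NCst g) {η : ℝ} (hη : 0 < η) :
    ∃ N : ℕ, ∀ z : ℂ, z.re < -N → Calm η f z := by
  by_contra hcon
  push Not at hcon
  have h1 : ∀ n : ℕ, ∃ z w : ℂ, z.re < -n ∧ ‖w - z‖ ≤ 1 ∧ η < dist (f w) (f z) := by
    intro n
    obtain ⟨z, hz, hz'⟩ := hcon n
    unfold Calm at hz'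
    push Not at hz'
    obtain ⟨w, hw, hw'⟩ := hz'
    exact ⟨z, w, hz, hw, hw'⟩
  choose z w hz hw hd using h1
  obtain ⟨U, hU⟩ : ∃ U : Ultrafilter ℕ, (U : Filter ℕ) ≤ atTop := Ultrafilter.exists_le atTop
  have hzt : Tendsto (fun n => (z n).re) U atBot := by
    have h2 : Tendsto (fun n : ℕ => -(n : ℝ)) atTop atBot :=
      tendsto_neg_atTop_atBot.comp tendsto_natCast_atTop_atTop
    exact tendsto_atBot_mono (fun n => (hz n).le) (h2.mono_left hU)
  obtain ⟨g, hg, -, hlim⟩ := lam_lim hf U hzt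
  have hcp : IsCompact (closedBall (0 : ℂ) 1) := isCompact_closedBall _ _
  obtain ⟨v, -, hv⟩ := hcp.ultrafilter_le_nhds (U.map fun n => w n - z n) (by
    rw [Ultrafilter.coe_map, le_principal_iff, mem_map]
    exact Eventually.of_forall fun n => by
      rw [mem_closedBall, dist_zero_right]
      exact hw n)
  have hv' : Tendsto (fun n => w n - z n) U (𝓝 v) := hv
  have h3 := hlim _ _ hv'
  have h4 := hlim _ _ (tendsto_const_nhds (x := (0 : ℂ)))
  have h5 : Tendsto (fun n => dist (f (z n + (w n - z n))) (f (z n + 0))) U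
      (𝓝 (dist (g v) (g 0))) := h3.dist h4
  have h6 : η ≤ dist (g v) (g 0) := by
    refine ge_of_tendsto h5 (Eventually.of_forall fun n => ?_)
    rw [add_sub_cancel, add_zero]
    exact (hd n).le
  refine h g hg ⟨v, 0, fun h0 => ?_⟩
  rw [h0, dist_self] at h6
  linarith

/-- the decay -/
theorem h5_dec {f : ℂ → X} (hf : HB A C f) {η₀ : ℝ} (hη : 0 < η₀) {ℓ : ℕ}
    (hdec : ∀ (g : ℂ → X) (z : ℂ),
    (∀ w ∈ ball z ℓ, A.HolAt g w) → g (z + tpi) = g z → ∀ δ, 0 < δ → δ ≤ η₀ →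
      (∀ z', ‖z' - z‖ ≤ ℓ → Calm δ g z') → Calm (δ / 2) g z) {N : ℕ}
    (hN : ∀ z : ℂ, z.re < -N → Calm η₀ f z) (k : ℕ) :
    ∀ z : ℂ, z.re < -N - k * ℓ → Calm (η₀ / 2 ^ k) f z := by
  have hN0 : (0 : ℝ) ≤ N := Nat.cast_nonneg N
  have hl0 : (0 : ℝ) ≤ ℓ := Nat.cast_nonneg ℓ
  induction k with
  | zero =>
    intro z hz
    rw [Nat.cast_zero, zero_mul, sub_zero] at hz
    rw [pow_zero, div_one]
    exact hN z hz
  | succ k ih =>
    intro z hz
    have hk0 : (0 : ℝ) ≤ k * ℓ := by positivity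
    push_cast at hz
    have hz0 : z.re < 0 := by nlinarith
    have hre : ∀ w : ℂ, ‖w - z‖ ≤ ℓ → w.re < -N - k * ℓ := by
      intro w hw
      have h1 := (Complex.abs_re_le_norm (w - z)).trans hw
      rw [Complex.sub_re] at h1
      have h2 := (abs_le.1 h1).2
      nlinarith
    have h1 := hdec f z (fun w hw => hf.hol w (by
      rw [mem_ball, dist_eq_norm] at hw
      have := hre w hw.le
      linarith)) (hf.per z hz0) (η₀ / 2 ^ k) (by positivity)
      (div_le_self hη.le (one_le_pow₀ (by norm_num))) fun z' hz' => ih z' (hre z' hz')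
    have e : η₀ / 2 ^ k / 2 = η₀ / 2 ^ (k + 1) := by rw [pow_succ, div_div]
    rw [e] at h1
    exact h1

/-- moving to the left -/
theorem h5_left {f : ℂ → X} {η₀ : ℝ} (hη : 0 < η₀) {ℓ N : ℕ} (hℓ : 1 ≤ ℓ)
    (h : ∀ (k : ℕ) (z : ℂ), z.re < -N - k * ℓ → Calm (η₀ / 2 ^ k) f z) (M : ℕ) :
    ∀ (k : ℕ) (z : ℂ) (t : ℝ), z.re < -N - k * ℓ → 0 ≤ t → t ≤ M * ℓ →
      dist (f z) (f (z - t)) ≤ 2 * ℓ * (η₀ / 2 ^ k) := by
  have hl1 : (1 : ℝ) ≤ ℓ := by exact_mod_cast hℓ
  have hstep : ∀ (k : ℕ) (z : ℂ) (t : ℝ), z.re < -N - k * ℓ → 0 ≤ t → t ≤ ℓ →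
      dist (f z) (f (z - t)) ≤ ℓ * (η₀ / 2 ^ k) := by
    intro k z t hz ht0 ht
    refine h5_path (h k) ℓ hz ?_ ?_
    · rw [Complex.sub_re, Complex.ofReal_re]; linarith
    · rw [show z - (t : ℂ) - z = -(t : ℂ) by ring, norm_neg, Complex.norm_real,
        Real.norm_of_nonneg ht0]
      exact ht
  induction M with
  | zero =>
    intro k z t _ ht0 ht
    rw [Nat.cast_zero, zero_mul] at ht
    have h0 : t = 0 := le_antisymm ht ht0
    rw [h0, Complex.ofReal_zero, sub_zero, dist_self]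
    positivity
  | succ M ih =>
    intro k z t hz ht0 ht
    have ha : 0 < η₀ / 2 ^ k := by positivity
    rcases le_total t ℓ with htl | htl
    · refine (hstep k z t hz ht0 htl).trans ?_
      nlinarith
    · have h1 := hstep k z ℓ hz (by linarith) le_rfl
      have h2 := ih (k + 1) (z - ℓ) (t - ℓ) (by
        rw [Complex.sub_re, Complex.natCast_re]
        push_cast
        linarith) (by linarith) (by push_cast at ht; linarith)
      have e : z - (ℓ : ℂ) - ((t - ℓ : ℝ) : ℂ) = z - t := by push_cast; ring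
      rw [e] at h2
      have h3 := dist_triangle (f z) (f (z - (ℓ : ℂ))) (f (z - t))
      have e2 : 2 * (ℓ : ℝ) * (η₀ / 2 ^ (k + 1)) = ℓ * (η₀ / 2 ^ k) := by
        rw [pow_succ]; field_simp
      rw [e2] at h2
      have e3 : (((ℓ : ℝ) : ℂ)) = (ℓ : ℂ) := by push_cast; rfl
      rw [e3] at h1
      linarith

theorem h5_cauchy {f : ℂ → X} (hf : HB A C f) {η₀ : ℝ} (hη : 0 < η₀) {ℓ N : ℕ} (hℓ : 1 ≤ ℓ)
    (h : ∀ (k : ℕ) (z : ℂ), z.re < -N - k * ℓ → Calm (η₀ / 2 ^ k) f z) (k : ℕ) {z z' : ℂ}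
    (hz : z.re < -N - k * ℓ) (hz' : z'.re < -N - k * ℓ) :
    dist (f z) (f z') ≤ (2 * ℓ + 7) * (η₀ / 2 ^ k) := by
  wlog hle : z'.re ≤ z.re generalizing z z'
  · rw [dist_comm]
    exact this hz' hz (not_le.1 hle).le
  have hN0 : (0 : ℝ) ≤ N := Nat.cast_nonneg N
  have hk0 : (0 : ℝ) ≤ k * ℓ := by positivity
  obtain ⟨y, hy0, hy7, hy⟩ := h5_red hf (z := z) (by linarith)
  obtain ⟨y', hy0', hy7', hy'⟩ := h5_red hf (z := z') (by linarith)
  rw [hy, hy']
  obtain ⟨M, hM⟩ := exists_nat_ge (z.re - z'.re)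
  have hl1 : (1 : ℝ) ≤ ℓ := by exact_mod_cast hℓ
  have h1 := h5_left hη hℓ h M k ⟨z.re, y⟩ (z.re - z'.re) hz (by linarith) (by
    have : (0 : ℝ) ≤ M := Nat.cast_nonneg M
    nlinarith)
  have e : (⟨z.re, y⟩ : ℂ) - ((z.re - z'.re : ℝ) : ℂ) = ⟨z'.re, y⟩ := by
    apply Complex.ext
    · rw [Complex.sub_re, Complex.ofReal_re]; ring
    · rw [Complex.sub_im, Complex.ofReal_im]; ring
  rw [e] at h1
  have h2 := h5_path (h k) 7 (z := ⟨z'.re, y⟩) (z' := ⟨z'.re, y'⟩) hz' hz' (by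
    have e : (⟨z'.re, y'⟩ : ℂ) - ⟨z'.re, y⟩ = ((y' - y : ℝ) : ℂ) * Complex.I := by
      apply Complex.ext
      · simp
      · simp
    rw [e, norm_mul, Complex.norm_I, mul_one, Complex.norm_real, Real.norm_eq_abs, abs_le]
    push_cast
    constructor <;> linarith)
  have h3 := dist_triangle (f ⟨z.re, y⟩) (f ⟨z'.re, y⟩) (f ⟨z'.re, y'⟩)
  push_cast at h2
  linarith

theorem lam_const_pr (hB : BLip A lam L) {f : ℂ → X} (hf : HB A C f)
    (h : ∀ g ∈ Lam f, ¬ NCst g) : ∃ c, Tendsto f (comap Complex.re atBot) (𝓝 c) := by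
  obtain ⟨η₀, hη, ℓ, hℓ, hdec⟩ := exists_dec_loc hB
  obtain ⟨N, hN⟩ := h5_calm hf h hη
  have hd := h5_dec hf hη hdec hN
  have hne : (comap Complex.re atBot).NeBot := by
    refine comap_neBot fun t ht => ?_
    obtain ⟨a, ha⟩ := (atBot_basis (α := ℝ)).mem_iff.1 ht
    exact ⟨(a : ℂ), ha.2 (by rw [Complex.ofReal_re]; exact self_mem_Iic)⟩
  have hc : Cauchy (map f (comap Complex.re atBot)) := by
    rw [Metric.cauchy_iff]
    refine ⟨hne.map f, fun ε hε => ?_⟩
    have ht : Tendsto (fun k : ℕ => (2 * (ℓ : ℝ) + 7) * (η₀ / 2 ^ k)) atTop (𝓝 0) := by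
      have h1 : Tendsto (fun k : ℕ => ((1 : ℝ) / 2) ^ k) atTop (𝓝 0) :=
        tendsto_pow_atTop_nhds_zero_of_lt_one (by norm_num) (by norm_num)
      have h2 := h1.const_mul ((2 * (ℓ : ℝ) + 7) * η₀)
      rw [mul_zero] at h2
      refine h2.congr fun k => ?_
      rw [one_div, inv_pow]
      ring
    obtain ⟨k, hk⟩ := (ht.eventually_lt_const hε).exists
    refine ⟨f '' {z | z.re < -N - k * ℓ}, ?_, ?_⟩
    · refine image_mem_map ?_
      exact preimage_mem_comap (Iio_mem_atBot _)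
    · rintro _ ⟨z, hz, rfl⟩ _ ⟨z', hz', rfl⟩
      exact (h5_cauchy hf hη hℓ hd k hz hz').trans_lt hk
  obtain ⟨c, hc'⟩ := CompleteSpace.complete hc
  exact ⟨c, hc'⟩

end half

end Pool.Agent.CYL

namespace Pool.Agent.CYL
alias lam_const := lam_const_pr
end Pool.Agent.CYL
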